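import Pool.Agent.Helper26K9.QA.Stm

/-!
# The values of all weights from the flow ([ALGA])
-/

set_option autoImplicit false
set_option linter.unusedSectionVars false

open scoped PeriodPair

namespace Pool.Agent.Helper26K9.QA

namespace AlgaL

section comb

open Finset

/-- the coefficients of the expansion -/
noncomputable def Ac (k m : ℕ) : ℂ := (-1) ^ k * ((k + m).choose k : ℂ) ^ 2 * (k.factorial : ℂ)

noncomputable def Bc : ℕ → ℕ → ℂ
  | _, 0 => 0
  | k, m + 1 => Ac k m

noncomputable def Cc : ℕ → ℕ → ℂ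
  | 0, _ => 0
  | k + 1, m => -((k : ℂ) + 1 + 2 * m) * Ac k m

lemma Ac_step (k m : ℕ) : Ac (k + 1) m * (k + 1) = -((k : ℂ) + m + 1) ^ 2 * Ac k m := by
  have h := Nat.add_one_mul_choose_eq (k + m) k
  have h1 : ((k : ℂ) + m + 1) * ((k + m).choose k : ℂ) = ((k + 1 + m).choose (k + 1) : ℂ) * (k + 1) := by
    have h2 := congrArg (Nat.cast : ℕ → ℂ) h
    rw [show k + m + 1 = k + 1 + m by ring] at h2
    push_cast at h2
    linear_combination h2
  unfold Ac
  rw [Nat.factorial_succ]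
  push_cast
  rw [pow_succ]
  linear_combination ((-1 : ℂ) ^ k * (k.factorial : ℂ) * (((k : ℂ) + m + 1) *
    ((k + m).choose k : ℂ) + ((k + 1 + m).choose (k + 1) : ℂ) * (k + 1))) * h1

lemma Ac_split (k m : ℕ) (h : 0 < k + m) : Ac k m = Bc k m + Cc k m := by
  rcases k with _ | k <;> rcases m with _ | m
  · omega
  · simp [Ac, Bc, Cc]
  · simp only [Ac, Bc, Cc, Nat.add_zero, Nat.choose_self, Nat.factorial_succ, pow_succ]
    push_cast
    ring
  · have h1 : ((k + 1 + (m + 1)).choose (k + 1) : ℂ) = ((k + m + 1).choose k : ℂ) +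
        ((k + m + 1).choose (k + 1) : ℂ) := by
      have := Nat.choose_succ_succ (k + m + 1) k
      rw [show k + 1 + (m + 1) = (k + m + 1).succ by omega]
      rw [this]
      push_cast
      rfl
    have h2 : ((k + m + 1).choose (k + 1) : ℂ) * (k + 1) = ((k + m + 1).choose k : ℂ) * (m + 1) := by
      have h3 := Nat.choose_succ_right_eq (k + m + 1) k
      rw [show k + m + 1 - k = m + 1 by omega] at h3
      exact_mod_cast h3
    simp only [Ac, Bc, Cc]
    rw [h1, show k + 1 + m = k + m + 1 by ring, show k + (m + 1) = k + m + 1 by ring,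
      Nat.factorial_succ]
    push_cast
    rw [pow_succ]
    linear_combination (-2 * (-1 : ℂ) ^ k * (k.factorial : ℂ) * ((k + m + 1).choose k : ℂ)) * h2

variable {R : Type*} [CommRing R] [Algebra ℂ R]

noncomputable def S (P : R) (f : ℕ → R) (n : ℕ) : R :=
  ∑ p ∈ antidiagonal n, algebraMap ℂ R (Ac p.1 p.2) * (P ^ p.1 * f p.2)

lemma S_zero (P : R) (f : ℕ → R) : S P f 0 = f 0 := by
  simp [S, Ac]

theorem S_step (δ : Derivation ℂ R R) (P G : R) (f : ℕ → R) (hP : δ P = P ^ 2 - G)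
    (hf : ∀ m, δ (f m) = f (m + 1)) (n : ℕ) : S P f (n + 2) =
      δ (S P f (n + 1)) - ((n : R) + 1) ^ 2 * G * S P f n - (2 * (n : R) + 3) * P * S P f (n + 1) := by
  have h1 : S P f (n + 2) = ∑ p ∈ antidiagonal (n + 2),
      algebraMap ℂ R (Bc p.1 p.2) * (P ^ p.1 * f p.2) + ∑ p ∈ antidiagonal (n + 2),
      algebraMap ℂ R (Cc p.1 p.2) * (P ^ p.1 * f p.2) := by
    rw [S, ← sum_add_distrib]
    refine sum_congr rfl fun p hp => ?_
    rw [HasAntidiagonal.mem_antidiagonal] at hp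
    rw [Ac_split p.1 p.2 (by omega), map_add]
    ring
  have h2 : ∑ p ∈ antidiagonal (n + 2), algebraMap ℂ R (Bc p.1 p.2) * (P ^ p.1 * f p.2) =
      ∑ p ∈ antidiagonal (n + 1), algebraMap ℂ R (Ac p.1 p.2) * (P ^ p.1 * f (p.2 + 1)) := by
    rw [Finset.Nat.sum_antidiagonal_succ']
    simp [Bc]
  have h3 : ∑ p ∈ antidiagonal (n + 2), algebraMap ℂ R (Cc p.1 p.2) * (P ^ p.1 * f p.2) =
      ∑ p ∈ antidiagonal (n + 1), algebraMap ℂ R (Ac p.1 p.2) *
        (((p.1 : R) - (2 * (n : R) + 3)) * (P ^ (p.1 + 1) * f p.2)) := by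
    rw [Finset.Nat.sum_antidiagonal_succ]
    have h0 : algebraMap ℂ R (Cc 0 (n + 1 + 1)) = 0 := by
      have : Cc 0 (n + 1 + 1) = 0 := rfl
      rw [this, map_zero]
    rw [h0, zero_mul, zero_add]
    refine sum_congr rfl fun p hp => ?_
    rw [HasAntidiagonal.mem_antidiagonal] at hp
    have h4 : Cc (p.1 + 1) p.2 = ((p.1 : ℂ) - (2 * (n : ℂ) + 3)) * Ac p.1 p.2 := by
      have h5 : (p.1 : ℂ) + p.2 = n + 1 := by exact_mod_cast hp
      have h6 : Cc (p.1 + 1) p.2 = -((p.1 : ℂ) + 1 + 2 * p.2) * Ac p.1 p.2 := rfl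
      rw [h6]
      linear_combination (-2 * Ac p.1 p.2) * h5
    rw [h4]
    simp only [map_mul, map_sub, map_add, map_natCast, map_ofNat]
    ring
  have h4 : δ (S P f (n + 1)) = ∑ p ∈ antidiagonal (n + 1), (algebraMap ℂ R (Ac p.1 p.2) *
      (P ^ p.1 * f (p.2 + 1)) + algebraMap ℂ R (Ac p.1 p.2) * ((p.1 : R) * (P ^ (p.1 + 1) * f p.2)) -
      algebraMap ℂ R (Ac p.1 p.2) * ((p.1 : R) * (G * (P ^ (p.1 - 1) * f p.2)))) := by
    rw [S, map_sum]
    refine sum_congr rfl fun p _ => ?_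
    rw [δ.leibniz, δ.map_algebraMap, smul_zero, add_zero, smul_eq_mul, δ.leibniz, hf,
      δ.leibniz_pow, hP, smul_eq_mul, smul_eq_mul, nsmul_eq_mul, smul_eq_mul]
    rcases p.1 with _ | k
    · simp
    · rw [Nat.add_sub_cancel]
      ring
  have h5 : ∑ p ∈ antidiagonal (n + 1), algebraMap ℂ R (Ac p.1 p.2) * ((p.1 : R) *
      (G * (P ^ (p.1 - 1) * f p.2))) = -(((n : R) + 1) ^ 2 * G * S P f n) := by
    rw [Finset.Nat.sum_antidiagonal_succ]
    simp only [Nat.cast_zero, zero_mul, mul_zero, zero_add]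
    rw [S, mul_sum, ← sum_neg_distrib]
    refine sum_congr rfl fun p hp => ?_
    rw [HasAntidiagonal.mem_antidiagonal] at hp
    rw [Nat.add_sub_cancel]
    have h6 := congrArg (algebraMap ℂ R) (Ac_step p.1 p.2)
    have h7 : (p.1 : ℂ) + p.2 = n := by exact_mod_cast hp
    rw [h7] at h6
    simp only [map_mul, map_add, map_neg, map_pow, map_natCast, map_one] at h6
    push_cast
    linear_combination (G * (P ^ p.1 * f p.2)) * h6
  have h6 : ∑ p ∈ antidiagonal (n + 1), algebraMap ℂ R (Ac p.1 p.2) *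
        (((p.1 : R) - (2 * (n : R) + 3)) * (P ^ (p.1 + 1) * f p.2)) =
      ∑ p ∈ antidiagonal (n + 1), algebraMap ℂ R (Ac p.1 p.2) * ((p.1 : R) *
        (P ^ (p.1 + 1) * f p.2)) - (2 * (n : R) + 3) * P * S P f (n + 1) := by
    rw [S, mul_sum, ← sum_sub_distrib]
    refine sum_congr rfl fun p _ => ?_
    ring
  rw [h1, h2, h3, h4, sum_sub_distrib, sum_add_distrib, h5, h6]
  abel

end comb

open H667R3 Pool.Agent.TH936.CW Pool.Agent.Y690.NV

/-! ### the Euler derivation -/

/-- the Euler derivation -/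
noncomputable def Eu : Derivation ℂ U U :=
  MvPolynomial.mkDerivation ℂ ![vE, 2 * vX, 3 * vY, 4 * vG]

lemma Eu_E : Eu vE = vE := MvPolynomial.mkDerivation_X _ _ _
lemma Eu_X : Eu vX = 2 * vX := MvPolynomial.mkDerivation_X _ _ _
lemma Eu_Y : Eu vY = 3 * vY := MvPolynomial.mkDerivation_X _ _ _
lemma Eu_G : Eu vG = 4 * vG := MvPolynomial.mkDerivation_X _ _ _

lemma Eu_two : Eu (2 : U) = 0 := D_ofNat Eu 2
lemma Eu_three : Eu (3 : U) = 0 := D_ofNat Eu 3
lemma Eu_four : Eu (4 : U) = 0 := D_ofNat Eu 4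

lemma Eu_dt (u : U) : Eu (dt u) = dt (Eu u) + 2 * dt u := by
  have h : ∀ u : U, ⁅Eu, dt⁆ u = ((2 : U) • dt) u := by
    refine ext4 ?_ ?_ ?_ ?_
    · rw [Derivation.commutator_apply, Derivation.smul_apply, Eu_E, dt_E, map_neg, map_add,
        D_mul, Eu_E, Eu_X, Eu_Y, smul_eq_mul]
      ring
    · rw [Derivation.commutator_apply, Derivation.smul_apply, dt_X, Eu_X, D_mul dt, dt_X,
        D_ofNat dt, smul_eq_mul]
      simp only [map_add, map_sub, D_mul, D_pow, Eu_two, Eu_three, Eu_four, Eu_E, Eu_X, Eu_Y, Eu_G]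
      push_cast
      ring
    · rw [Derivation.commutator_apply, Derivation.smul_apply, dt_Y, Eu_Y, D_mul dt, dt_Y,
        D_ofNat dt, smul_eq_mul]
      simp only [map_add, map_sub, D_mul, D_pow, Eu_two, Eu_three, Eu_four, Eu_E, Eu_X, Eu_Y, Eu_G]
      push_cast
      ring
    · rw [Derivation.commutator_apply, Derivation.smul_apply, dt_G, Eu_G, D_mul dt, dt_G,
        D_ofNat dt, smul_eq_mul]
      unfold vK
      simp only [map_add, map_sub, D_mul, D_pow, Eu_two, Eu_three, Eu_four, Eu_E, Eu_X, Eu_Y, Eu_G]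
      push_cast
      ring
  have h1 := h u
  rw [Derivation.commutator_apply, Derivation.smul_apply, smul_eq_mul] at h1
  linear_combination h1

lemma Eu_Dn (n : ℕ) : Eu (Dn n) = (2 * n + 1 : ℕ) * Dn n ∧
    Eu (Dn (n + 1)) = (2 * n + 3 : ℕ) * Dn (n + 1) := by
  induction n with
  | zero =>
    refine ⟨?_, ?_⟩
    · rw [Dn_zero, Eu_E]
      simp
    · rw [zero_add, Dn_one, Eu_dt, Eu_E]
      push_cast
      ring
  | succ n ih =>
    refine ⟨by rw [ih.2]; congr 2, ?_⟩
    rw [show n + 1 + 1 = n + 2 from rfl, Dn_rec, map_sub, Eu_dt, ih.2, D_natCast_mul]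
    have h1 : Eu (((n : U) + 1) ^ 2 * (vG * Dn n)) = ((n : U) + 1) ^ 2 * Eu (vG * Dn n) := by
      have h2 : (((n : U) + 1) ^ 2 : U) = (((n + 1) ^ 2 : ℕ) : U) := by push_cast; ring
      rw [h2, D_natCast_mul]
    rw [h1, D_mul, ih.1, Eu_G]
    push_cast
    ring

/-! ### the flow -/

section flow

variable {E X Y G P : Se} (W : WF E X Y G P)

/-- the substitution -/
noncomputable def phi (E X Y G : Se) : U →ₐ[ℂ] Se := MvPolynomial.aeval ![E, X, Y, G]

lemma phi_E (E X Y G : Se) : phi E X Y G vE = E := by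
  have h : phi E X Y G (MvPolynomial.X 0) = E := by unfold phi; rw [MvPolynomial.aeval_X]; rfl
  exact h
lemma phi_X (E X Y G : Se) : phi E X Y G vX = X := by
  have h : phi E X Y G (MvPolynomial.X 1) = X := by unfold phi; rw [MvPolynomial.aeval_X]; rfl
  exact h
lemma phi_Y (E X Y G : Se) : phi E X Y G vY = Y := by
  have h : phi E X Y G (MvPolynomial.X 2) = Y := by unfold phi; rw [MvPolynomial.aeval_X]; rfl
  exact h
lemma phi_G (E X Y G : Se) : phi E X Y G vG = G := by
  have h : phi E X Y G (MvPolynomial.X 3) = G := by unfold phi; rw [MvPolynomial.aeval_X]; rfl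
  exact h
lemma phi_C (E X Y G : Se) (a : ℂ) : phi E X Y G (MvPolynomial.C a) = algebraMap ℂ Se a := by
  rw [← MvPolynomial.algebraMap_eq, AlgHom.commutes]

include W in
lemma dv_phi (u : U) : dv (phi E X Y G u) = 2 * (phi E X Y G (dt u) + P * phi E X Y G (Eu u)) := by
  induction u using MvPolynomial.induction_on with
  | C a =>
    rw [phi_C, dv.map_algebraMap, D_C, D_C, map_zero]
    ring
  | add p q hp hq => rw [map_add, map_add, map_add, map_add, map_add, map_add, hp, hq]; ring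
  | mul_X p i hp =>
    have hi : dv (phi E X Y G (MvPolynomial.X i)) =
        2 * (phi E X Y G (dt (MvPolynomial.X i)) + P * phi E X Y G (Eu (MvPolynomial.X i))) := by
      fin_cases i
      · change dv (phi E X Y G vE) = 2 * (phi E X Y G (dt vE) + P * phi E X Y G (Eu vE))
        rw [phi_E, dt_E, Eu_E, W.e]
        simp only [map_neg, map_add, map_mul, phi_E, phi_X, phi_Y]
        ring
      · change dv (phi E X Y G vX) = 2 * (phi E X Y G (dt vX) + P * phi E X Y G (Eu vX))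
        rw [phi_X, dt_X, Eu_X, W.x]
        simp only [map_add, map_sub, map_mul, map_pow, map_ofNat, phi_E, phi_X, phi_Y, phi_G]
        ring
      · change dv (phi E X Y G vY) = 2 * (phi E X Y G (dt vY) + P * phi E X Y G (Eu vY))
        rw [phi_Y, dt_Y, Eu_Y, W.y]
        simp only [map_add, map_sub, map_mul, map_pow, map_ofNat, phi_E, phi_X, phi_Y, phi_G]
        ring
      · change dv (phi E X Y G vG) = 2 * (phi E X Y G (dt vG) + P * phi E X Y G (Eu vG))
        rw [phi_G, dt_G, Eu_G, W.g]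
        unfold vK
        simp only [map_sub, map_mul, map_pow, map_ofNat, phi_X, phi_Y, phi_G]
        ring
    rw [map_mul, dv.leibniz, smul_eq_mul, smul_eq_mul, hp, hi, D_mul, D_mul]
    simp only [map_add, map_mul]
    ring

/-- half of the derivative -/
noncomputable def del : Derivation ℂ Se Se := (1 / 2 : ℂ) • dv

lemma del_apply (f : Se) : del f = (1 / 2 : ℂ) • dv f := rfl

lemma half_two (f : Se) : (1 / 2 : ℂ) • (2 * f) = f := by
  rw [Algebra.smul_def]
  have h : algebraMap ℂ Se (1 / 2) * 2 = 1 := by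
    have h2 : (2 : Se) = algebraMap ℂ Se 2 := (map_ofNat _ 2).symm
    rw [h2, ← map_mul]
    norm_num
  rw [← mul_assoc, h, one_mul]

/-- the iterated derivatives -/
noncomputable def ff (E : Se) (j : ℕ) : Se := ((1 / 2 : ℂ) ^ j) • (⇑dv)^[j] E

lemma del_ff (E : Se) (m : ℕ) : del (ff E m) = ff E (m + 1) := by
  unfold ff
  rw [del_apply, dv.map_smul, smul_smul, ← pow_succ', Function.iterate_succ_apply']

include W in
theorem phi_Dn (n : ℕ) : phi E X Y G (Dn n) = S P (ff E) n ∧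
    phi E X Y G (Dn (n + 1)) = S P (ff E) (n + 1) := by
  have hP : del P = P ^ 2 - G := by
    rw [del_apply, W.p, half_two]
  induction n with
  | zero =>
    have h0 : phi E X Y G (Dn 0) = S P (ff E) 0 := by
      rw [Dn_zero, phi_E, S_zero]
      simp [ff]
    refine ⟨h0, ?_⟩
    rw [zero_add, Dn_one]
    have h1 : S P (ff E) 1 = ff E 1 - P * ff E 0 := by
      simp [S, Ac, Finset.Nat.antidiagonal_succ]
      ring
    have h2 := dv_phi W vE
    rw [phi_E, Eu_E, phi_E] at h2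
    have h3 : ff E 1 = phi E X Y G (dt vE) + P * E := by
      unfold ff
      rw [pow_one, Function.iterate_one, h2, half_two]
    have h4 : ff E 0 = E := by simp [ff]
    rw [h1, h3, h4]
    ring
  | succ n ih =>
    refine ⟨ih.2, ?_⟩
    rw [show n + 1 + 1 = n + 2 from rfl, S_step del P G (ff E) hP (del_ff E), ← ih.1, ← ih.2, Dn_rec]
    have h2 := dv_phi W (Dn (n + 1))
    rw [(Eu_Dn n).2] at h2
    have h3 : del (phi E X Y G (Dn (n + 1))) = phi E X Y G (dt (Dn (n + 1))) +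
        P * phi E X Y G ((2 * n + 3 : ℕ) * Dn (n + 1)) := by
      rw [del_apply, h2, half_two]
    rw [h3]
    simp only [map_add, map_sub, map_mul, map_pow, map_natCast, map_one, phi_G]
    push_cast
    ring

end flow

lemma co_add (n : ℕ) (f g : Se) : co n (f + g) = co n f + co n g := map_add (PowerSeries.coeff n) f g
lemma co_smul (n : ℕ) (a : ℂ) (f : Se) : co n (a • f) = a * co n f := by
  change PowerSeries.coeff n (a • f) = a * PowerSeries.coeff n f
  simp
lemma co_mul (f g : Se) : co 0 (f * g) = co 0 f * co 0 g := by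
  change PowerSeries.coeff 0 (f * g) = PowerSeries.coeff 0 f * PowerSeries.coeff 0 g
  simp
lemma co_pow (f : Se) (k : ℕ) : co 0 (f ^ k) = co 0 f ^ k := by
  induction k with
  | zero =>
    rw [pow_zero, pow_zero]
    change PowerSeries.coeff 0 (1 : Se) = 1
    simp
  | succ k ih => rw [pow_succ, co_mul, ih, pow_succ]
lemma co_algebraMap (a : ℂ) : co 0 (algebraMap ℂ Se a) = a := by
  change PowerSeries.coeff 0 (PowerSeries.C a) = a
  simp
lemma co_sum {ι : Type} (s : Finset ι) (f : ι → Se) (n : ℕ) : co n (∑ i ∈ s, f i) = ∑ i ∈ s, co n (f i) :=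
  map_sum (PowerSeries.coeff n) f s
lemma co_dv (f : Se) (n : ℕ) : co n (dv f) = co (n + 1) f * (n + 1) :=
  PowerSeries.coeff_derivative f n

lemma co_iter (f : Se) (j : ℕ) : ∀ i : ℕ, co i ((⇑dv)^[j] f) * (i.factorial : ℂ) =
    ((i + j).factorial : ℂ) * co (i + j) f := by
  induction j generalizing f with
  | zero => intro i; simp [mul_comm]
  | succ j ih =>
    intro i
    rw [Function.iterate_succ_apply, ih (dv f) i, co_dv,
      show i + (j + 1) = i + j + 1 by ring, Nat.factorial_succ (i + j)]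
    push_cast
    ring

lemma co_ff (E : Se) (j : ℕ) : (2 : ℂ) ^ j * co 0 (ff E j) = (j.factorial : ℂ) * co j E := by
  have h := co_iter E j 0
  rw [Nat.factorial_zero, Nat.cast_one, mul_one, zero_add] at h
  unfold ff
  rw [co_smul, h, ← mul_assoc, ← mul_pow]
  norm_num

lemma co_phi {L : PeriodPair} {q z : ℂ} {E X Y G : Se} (h1 : co 0 E = E1 L 0 q z)
    (h2 : co 0 X = ℘[L] z) (h3 : co 0 Y = ℘'[L] z / 2) (h4 : co 0 G = L.g₂ / 12) (u : U) :
    co 0 (phi E X Y G u) = evU L q ((starRingEnd ℂ) z) z u := by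
  induction u using MvPolynomial.induction_on with
  | C a =>
    rw [phi_C, ← MvPolynomial.algebraMap_eq, AlgHom.commutes, co_algebraMap]
    rfl
  | add p q hp hq => rw [map_add, map_add, co_add, hp, hq]
  | mul_X p i hp =>
    rw [map_mul, map_mul, co_mul, hp]
    congr 1
    fin_cases i
    · change co 0 (phi E X Y G vE) = evU L q _ z vE
      rw [phi_E, evU_E, h1]
      rfl
    · change co 0 (phi E X Y G vX) = evU L q _ z vX
      rw [phi_X, evU_X, h2]
    · change co 0 (phi E X Y G vY) = evU L q _ z vY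
      rw [phi_Y, evU_Y, h3]
    · change co 0 (phi E X Y G vG) = evU L q _ z vG
      rw [phi_G, evU_G, h4]

end AlgaL

open AlgaL H667R3 Pool.Agent.TH936.CW Pool.Agent.Y690.NV

theorem alga : S_ALGA := by
  intro L q z hz E X Y G P W h1 h2 h3 h4 n
  have h5 := congrArg (co 0) (phi_Dn W n).1
  rw [co_phi h1 h2 h3 h4, ← ek_eq n hz] at h5
  have h6 : co 0 (S P (ff E) n) = ∑ p ∈ Finset.HasAntidiagonal.antidiagonal n,
      Ac p.1 p.2 * (co 0 P ^ p.1 * co 0 (ff E p.2)) := by
    unfold S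
    rw [co_sum]
    refine Finset.sum_congr rfl fun p _ => ?_
    rw [co_mul, co_mul, co_pow, co_algebraMap]
  have h7 : (2 : ℂ) ^ n * ((n.factorial : ℂ) * ek L 0 q n z) = (n.factorial : ℂ) *
      ∑ p ∈ Finset.HasAntidiagonal.antidiagonal n,
        (n.choose p.2 : ℂ) * (-(2 * co 0 P)) ^ p.1 * co p.2 E := by
    rw [h5, h6, Finset.mul_sum, Finset.mul_sum]
    refine Finset.sum_congr rfl fun p hpn => ?_
    rw [Finset.HasAntidiagonal.mem_antidiagonal] at hpn
    have h8 := co_ff E p.2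
    have h9 : (2 : ℂ) ^ n = 2 ^ p.1 * 2 ^ p.2 := by rw [← hpn, pow_add]
    have h10 : (n.choose p.2 : ℂ) * (p.1.factorial : ℂ) * (p.2.factorial : ℂ) =
        (n.factorial : ℂ) := by
      have h11 := Nat.add_choose_mul_factorial_mul_factorial p.1 p.2
      rw [hpn] at h11
      have h12 := congrArg (Nat.cast : ℕ → ℂ) h11
      push_cast at h12
      linear_combination h12
    have h13 : ((p.1 + p.2).choose p.1 : ℂ) = (n.choose p.2 : ℂ) := by
      rw [hpn, Nat.choose_symm_of_eq_add hpn.symm]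
    unfold Ac
    rw [h13, h9]
    have h14 : (-(2 * co 0 P)) ^ p.1 = (-1) ^ p.1 * 2 ^ p.1 * co 0 P ^ p.1 := by
      rw [← mul_pow, ← mul_pow]
      ring
    rw [h14]
    linear_combination ((-1 : ℂ) ^ p.1 * 2 ^ p.1 * co 0 P ^ p.1 * (n.choose p.2 : ℂ) ^ 2 *
      (p.1.factorial : ℂ)) * h8 + ((-1 : ℂ) ^ p.1 * 2 ^ p.1 * co 0 P ^ p.1 *
      (n.choose p.2 : ℂ) * co p.2 E) * h10
  have hn : (n.factorial : ℂ) ≠ 0 := by exact_mod_cast n.factorial_ne_zero
  have h8 : 2 ^ n * ek L 0 q n z = ∑ p ∈ Finset.HasAntidiagonal.antidiagonal n,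
        (n.choose p.2 : ℂ) * (-(2 * co 0 P)) ^ p.1 * co p.2 E := by
    refine mul_left_cancel₀ hn ?_
    rw [← h7]
    ring
  rw [h8, ← Finset.Nat.sum_antidiagonal_swap]
  exact Finset.Nat.sum_antidiagonal_eq_sum_range_succ
    (fun j k => (n.choose j : ℂ) * (-(2 * co 0 P)) ^ k * co j E) n

end Pool.Agent.Helper26K9.QA
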