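import Pool.Agent.Helper26K9.QA.Stm

/-!
# Quartic twists, all weights: comparison of two odd systems of values
-/

set_option autoImplicit false
set_option linter.unusedSectionVars false
set_option linter.unusedVariables false

namespace Pool.Agent.Helper26K9.QA

open H667R3 Pool.Agent.TH936.CW Pool.Agent.Y690.NV Pool.Agent.Y690.AW Pool.Agent.W192.HK
open Pool.Agent.TH936.CM (IsLat out_sub)
open Pool.Agent.Helper26K9.XO Pool.Agent.Helper26K9.QT
open Complex (I)

namespace CmpL

variable {R : Subring ℂ} {x : R → R → ℂ} {Γ : Type} [hΓ : LinearOrderedCommGroupWithZero Γ]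
  {v : Valuation ℂ Γ}

lemma cx_neg {V : Finset R} (h : ∀ p ∈ V, XC x p) (r : R) :
    cx x V (-r) = cx x V (-1) * cx x V r := by
  rw [← cx_mul h, neg_one_mul]

lemma cx_sign {V : Finset R} (h : ∀ p ∈ V, XC x p) : cx x V (-1) = 1 ∨ cx x V (-1) = -1 := by
  have h1 : cx x V (-1) * cx x V (-1) = 1 := by
    rw [← cx_mul h, neg_mul_neg, one_mul, cx_one h]
  exact mul_self_eq_one_iff.mp h1

/-- the even sums of an odd system vanish -/
lemma TX_even (hR : ∀ z : ℂ, z ∈ R ↔ ∃ x y : ℤ, z = x + y * I) {G : R → R → ℂ} {c : R → ℂ}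
    (h : DS G c) (hodd : ∀ D r : R, Pri D → G D (-r) = -G D r) {V : Finset R}
    (hV : ∀ p ∈ V, XC x p) (he : cx x V (-1) = 1) : TX x G V = 0 := by
  have hod := dd_od' hR hV
  have := h.fin _ hod
  have := Fintype.ofFinite (R ⧸ sp (dd V))
  unfold TX Ts
  rw [rs_eq]
  have h1 : ∀ w : R ⧸ sp (dd V), cx x V (-w).out * G (dd V) (-w).out =
      -(cx x V w.out * G (dd V) w.out) := by
    intro w
    rw [cx_per hV (neg_out w), h.per _ _ _ hod (neg_out w), cx_neg hV, he, hodd _ _ hod]
    ring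
  have h2 : ∑ w : R ⧸ sp (dd V), cx x V w.out * G (dd V) w.out =
      -∑ w : R ⧸ sp (dd V), cx x V w.out * G (dd V) w.out := by
    conv_lhs => rw [← Equiv.sum_comp (Equiv.neg (R ⧸ sp (dd V)))]
    rw [← Finset.sum_neg_distrib]
    exact Finset.sum_congr rfl fun w _ => h1 w
  linear_combination h2 / 2

/-- products of close factors are close -/
lemma tele {g : Γ} (hg : 0 < g) {ι : Type*} (W : Finset ι) (a b : ι → ℂ)
    (ha : ∀ i ∈ W, v (a i) ≤ g) (hb : ∀ i ∈ W, v (b i) ≤ g)
    (hab : ∀ i ∈ W, v (a i - b i) < g) :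
    v (∏ i ∈ W, a i) ≤ g ^ W.card ∧ v (∏ i ∈ W, a i - ∏ i ∈ W, b i) < g ^ W.card := by
  classical
  induction W using Finset.induction_on with
  | empty => simp
  | insert i s hi ih =>
    obtain ⟨h1, h3⟩ := ih (fun j hj => ha j (Finset.mem_insert_of_mem hj))
      (fun j hj => hb j (Finset.mem_insert_of_mem hj))
      (fun j hj => hab j (Finset.mem_insert_of_mem hj))
    have a1 := ha i (Finset.mem_insert_self _ _)
    have b1 := hb i (Finset.mem_insert_self _ _)
    have c1 := hab i (Finset.mem_insert_self _ _)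
    rw [Finset.prod_insert hi, Finset.prod_insert hi, Finset.card_insert_of_notMem hi, pow_succ',
      map_mul]
    refine ⟨mul_le_mul' a1 h1, ?_⟩
    have e : a i * ∏ j ∈ s, a j - b i * ∏ j ∈ s, b j =
        (a i - b i) * ∏ j ∈ s, a j + b i * (∏ j ∈ s, a j - ∏ j ∈ s, b j) := by ring
    rw [e]
    have hgp : 0 < g ^ s.card := pow_pos hg _
    refine (v.map_add _ _).trans_lt (max_lt ?_ ?_)
    · rw [map_mul]
      exact (mul_le_mul_right h1 _).trans_lt (mul_lt_mul_of_pos_right c1 hgp)
    · rw [map_mul]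
      exact (mul_le_mul_left b1 _).trans_lt (mul_lt_mul_of_pos_left h3 hg)

/-- the right side -/
lemma rhsD (hR : ∀ z : ℂ, z ∈ R ↔ ∃ x y : ℤ, z = x + y * I) {ρ : ℂ} (hρ : ρ ^ 4 = 2)
    (hr : v ρ < 1) (sm : S_SM) (kb : S_KB) (hbasic : H_BASIC) {G G' : R → R → ℂ} {c c' : R → ℂ}
    (h : DS G c) (h' : DS G' c') (ho : ∀ D r : R, Pri D → G D (-r) = -G D r)
    (ho' : ∀ D r : R, Pri D → G' D (-r) = -G' D r) {n : ℂ} (hn : v n ≤ 1)
    (hF : ∀ D r : R, Pri D → r ∉ sp D → v (ρ ^ 2 * (G D r - G' D r) - n) < 1)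
    {U : Finset R} (hU : ∀ p ∈ U, Prime p ∧ XC x p) (hd : Dst U) (hne : U.Nonempty) :
    v (Ts G (dd U) (kx x U) - Ts G' (dd U) (kx x U)) < v (1 + I) ^ U.card := by
  have h2 := two_lt hρ hr
  have hp := rho_pos (v := v) hρ
  have hXC : ∀ p ∈ U, XC x p := fun p hp => (hU p hp).2
  have hod := dd_od' hR hXC
  have := h.fin _ hod
  have := Fintype.ofFinite (R ⧸ sp (dd U))
  have hla := v_rho_sq (v := v) hρ hr
  have hρ0 := rho_ne hρ
  have hvg : v (1 + I) ^ U.card = v ρ ^ (2 * U.card) := by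
    rw [← hla, ← pow_mul]
  have hcard : 1 ≤ U.card := hne.card_pos
  have e1 : Ts G (dd U) (kx x U) - Ts G' (dd U) (kx x U) = n / ρ ^ 2 * rs (dd U) (kx x U) +
      ∑ w : R ⧸ sp (dd U), kx x U w.out * (G (dd U) w.out - G' (dd U) w.out - n / ρ ^ 2) := by
    unfold Ts
    rw [rs_eq, rs_eq, rs_eq, Finset.mul_sum, ← Finset.sum_add_distrib, ← Finset.sum_sub_distrib]
    refine Finset.sum_congr rfl fun w _ => ?_
    ring
  rw [e1]
  refine (v.map_add _ _).trans_lt (max_lt ?_ ?_)
  · rw [sm R hR hbasic x U hU hd, map_mul, map_prod, hvg, map_div₀, map_pow]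
    have h3 : ∏ p ∈ U, v ((Nat.card (R ⧸ sp p) : ℂ) - 1) ≤ v ρ ^ (8 * U.card) := by
      calc ∏ p ∈ U, v ((Nat.card (R ⧸ sp p) : ℂ) - 1) ≤ ∏ _p ∈ U, v ρ ^ 8 := by
            refine Finset.prod_le_prod' fun p hpW => ?_
            have h3 := (card_par (v := v) hR hbasic (hXC p hpW).od).le
            rwa [map_mul, v_two hρ, ← pow_add] at h3
        _ = v ρ ^ (8 * U.card) := by rw [Finset.prod_const, ← pow_mul]
    have h4 : v ρ ^ (8 * U.card) = v ρ ^ 2 * v ρ ^ (8 * U.card - 2) := by
      rw [← pow_add]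
      congr 1
      omega
    have h5 : v n / v ρ ^ 2 ≤ (v ρ ^ 2)⁻¹ := by
      rw [div_eq_mul_inv]
      calc v n * (v ρ ^ 2)⁻¹ ≤ 1 * (v ρ ^ 2)⁻¹ := mul_le_mul_left hn _
        _ = _ := one_mul _
    calc v n / v ρ ^ 2 * ∏ p ∈ U, v ((Nat.card (R ⧸ sp p) : ℂ) - 1)
        ≤ (v ρ ^ 2)⁻¹ * v ρ ^ (8 * U.card) := mul_le_mul' h5 h3
      _ = v ρ ^ (8 * U.card - 2) := by
          rw [h4, ← mul_assoc, inv_mul_cancel₀ (pow_pos hp 2).ne', one_mul]
      _ < v ρ ^ (2 * U.card) := lt_pow hρ hr (by omega)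
  · have hpos : 0 < v (1 + I) ^ U.card := pow_pos v_la_pos _
    refine pairs_lt (v := v) (fun w : R ⧸ sp (dd U) => kx x U w.out *
      (G (dd U) w.out - G' (dd U) w.out - n / ρ ^ 2)) hpos (fun w hw => ?_) (fun w => ?_)
    · obtain ⟨p, hp⟩ := hne
      have h3 : w.out ∈ sp (dd U) := by
        rw [Pri.two_cancel hR hod w hw]
        exact zero_out
      rw [kx_zero hXC hp (mem_dd hp h3), zero_mul]
    · rw [kx_per hXC (neg_out w), h.per _ _ _ hod (neg_out w), h'.per _ _ _ hod (neg_out w),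
        ho _ _ hod, ho' _ _ hod]
      by_cases hw : w.out ∈ sp (dd U)
      · obtain ⟨p, hp⟩ := hne
        rw [kx_zero hXC hp (mem_dd hp hw), kx_zero hXC hp (mem_dd hp ((sp (dd U)).neg_mem hw)),
          zero_mul, zero_mul, add_zero, map_zero]
        exact hpos
      · obtain ⟨k1, k2⟩ := kb R x U hXC Γ hΓ v h2 w.out
        obtain ⟨k3, -⟩ := kb R x U hXC Γ hΓ v h2 (-w.out)
        have g1 := hF (dd U) w.out hod hw
        have e2 : kx x U w.out * (G (dd U) w.out - G' (dd U) w.out - n / ρ ^ 2) +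
            kx x U (-w.out) * (-G (dd U) w.out - -G' (dd U) w.out - n / ρ ^ 2) =
            (kx x U w.out - kx x U (-w.out)) *
              (G (dd U) w.out - G' (dd U) w.out - n / ρ ^ 2) +
            -(2 * kx x U (-w.out) * (n / ρ ^ 2)) := by ring
        rw [e2]
        refine (v.map_add _ _).trans_lt (max_lt ?_ ?_)
        · have e3 : ρ ^ 2 * (G (dd U) w.out - G' (dd U) w.out - n / ρ ^ 2) =
              ρ ^ 2 * (G (dd U) w.out - G' (dd U) w.out) - n := by
            field_simp
          rw [map_mul]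
          calc v (kx x U w.out - kx x U (-w.out)) *
                v (G (dd U) w.out - G' (dd U) w.out - n / ρ ^ 2)
              ≤ v (1 + I) ^ (U.card + 1) *
                v (G (dd U) w.out - G' (dd U) w.out - n / ρ ^ 2) := mul_le_mul_left k2 _
            _ = v (1 + I) ^ U.card *
                v (ρ ^ 2 * (G (dd U) w.out - G' (dd U) w.out - n / ρ ^ 2)) := by
                rw [pow_succ, map_mul v (ρ ^ 2), map_pow v ρ, hla, mul_assoc]
            _ < v (1 + I) ^ U.card * 1 := by
                rw [e3]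
                exact mul_lt_mul_of_pos_left g1 hpos
            _ = _ := mul_one _
        · have e3 : 2 * kx x U (-w.out) * (n / ρ ^ 2) = ρ ^ 2 * (kx x U (-w.out) * n) := by
            rw [← hρ]
            field_simp
          rw [Valuation.map_neg, e3, map_mul, map_mul, map_pow, hla]
          calc v (1 + I) * (v (kx x U (-w.out)) * v n)
              ≤ v (1 + I) * (v (1 + I) ^ U.card * 1) := mul_le_mul_right (mul_le_mul' k3 hn) _
            _ = v (1 + I) * v (1 + I) ^ U.card := by rw [mul_one]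
            _ < 1 * v (1 + I) ^ U.card := mul_lt_mul_of_pos_right (v_la h2) hpos
            _ = _ := one_mul _

end CmpL

open CmpL

open Classical in
/-- **[CMP]** -/
theorem cmp : S_CMP := by
  intro sv sm kb hbasic R hR x S hS hd G G' c c' h h' ho ho' Γ hΓ v ρ hρ hr hc hn hT U
  obtain ⟨n, hn, hF⟩ := hn
  have h2 := two_lt hρ hr
  have hp := rho_pos (v := v) hρ
  have hla := v_rho_sq (v := v) hρ hr
  have hpos : 0 < v (1 + I) := v_la_pos
  have h6 : v ρ ^ 6 < v (1 + I) := by
    rw [← hla]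
    exact lt_pow hρ hr (by omega)
  induction U using Finset.strongInduction with
  | _ U ih =>
    intro hU hodd
    have hUQ : ∀ p ∈ U, XC x p := fun p hp => (hS p (hU hp)).2
    have hUd : Dst U := fun p hp s hs => hd p (hU hp) s (hU hs)
    have hne : U.Nonempty := by
      rw [Finset.nonempty_iff_ne_empty]
      rintro rfl
      rw [cx_empty] at hodd
      norm_num at hodd
    have hmem : U ∈ U.powerset := Finset.mem_powerset.mpr (Finset.Subset.refl U)
    have s1 := sv R hR G c h x U hUQ hUd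
    have s2 := sv R hR G' c' h' x U hUQ hUd
    have hrhs := rhsD (x := x) hR hρ hr sm kb hbasic h h' ho ho' hn hF
      (fun p hp => hS p (hU hp)) hUd hne
    rw [s1, s2, ← Finset.sum_sub_distrib, ← Finset.add_sum_erase _ _ hmem] at hrhs
    have e1 : (∏ p ∈ U \ U, (c p - cx x U p)) * TX x G U -
        (∏ p ∈ U \ U, (c' p - cx x U p)) * TX x G' U = TX x G U - TX x G' U := by
      rw [Finset.sdiff_self, Finset.prod_empty, Finset.prod_empty, one_mul, one_mul]
    rw [e1] at hrhs
    have hsum : v (∑ V ∈ U.powerset.erase U, ((∏ p ∈ U \ V, (c p - cx x V p)) * TX x G V -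
        (∏ p ∈ U \ V, (c' p - cx x V p)) * TX x G' V)) < v (1 + I) ^ U.card := by
      refine Valuation.map_sum_lt v (pow_pos hpos _).ne' fun V hV => ?_
      rw [Finset.mem_erase, Finset.mem_powerset] at hV
      have hlt : V ⊂ U := ⟨hV.2, fun h6 => hV.1 (Finset.Subset.antisymm hV.2 h6)⟩
      have hVQ : ∀ p ∈ V, XC x p := fun p hp => hUQ p (hV.2 hp)
      rcases cx_sign hVQ with he | he
      · rw [TX_even hR h ho hVQ he, TX_even hR h' ho' hVQ he, mul_zero, mul_zero, sub_zero,
          map_zero]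
        exact pow_pos hpos _
      · have i1 := ih V hlt (hV.2.trans hU) he
        have i2 := hT V (hV.2.trans hU) he
        have hcx : ∀ p ∈ U \ V, v (1 - cx x V p) ≤ v (1 + I) := by
          intro p hp
          rw [Finset.mem_sdiff] at hp
          exact (cx_par (v := v) h2 hVQ (r := p) (fun l hl =>
            hUd p hp.1 l (hV.2 hl) fun hpl => hp.2 (hpl ▸ hl))).1.le
        obtain ⟨t1, t2⟩ := tele (v := v) hpos (U \ V) (fun p => c p - cx x V p)
          (fun p => c' p - cx x V p)
          (fun p hp => by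
            have e : c p - cx x V p = (1 - cx x V p) + (c p - 1) := by ring
            rw [e]
            exact (v.map_add _ _).trans (max_le (hcx p hp)
              ((hc p (hU (Finset.mem_sdiff.mp hp).1)).1.trans h6.le)))
          (fun p hp => by
            have e : c' p - cx x V p = (1 - cx x V p) + (c' p - 1) := by ring
            rw [e]
            exact (v.map_add _ _).trans (max_le (hcx p hp)
              ((hc p (hU (Finset.mem_sdiff.mp hp).1)).2.trans h6.le)))
          (fun p hp => by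
            have e : c p - cx x V p - (c' p - cx x V p) = (c p - 1) - (c' p - 1) := by ring
            rw [e]
            exact (v.map_sub _ _).trans_lt (max_lt
              ((hc p (hU (Finset.mem_sdiff.mp hp).1)).1.trans_lt h6)
              ((hc p (hU (Finset.mem_sdiff.mp hp).1)).2.trans_lt h6)))
        have hcd : v (1 + I) ^ (U \ V).card * v (1 + I) ^ V.card = v (1 + I) ^ U.card := by
          rw [← pow_add, Finset.card_sdiff_add_card_eq_card hV.2]
        have e2 : (∏ p ∈ U \ V, (c p - cx x V p)) * TX x G V -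
            (∏ p ∈ U \ V, (c' p - cx x V p)) * TX x G' V =
            (∏ p ∈ U \ V, (c p - cx x V p)) * (TX x G V - TX x G' V) +
            (∏ p ∈ U \ V, (c p - cx x V p) - ∏ p ∈ U \ V, (c' p - cx x V p)) * TX x G' V := by
          ring
        rw [e2, ← hcd]
        refine (v.map_add _ _).trans_lt (max_lt ?_ ?_)
        · rw [map_mul]
          exact (mul_le_mul_left t1 _).trans_lt (mul_lt_mul_of_pos_left i1 (pow_pos hpos _))
        · rw [map_mul]
          exact (mul_le_mul_right i2 _).trans_lt (mul_lt_mul_of_pos_right t2 (pow_pos hpos _))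
    have e3 : TX x G U - TX x G' U = (TX x G U - TX x G' U +
        ∑ V ∈ U.powerset.erase U, ((∏ p ∈ U \ V, (c p - cx x V p)) * TX x G V -
          (∏ p ∈ U \ V, (c' p - cx x V p)) * TX x G' V)) -
        ∑ V ∈ U.powerset.erase U, ((∏ p ∈ U \ V, (c p - cx x V p)) * TX x G V -
          (∏ p ∈ U \ V, (c' p - cx x V p)) * TX x G' V) := by ring
    rw [e3]
    exact (v.map_sub _ _).trans_lt (max_lt hrhs hsum)

end Pool.Agent.Helper26K9.QA
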