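import Pool.Agent.Helper26K9.QA.Stm

/-!
# QA: the polynomial leaves LIN, REL, REP, WFQ, WFT, ADDW
-/

set_option autoImplicit false
set_option linter.unusedVariables false

namespace Pool.Agent.Helper26K9.QA

theorem lin : S_LIN := by
  intro c f hf h0
  ext n
  rw [map_zero]
  induction n using Nat.strong_induction_on with
  | _ n ih =>
    rcases n with _ | k
    · exact h0
    · have h := congrArg (PowerSeries.coeff k) hf
      have h1 : PowerSeries.coeff k (c * f) = 0 := by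
        rw [PowerSeries.coeff_mul]
        refine Finset.sum_eq_zero fun p hp => ?_
        rw [ih p.2 (by have := Finset.HasAntidiagonal.mem_antidiagonal.mp hp; omega), mul_zero]
      rw [h1] at h
      have h2 : PowerSeries.coeff k (PowerSeries.derivative ℂ f) = PowerSeries.coeff (k + 1) f * (k + 1) :=
        PowerSeries.coeff_derivative _ _
      rw [h2] at h
      have h3 : ((k : ℂ) + 1) ≠ 0 := by exact_mod_cast Nat.succ_ne_zero k
      exact (mul_eq_zero.mp h).resolve_right h3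

namespace FlowL

theorem dv2 : dv (2 : Se) = 0 := by
  have : (2 : Se) = ((2 : ℕ) : Se) := by norm_num
  rw [this]
  exact Derivation.map_natCast dv 2

theorem dv_pow2 (f : Se) : dv (f ^ 2) = 2 * f * dv f := by
  rw [pow_two, Derivation.leibniz]
  simp only [smul_eq_mul]
  ring

theorem dv_pow3 (f : Se) : dv (f ^ 3) = 3 * f ^ 2 * dv f := by
  rw [show f ^ 3 = f * (f * f) by ring, Derivation.leibniz, Derivation.leibniz]
  simp only [smul_eq_mul]
  ring

theorem dv_mul (f g : Se) : dv (f * g) = dv f * g + f * dv g := by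
  rw [Derivation.leibniz]
  simp only [smul_eq_mul]
  ring

theorem dv_num (n : ℕ) : dv (n : Se) = 0 := Derivation.map_natCast dv n

end FlowL

open FlowL

theorem rel : S_LIN → S_REL := by
  intro hL a1 a2 a3 a4 a6 t u F h1 h2
  have e1 : 2 * t - a1 - a3 * u = 0 := by
    refine hL 0 _ ?_ h1
    rw [map_sub, map_sub, dv_mul, dv_mul, dv2, F.d1, F.d3, F.dt, F.du]
    ring
  have e2 : u * t ^ 2 + 1 + a2 * u + a4 * u ^ 2 + a6 * u ^ 3 = 0 := by
    refine hL (2 * a1 ^ 2 - 6 * a1 * t - 4 * a2 - 6 * a4 * u) _ ?_ h2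
    have ea : a1 = 2 * t - a3 * u := by linear_combination -e1
    simp only [map_add, dv_mul, dv_pow2, dv_pow3, F.d2, F.d4, F.d6, F.dt, F.du, Derivation.map_one_eq_zero]
    rw [ea]
    ring
  exact ⟨by linear_combination e1, e2⟩

theorem rep : S_LIN → S_REP := by
  intro hL a1 a2 a3 a4 a6 t u x Y g F Q h
  have e : a6 - (Y ^ 2 + a1 * x * Y + a3 * Y - x ^ 3 - a2 * x ^ 2 - a4 * x) = 0 := by
    refine hL (2 * (a1 ^ 2 + 4 * a2 + 6 * x)) _ ?_ h
    simp only [map_add, map_sub, dv_mul, dv_pow2, dv_pow3, F.d1, F.d2, F.d3, F.d4, F.d6, Q.dx, Q.dy]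
    ring
  linear_combination e

namespace FlowL

theorem dv_of (n : ℕ) (f g : Se) (h : (n : Se) * f = g) : (n : Se) * dv f = dv g := by
  rw [← h, dv_mul, dv_num]
  ring

theorem ofNat_ne (n : ℕ) (hn : n ≠ 0) : ((n : ℕ) : Se) ≠ 0 := by
  intro h
  have h1 := congrArg (PowerSeries.coeff 0) h
  rw [map_zero] at h1
  have h2 : PowerSeries.coeff 0 ((n : ℕ) : Se) = (n : ℂ) := by
    rw [← map_natCast (PowerSeries.C (R := ℂ)) n, PowerSeries.coeff_zero_C]
  rw [h2] at h1
  exact hn (by exact_mod_cast h1)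

theorem ex_mul (n : ℕ) (hn : n ≠ 0) (f : Se) : ∃ h : Se, f = (n : Se) * h := by
  refine ⟨PowerSeries.C ((n : ℂ)⁻¹) * f, ?_⟩
  rw [← mul_assoc, ← map_natCast (PowerSeries.C (R := ℂ)) n, ← map_mul,
    mul_inv_cancel₀ (by exact_mod_cast hn), map_one, one_mul]

/-- integral coordinates -/

theorem coords (a1 a2 a3 a4 a6 t u : Se) (F : Fr a1 a2 a3 a4 a6 t u) : ∃ α β γ δ : Se,
    a1 = 2 * α ∧ a2 = 3 * β - α ^ 2 ∧ a3 = 2 * γ ∧ a4 = 3 * δ - 2 * α * γ ∧
    dv α = 2 * γ ∧ dv β = 2 * δ ∧ dv γ = 0 ∧ dv δ = 4 * (γ ^ 2 + a6) ∧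
    dv a6 = 2 * (12 * β * a6 + 12 * β * γ ^ 2 - 9 * δ ^ 2) := by
  have n2 : (2 : Se) ≠ 0 := by simpa using ofNat_ne 2 (by norm_num)
  have n3 : (3 : Se) ≠ 0 := by simpa using ofNat_ne 3 (by norm_num)
  obtain ⟨α, hα⟩ := ex_mul 2 (by norm_num) a1
  obtain ⟨γ, hγ⟩ := ex_mul 2 (by norm_num) a3
  obtain ⟨β, hβ⟩ := ex_mul 3 (by norm_num) (a2 + α ^ 2)
  obtain ⟨δ, hδ⟩ := ex_mul 3 (by norm_num) (a4 + 2 * α * γ)
  push_cast at hα hγ hβ hδ
  have d3 : dv (3 : Se) = 0 := by simpa using dv_num 3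
  have dα : dv α = 2 * γ := by
    refine mul_left_cancel₀ n2 ?_
    have h := congrArg dv hα
    rw [dv_mul, dv2, F.d1] at h
    linear_combination -h + 2 * hγ
  have dγ : dv γ = 0 := by
    refine mul_left_cancel₀ n2 ?_
    have h := congrArg dv hγ
    rw [dv_mul, dv2, F.d3] at h
    linear_combination -h
  have dβ : dv β = 2 * δ := by
    refine mul_left_cancel₀ n3 ?_
    have h := congrArg dv hβ
    rw [map_add, dv_mul, d3, F.d2, dv_pow2, dα] at h
    linear_combination -h + 2 * hδ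
  have dδ : dv δ = 4 * (γ ^ 2 + a6) := by
    refine mul_left_cancel₀ n3 ?_
    have h := congrArg dv hδ
    rw [map_add, dv_mul, dv_mul, dv_mul, d3, dv2, F.d4, dα, dγ] at h
    linear_combination -h + 2 * (a3 + 2 * γ) * hγ
  refine ⟨α, β, γ, δ, hα, by linear_combination hβ, hγ, by linear_combination hδ, dα, dβ, dγ, dδ, ?_⟩
  have e2 : a2 = 3 * β - α ^ 2 := by linear_combination hβ
  have e4 : a4 = 3 * δ - 2 * α * γ := by linear_combination hδ
  rw [F.d6, hα, hγ, e2, e4]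
  ring

end FlowL

open FlowL

theorem wfq : S_WFQ := by
  intro a1 a2 a3 a4 a6 t u x Y g E X W G P F Q h6 hE hX hW hG hP
  have n2 : (2 : Se) ≠ 0 := by simpa using ofNat_ne 2 (by norm_num)
  have n12 : (12 : Se) ≠ 0 := by simpa using ofNat_ne 12 (by norm_num)
  have n144 : (144 : Se) ≠ 0 := by simpa using ofNat_ne 144 (by norm_num)
  obtain ⟨α, β, γ, δ, hα, hβ, hγ, hδ, dα, dβ, dγ, dδ, d6⟩ := coords a1 a2 a3 a4 a6 t u F
  have dx := Q.dx
  have dy := Q.dy
  have dg := Q.dg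
  clear F Q
  subst hα hγ hβ hδ
  have eE : E = g - α := mul_left_cancel₀ n2 (by linear_combination hE)
  have eP : P = β := mul_left_cancel₀ n12 (by linear_combination hP)
  have eX : X = x + β := mul_left_cancel₀ n12 (by linear_combination hX)
  have eW : W = Y + α * x + γ := mul_left_cancel₀ n2 (by linear_combination hW)
  have eG : G = β ^ 2 - δ := mul_left_cancel₀ n144 (by linear_combination hG)
  clear hE hP hX hW hG
  subst eE eP eX eW eG
  have e6 : a6 = (Y + α * x + γ) ^ 2 - γ ^ 2 - x ^ 3 - 3 * P * x ^ 2 - 3 * δ * x := by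
    linear_combination h6
  refine ⟨⟨?_, ?_, ?_, ?_, ?_⟩, ?_⟩
  · rw [map_sub, dg, dα]
    ring
  · rw [map_add, dx, dβ]
    ring
  · rw [map_add, map_add, dv_mul, dy, dα, dx, dγ]
    ring
  · rw [map_sub, dv_pow2, dβ, dδ, e6]
    ring
  · rw [dβ]
    ring
  · rw [e6]
    ring

theorem wft : S_WFT := by
  intro a1 a2 a3 a4 a6 t u X' G P F hu h1 h2 hX hG hP
  have n2 : (2 : Se) ≠ 0 := by simpa using ofNat_ne 2 (by norm_num)
  have n12 : (12 : Se) ≠ 0 := by simpa using ofNat_ne 12 (by norm_num)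
  have n144 : (144 : Se) ≠ 0 := by simpa using ofNat_ne 144 (by norm_num)
  obtain ⟨α, β, γ, δ, hα, hβ, hγ, hδ, dα, dβ, dγ, dδ, d6⟩ := coords a1 a2 a3 a4 a6 t u F
  have du := F.du
  clear F
  subst hα hγ hβ hδ
  have et : t = α + γ * u := mul_left_cancel₀ n2 (by linear_combination h1)
  have eP : P = β := mul_left_cancel₀ n12 (by linear_combination hP)
  have eG : G = β ^ 2 - δ := mul_left_cancel₀ n144 (by linear_combination hG)
  obtain ⟨ξ, hξ⟩ : ∃ ξ, X' = ξ + β := ⟨X' - β, by ring⟩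
  subst et eP eG hξ
  have hu1 : u * ξ = 1 := mul_left_cancel₀ n12 (by linear_combination hX)
  have dξ : dv ξ = 2 * (2 * ξ ^ 2 + 6 * P * ξ + 3 * δ) := by
    have h := congrArg dv hu1
    rw [dv_mul, Derivation.map_one_eq_zero, du] at h
    linear_combination ξ * h - dv ξ * hu1 + 12 * P * ξ * hu1 + 6 * δ * (u * ξ + 1) * hu1
  constructor
  · rw [map_add, dξ, dβ]
    ring
  · have e6 : a6 = -γ ^ 2 - ξ ^ 3 - 3 * P * ξ ^ 2 - 3 * δ * ξ := by
      linear_combination ξ ^ 3 * h2 - (3 * P * ξ ^ 2 + 3 * δ * ξ * (u * ξ + 1) +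
        (γ ^ 2 + a6) * ((u * ξ) ^ 2 + u * ξ + 1)) * hu1
    rw [e6]
    ring

theorem addw : S_ADDW := by
  intro E X Y G P X' V W hX' h3' hD hV
  subst hV
  have h3 : V ^ 2 * (X - X') = X ^ 2 + X * X' + X' ^ 2 - 3 * G := by
    refine mul_left_cancel₀ hD ?_
    linear_combination h3'
  have wy := W.y
  rw [dv_mul, map_sub] at wy
  have hdV : dv V = 2 * (X * V - 2 * X' * V + E * (2 * X + X' - V ^ 2) + P * V) := by
    refine mul_left_cancel₀ hD ?_
    linear_combination wy - V * W.x + V * hX' - 2 * E * h3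
  have wx := W.x
  refine ⟨?_, ?_, ?_, ?_, ?_⟩
  · rw [map_add, W.e, hdV]
    ring
  · rw [map_sub, map_sub, dv_pow2, hdV, hX', wx]
    linear_combination 8 * h3
  · rw [map_neg, map_add, dv_mul, dv_mul, map_sub, map_sub, map_sub, map_sub, dv_pow2, hdV, hX', wx]
    linear_combination (2 * E - 6 * V) * h3
  · rw [W.g]
    linear_combination 4 * (V ^ 2 - 2 * X - X') * h3
  · exact W.p

end Pool.Agent.Helper26K9.QA
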