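import Pool.Agent.Helper26K9.QA.Stm

/-!
# The point of order two
-/

set_option autoImplicit false
set_option linter.unusedVariables false

open scoped PeriodPair

namespace Pool.Agent.Helper26K9.QA

open H667R3 Pool.Agent.TH936.CW Pool.Agent.Y690.NV Pool.Agent.Y690.AW Pool.Agent.W192.HK
open Pool.Agent.TH936.CM (IsLat out_sub)
open Pool.Agent.Helper26K9.XO Pool.Agent.Helper26K9.QT
open Complex (I)

namespace HalfL

variable {R : Subring ℂ} {L : PeriodPair} {Ω : ℂ}

lemma re_of (hR : ∀ z : ℂ, z ∈ R ↔ ∃ x y : ℤ, z = x + y * I) (hL : IsLat L R Ω) {z : ℂ}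
    (h : Ω * z ∈ L.lattice) : ∃ x : ℤ, z.re = x := by
  obtain ⟨r, hr⟩ := (hL.mem _).1 h
  have h1 : z = r := mul_left_cancel₀ hL.ne hr
  obtain ⟨x, y, hxy⟩ := (hR r).1 r.2
  refine ⟨x, ?_⟩
  rw [h1, hxy]
  simp

lemma not_half {x : ℤ} (h : (1 / 2 : ℝ) = x) : False := by
  have h1 : (1 : ℝ) = ((2 * x : ℤ) : ℝ) := by push_cast; linarith
  have h2 : (1 : ℤ) = 2 * x := by exact_mod_cast h1
  omega

lemma not_third {x : ℤ} (h : (1 / 3 : ℝ) = x) : False := by
  have h1 : (1 : ℝ) = ((3 * x : ℤ) : ℝ) := by push_cast; linarith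
  have h2 : (1 : ℤ) = 3 * x := by exact_mod_cast h1
  omega

end HalfL

open HalfL

theorem half : S_HALF := by
  intro R hR L q Ω hL hCM g2 hq
  have hmem : Ω ∈ L.lattice := (hL.mem _).2 ⟨1, by simp⟩
  have hn2 : Ω / 2 ∉ L.lattice := by
    intro h
    obtain ⟨x, hx⟩ := re_of hR hL (z := 1 / 2) (by rwa [mul_one_div])
    refine not_half (x := x) ?_
    rw [← hx]
    simp
  have hn3 : Ω / 3 ∉ L.lattice := by
    intro h
    obtain ⟨x, hx⟩ := re_of hR hL (z := 1 / 3) (by rwa [mul_one_div])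
    refine not_third (x := x) ?_
    rw [← hx]
    simp
  have hE : E1 L 0 q (Ω / 2) = 0 := by
    have h1 : E1 L 0 q (-(Ω / 2)) = E1 L 0 q (Ω / 2) := E1_per' hq hn2 (by
      have := neg_mem hmem
      convert this using 1
      ring)
    rw [E1_neg] at h1
    linear_combination (-1 / 2) * h1
  have hy : ℘'[L] (Ω / 2) = 0 := wp'_half_eq_zero L hmem
  refine ⟨hn2, hn3, hE, hy, ?_⟩
  have hc := curve hCM g2 hn2
  unfold Xi at hc
  rw [hy] at hc
  have h0 : ℘[L] (Ω / 2) ≠ 0 := by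
    intro h0
    have hI : I * (Ω / 2) ∉ L.lattice := fun h => hn2 ((I_mul_mem_iff hCM).mp h)
    have h1 : ℘[L] (I * (Ω / 2)) = ℘[L] (Ω / 2) := by
      rw [wp_I_mul hCM, h0, neg_zero]
    rw [wp_eq_iff L hI hn2] at h1
    rcases h1 with h1 | h1
    · obtain ⟨x, hx⟩ := re_of hR hL (z := (1 + I) / 2) (by
        convert h1 using 1
        ring)
      refine not_half (x := x) ?_
      rw [← hx]
      simp
    · obtain ⟨x, hx⟩ := re_of hR hL (z := (1 - I) / 2) (by
        have := neg_mem h1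
        convert this using 1
        ring)
      refine not_half (x := x) ?_
      rw [← hx]
      simp
  have h2 : (2 * ℘[L] (Ω / 2)) * (4 * ℘[L] (Ω / 2) ^ 2 + 1) = 0 := by
    linear_combination -hc
  exact (mul_eq_zero.1 h2).resolve_left (mul_ne_zero two_ne_zero h0)

end Pool.Agent.Helper26K9.QA
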