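import Pool.Agent.Helper26K9.QA.Stm

/-!
# Quartic twists, all weights: valuations of the coefficients (HUR, EST, HEN)
-/

set_option autoImplicit false

namespace Pool.Agent.Helper26K9.QA

namespace HurL

open Finset

variable {Γ : Type} [LinearOrderedCommGroupWithZero Γ]

theorem v_nat (v : Valuation ℂ Γ) (n : ℕ) : v (n : ℂ) ≤ 1 := by
  induction n with
  | zero => simp
  | succ n ih =>
    rw [Nat.cast_succ]
    exact (v.map_add _ _).trans (max_le ih (by simp))

theorem v_int (v : Valuation ℂ Γ) (n : ℤ) : v (n : ℂ) ≤ 1 := by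
  rcases Int.eq_nat_or_neg n with ⟨m, rfl | rfl⟩
  · simpa using v_nat v m
  · rw [Int.cast_neg, Valuation.map_neg]
    simpa using v_nat v m

theorem v_odd (v : Valuation ℂ Γ) (h2 : v 2 < 1) (m : ℕ) (hm : Odd m) : v (m : ℂ) = 1 := by
  obtain ⟨j, rfl⟩ := hm
  have h1 : v ((2 * j : ℕ) : ℂ) < 1 := by
    push_cast
    rw [map_mul]
    calc v 2 * v (j : ℂ) ≤ v 2 * 1 := mul_le_mul_right (v_nat v j) _
      _ < 1 := by rw [mul_one]; exact h2
  have h3 : v (((2 * j + 1 : ℕ) : ℂ)) = v (((2 * j : ℕ) : ℂ) + 1) := by push_cast; rfl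
  rw [h3, Valuation.map_add_eq_of_lt_right v (by rw [map_one]; exact h1), map_one]

theorem two_ne (v : Valuation ℂ Γ) : v 2 ≠ 0 := (Valuation.ne_zero_iff v).2 two_ne_zero

/-- Legendre -/
theorem fact_bd (v : Valuation ℂ Γ) (h2 : v 2 < 1) (k : ℕ) (hk : 1 ≤ k) :
    v (2 ^ k / (k.factorial : ℂ)) ≤ v 2 := by
  obtain ⟨e, m, hm, hem⟩ := Nat.exists_eq_two_pow_mul_odd (n := k.factorial)
    (Nat.factorial_ne_zero k)
  have he : e < k := by
    have h1 := Nat.emultiplicity_two_factorial_lt (n := k) (by omega)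
    have h3 : 2 ^ e ∣ k.factorial := ⟨m, hem⟩
    have h4 := pow_dvd_iff_le_emultiplicity.1 h3
    exact_mod_cast lt_of_le_of_lt h4 h1
  rw [hem]
  push_cast
  rw [map_div₀, map_pow, map_mul, map_pow, v_odd v h2 m hm, mul_one]
  obtain ⟨r, rfl⟩ : ∃ r, k = e + 1 + r := ⟨k - e - 1, by omega⟩
  rw [pow_add, pow_add, pow_one, div_le_iff₀ (zero_lt_iff.2 (pow_ne_zero _ (two_ne v)))]
  calc v 2 ^ e * v 2 * v 2 ^ r ≤ v 2 ^ e * v 2 * 1 :=
        mul_le_mul_right (pow_le_one₀ zero_le h2.le) _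
    _ = v 2 * v 2 ^ e := by rw [mul_one, mul_comm]

theorem co_add (j : ℕ) (f g : Se) : co j (f + g) = co j f + co j g :=
  map_add (PowerSeries.coeff j) f g

theorem co_neg (j : ℕ) (f : Se) : co j (-f) = -co j f := map_neg (PowerSeries.coeff j) f

theorem co_mul (j : ℕ) (f g : Se) :
    co j (f * g) = ∑ p ∈ antidiagonal j, co p.1 f * co p.2 g := PowerSeries.coeff_mul _ _ _

theorem co_C (j : ℕ) (a : ℂ) : co j (PowerSeries.C a) = if j = 0 then a else 0 :=
  PowerSeries.coeff_C _ _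

theorem co_Cmul (j : ℕ) (a : ℂ) (f : Se) : co j (PowerSeries.C a * f) = a * co j f :=
  PowerSeries.coeff_C_mul _ _ _

theorem co_dv (j : ℕ) (f : Se) : co j (dv f) = co (j + 1) f * ((j : ℂ) + 1) :=
  PowerSeries.coeff_derivative _ _

/-- the bounds of Hurwitz up to `k` -/
def Hz (v : Valuation ℂ Γ) (k : ℕ) (f : Se) : Prop :=
  ∀ j ≤ k, v (co j f) ≤ v (2 ^ j / (j.factorial : ℂ))

theorem Hz.add {v : Valuation ℂ Γ} {k : ℕ} {f g : Se} (hf : Hz v k f) (hg : Hz v k g) :
    Hz v k (f + g) := by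
  intro j hj
  rw [co_add]
  exact (v.map_add _ _).trans (max_le (hf j hj) (hg j hj))

theorem Hz.neg {v : Valuation ℂ Γ} {k : ℕ} {f : Se} (hf : Hz v k f) : Hz v k (-f) := by
  intro j hj
  rw [co_neg, Valuation.map_neg]
  exact hf j hj

theorem Hz.sub {v : Valuation ℂ Γ} {k : ℕ} {f g : Se} (hf : Hz v k f) (hg : Hz v k g) :
    Hz v k (f - g) := by
  rw [sub_eq_add_neg]; exact hf.add hg.neg

theorem Hz.mul {v : Valuation ℂ Γ} {k : ℕ} {f g : Se} (hf : Hz v k f) (hg : Hz v k g) :
    Hz v k (f * g) := by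
  intro j hj
  rw [co_mul]
  refine Valuation.map_sum_le v fun p hp => ?_
  rw [HasAntidiagonal.mem_antidiagonal] at hp
  have h1 := hf p.1 (by omega)
  have h2 := hg p.2 (by omega)
  rw [map_mul]
  refine (mul_le_mul' h1 h2).trans ?_
  rw [← map_mul]
  have h3 : (2 : ℂ) ^ p.1 / (p.1.factorial : ℂ) * (2 ^ p.2 / (p.2.factorial : ℂ)) =
      2 ^ j / (j.factorial : ℂ) * (j.choose p.2 : ℂ) := by
    have h4 := Nat.add_choose_mul_factorial_mul_factorial p.1 p.2
    rw [hp] at h4
    have h5 : ((j.choose p.2 : ℕ) : ℂ) * (p.1.factorial : ℂ) * (p.2.factorial : ℂ) =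
      (j.factorial : ℂ) := by exact_mod_cast h4
    have h6 : (p.1.factorial : ℂ) ≠ 0 := by exact_mod_cast Nat.factorial_ne_zero _
    have h7 : (p.2.factorial : ℂ) ≠ 0 := by exact_mod_cast Nat.factorial_ne_zero _
    have h8 : (j.factorial : ℂ) ≠ 0 := by exact_mod_cast Nat.factorial_ne_zero _
    rw [← hp, pow_add]
    rw [hp]
    field_simp
    rw [← h5]
    ring
  rw [h3, map_mul]
  calc _ ≤ v (2 ^ j / (j.factorial : ℂ)) * 1 := mul_le_mul_right (v_nat v _) _
    _ = _ := mul_one _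

theorem Hz.int (v : Valuation ℂ Γ) (k : ℕ) (n : ℤ) : Hz v k (n : Se) := by
  intro j _
  have h1 : (n : Se) = PowerSeries.C (n : ℂ) := by simp
  rw [h1, co_C]
  split_ifs with h
  · subst h
    simpa using v_int v n
  · rw [map_zero]; exact zero_le

theorem Hz.pow {v : Valuation ℂ Γ} {k : ℕ} {f : Se} (hf : Hz v k f) (m : ℕ) : Hz v k (f ^ m) := by
  induction m with
  | zero =>
    rw [pow_zero]
    have := Hz.int v k 1
    simpa using this
  | succ m ih => rw [pow_succ]; exact ih.mul hf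

theorem Hz.ofNat (v : Valuation ℂ Γ) (k : ℕ) (n : ℕ) [n.AtLeastTwo] :
    Hz v k (OfNat.ofNat n : Se) := by
  have := Hz.int v k (OfNat.ofNat n)
  simpa using this

theorem Hz.step {v : Valuation ℂ Γ} {k : ℕ} {f p : Se} (hf : Hz v k f) (hp : Hz v k p)
    (h : dv f = 2 * p) : Hz v (k + 1) f := by
  intro j hj
  rcases Nat.lt_or_ge j (k + 1) with h1 | h1
  · exact hf j (by omega)
  · obtain rfl : j = k + 1 := by omega
    have h2 := congrArg (PowerSeries.coeff k) h
    have h2' : co (k + 1) f * ((k : ℂ) + 1) = 2 * co k p := by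
      rw [← co_dv]
      have h4 : (2 : Se) = PowerSeries.C (2 : ℂ) := (map_ofNat PowerSeries.C 2).symm
      have h5 : co k (dv f) = co k (2 * p) := h2
      rw [h5, h4, co_Cmul]
    have h5 : ((k : ℂ) + 1) ≠ 0 := by exact_mod_cast Nat.succ_ne_zero k
    have h6 : co (k + 1) f = 2 * co k p / ((k : ℂ) + 1) := by
      rw [← h2', mul_div_cancel_right₀ _ h5]
    rw [h6]
    have h7 : (2 : ℂ) ^ (k + 1) / ((k + 1).factorial : ℂ) =
        2 * (2 ^ k / (k.factorial : ℂ)) / ((k : ℂ) + 1) := by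
      rw [Nat.factorial_succ]
      have h8 : (k.factorial : ℂ) ≠ 0 := by exact_mod_cast Nat.factorial_ne_zero _
      push_cast
      field_simp
      ring
    rw [h7, map_div₀, map_div₀, map_mul, map_mul]
    refine div_le_div_of_nonneg_right ?_ zero_le
    exact mul_le_mul_right (hp k le_rfl) _

theorem Hz.zero {v : Valuation ℂ Γ} {f : Se} (h : v (co 0 f) ≤ 1) : Hz v 0 f := by
  intro j hj
  obtain rfl : j = 0 := by omega
  simpa using h

end HurL

open HurL in
/-- the bounds of Hurwitz -/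
theorem hur : S_HUR := by
  intro a1 a2 a3 a4 a6 t u x Y g hF hP Γ _ v h2 h0
  simp only [List.mem_cons, List.not_mem_nil, or_false, forall_eq_or_imp, forall_eq] at h0
  obtain ⟨e1, e2, e3, e4, e6, ex, eY, eg⟩ := h0
  have key : ∀ k, Hz v k a1 ∧ Hz v k a2 ∧ Hz v k a3 ∧ Hz v k a4 ∧ Hz v k a6 ∧ Hz v k x ∧
      Hz v k Y ∧ Hz v k g := by
    intro k
    induction k with
    | zero =>
      exact ⟨Hz.zero e1, Hz.zero e2, Hz.zero e3, Hz.zero e4, Hz.zero e6, Hz.zero ex, Hz.zero eY,
        Hz.zero eg⟩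
    | succ k ih =>
      obtain ⟨i1, i2, i3, i4, i6, ix, iY, ig⟩ := ih
      have n2 := Hz.ofNat v k 2
      have n3 := Hz.ofNat v k 3
      have n4 := Hz.ofNat v k 4
      have n6 := Hz.ofNat v k 6
      refine ⟨i1.step i3 hF.d1, i2.step i4 hF.d2, i3.step (p := ((0 : ℤ) : Se)) (Hz.int v k 0)
        (by rw [hF.d3]; simp), i4.step ?_ hF.d4, i6.step ?_ hF.d6, ix.step ?_ hP.dx,
        iY.step ?_ hP.dy, ig.step (p := -(g * x + Y)) ?_ (by rw [hP.dg]; ring)⟩
      · exact (i3.pow 2).add (n6.mul i6)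
      · exact (((((i1.pow 2).mul i6).add ((n4.mul i2).mul i6)).sub ((i1.mul i3).mul i4)).add
          (i2.mul (i3.pow 2))).sub (i4.pow 2)
      · exact ((((ig.mul (((n2.mul iY).add (i1.mul ix)).add i3)).add (n2.mul (ix.pow 2))).add
          ((n2.mul i2).mul ix)).add i4).sub (i1.mul iY)
      · exact (((((((ig.mul ((((n3.mul (ix.pow 2)).add ((n2.mul i2).mul ix)).add i4).sub
          (i1.mul iY))).add ((n3.mul ix).mul iY)).add ((n2.mul i2).mul iY)).add
          ((i1.pow 2).mul iY)).sub (i1.mul (ix.pow 2))).add (i3.mul ix)).sub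
          ((i1.mul i2).mul ix)).add (i2.mul i3) |>.sub (i1.mul i4)
      · exact ((ig.mul ix).add iY).neg
  intro s hs k hk
  have h1 : Hz v k s := by
    obtain ⟨i1, i2, i3, i4, i6, ix, iY, ig⟩ := key k
    simp only [List.mem_cons, List.not_mem_nil, or_false] at hs
    rcases hs with rfl | rfl | rfl | rfl | rfl | rfl | rfl | rfl
    exacts [i1, i2, i3, i4, i6, ix, iY, ig]
  exact (h1 k le_rfl).trans (fact_bd v h2 k hk)

namespace EstL

open Finset HurL

variable {Γ : Type} [LinearOrderedCommGroupWithZero Γ]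

theorem v_sum_le (v : Valuation ℂ Γ) {ι : Type} (s : Finset ι) (f : ι → ℂ) (g : Γ)
    (h : ∀ i ∈ s, v (f i) ≤ g) : v (∑ i ∈ s, f i) ≤ g := Valuation.map_sum_le v h

/-- products: bounds for all the coefficients up to `m` -/
theorem co_mul_le (v : Valuation ℂ Γ) (f g : Se) (γ γ' : Γ) (m : ℕ)
    (hf : ∀ j ≤ m, v (co j f) ≤ γ) (hg : ∀ j ≤ m, v (co j g) ≤ γ') :
    v (co m (f * g)) ≤ γ * γ' := by
  rw [co_mul]
  refine v_sum_le v _ _ _ fun p hp => ?_
  rw [HasAntidiagonal.mem_antidiagonal] at hp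
  rw [map_mul]
  exact mul_le_mul' (hf _ (by omega)) (hg _ (by omega))

/-- products: the constant coefficient of the first factor vanishes -/
theorem co_mul_le' (v : Valuation ℂ Γ) (f g : Se) (γ γ' : Γ) (m : ℕ) (h0 : co 0 f = 0)
    (hf : ∀ j ≤ m, v (co j f) ≤ γ) (hg : ∀ j < m, v (co j g) ≤ γ') :
    v (co m (f * g)) ≤ γ * γ' := by
  rw [co_mul]
  refine v_sum_le v _ _ _ fun p hp => ?_
  rw [HasAntidiagonal.mem_antidiagonal] at hp
  rcases Nat.eq_zero_or_pos p.1 with h1 | h1
  · rw [h1, h0, zero_mul, map_zero]; exact zero_le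
  · rw [map_mul]
    exact mul_le_mul' (hf _ (by omega)) (hg _ (by omega))

/-- products: the constant coefficients of both factors vanish -/
theorem co_mul_le2 (v : Valuation ℂ Γ) (f g : Se) (γ γ' : Γ) (m : ℕ) (h0 : co 0 f = 0)
    (h0' : co 0 g = 0) (hf : ∀ j < m, v (co j f) ≤ γ) (hg : ∀ j < m, v (co j g) ≤ γ') :
    v (co m (f * g)) ≤ γ * γ' := by
  rw [co_mul]
  refine v_sum_le v _ _ _ fun p hp => ?_
  rw [HasAntidiagonal.mem_antidiagonal] at hp
  rcases Nat.eq_zero_or_pos p.1 with h1 | h1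
  · rw [h1, h0, zero_mul, map_zero]; exact zero_le
  · rcases Nat.eq_zero_or_pos p.2 with h2 | h2
    · rw [h2, h0', mul_zero, map_zero]; exact zero_le
    · rw [map_mul]
      exact mul_le_mul' (hf _ (by omega)) (hg _ (by omega))

/-- the coefficient of a product with `f = C f₀ + ...` separated -/
theorem co_mul_eq (f g : Se) (m : ℕ) :
    co m (f * g) = co 0 f * co m g + co m ((f - PowerSeries.C (co 0 f)) * g) := by
  have h1 : f * g = PowerSeries.C (co 0 f) * g + (f - PowerSeries.C (co 0 f)) * g := by ring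
  have h2 : co m (f * g) = co m (PowerSeries.C (co 0 f) * g +
    (f - PowerSeries.C (co 0 f)) * g) := congrArg _ h1
  rw [h2, co_add, co_Cmul]

theorem co_sub (j : ℕ) (f g : Se) : co j (f - g) = co j f - co j g :=
  map_sub (PowerSeries.coeff j) f g

theorem co_sub_C_zero (f : Se) : co 0 (f - PowerSeries.C (co 0 f)) = 0 := by
  rw [co_sub, co_C, if_pos rfl, sub_self]

theorem co_sub_C_pos (f : Se) (a : ℂ) (j : ℕ) (hj : j ≠ 0) :
    co j (f - PowerSeries.C a) = co j f := by
  rw [co_sub, co_C, if_neg hj, sub_zero]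

end EstL

open HurL EstL in
theorem est : S_EST := by
  intro t u x Y g E Γ _ v ρ hρ hρ1 ht0 ht hu hx hY hg0 hg hE
  have hρ0 : ρ ≠ 0 := by
    rintro rfl
    norm_num at hρ
  obtain ⟨r, hr⟩ : ∃ r, r = v ρ := ⟨_, rfl⟩
  have hr0 : r ≠ 0 := by rw [hr]; exact (Valuation.ne_zero_iff v).2 hρ0
  rw [← hr] at hρ1 hu
  have hr1 : r ≤ 1 := hρ1.le
  have hri : (1 : Γ) ≤ r⁻¹ := by
    rw [one_le_inv₀ (zero_lt_iff.2 hr0)]; exact hr1
  have hr2 : r ^ 2 ≤ 1 := pow_le_one₀ zero_le hr1
  have ht0' : v (co 0 t) = r⁻¹ := by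
    rw [map_mul, ← hr] at ht0
    exact eq_inv_of_mul_eq_one_right ht0
  have hT : ∀ k, v (co k t) ≤ r⁻¹ := by
    intro k
    rcases Nat.eq_zero_or_pos k with rfl | hk
    · exact ht0'.le
    · exact (ht k hk).trans hri
  obtain ⟨F, hF⟩ : ∃ F, F = E - g := ⟨_, rfl⟩
  obtain ⟨w, hw⟩ : ∃ w, w = u * x := ⟨_, rfl⟩
  have hwb : ∀ k, v (co k w) ≤ r ^ 2 := by
    intro k
    rw [hw]
    have := co_mul_le v u x (r ^ 2) 1 k (fun j _ => hu j) (fun j _ => hx j)
    rwa [mul_one] at this
  have huY : ∀ k, v (co k (u * Y)) ≤ r ^ 2 := by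
    intro k
    have := co_mul_le v u Y (r ^ 2) 1 k (fun j _ => hu j) (fun j _ => hY j)
    rwa [mul_one] at this
  have hFe : F = -(t + u * Y) + w * F := by
    rw [← hF, ← hw] at hE
    linear_combination hE
  -- the coefficients of `F`
  have hFb : ∀ k, v (co k F) ≤ r⁻¹ := by
    intro k
    induction k using Nat.strong_induction_on with
    | _ k ih =>
      have h1 : co k F = -(co k t + co k (u * Y)) + (co 0 w * co k F +
          co k ((w - PowerSeries.C (co 0 w)) * F)) := by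
        rw [← co_mul_eq]
        conv_lhs => rw [hFe]
        rw [co_add, co_neg, co_add]
      have h2 : (1 - co 0 w) * co k F = -(co k t + co k (u * Y)) +
          co k ((w - PowerSeries.C (co 0 w)) * F) := by linear_combination h1
      have h3 : v (1 - co 0 w) = 1 := by
        rw [Valuation.map_sub_eq_of_lt_left v, map_one]
        rw [map_one]
        refine lt_of_le_of_lt (hwb 0) ?_
        exact pow_lt_one₀ zero_le hρ1 two_ne_zero
      have h4 : v (co k ((w - PowerSeries.C (co 0 w)) * F)) ≤ r ^ 2 * r⁻¹ := by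
        refine co_mul_le' v _ F (r ^ 2) r⁻¹ k (co_sub_C_zero w) (fun j _ => ?_) (fun j hj => ih j hj)
        rcases Nat.eq_zero_or_pos j with rfl | hj
        · rw [co_sub_C_zero, map_zero]; exact zero_le
        · rw [co_sub_C_pos w _ j (by omega)]; exact hwb j
      have h5 : r ^ 2 * r⁻¹ ≤ r⁻¹ := by
        calc r ^ 2 * r⁻¹ ≤ 1 * r⁻¹ := mul_le_mul_left hr2 _
          _ = r⁻¹ := one_mul _
      have h6 := congrArg v h2
      rw [map_mul, h3, one_mul] at h6
      rw [h6]
      refine (v.map_add _ _).trans (max_le ?_ (h4.trans h5))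
      rw [Valuation.map_neg]
      refine (v.map_add _ _).trans (max_le (hT k) ((huY k).trans (hr2.trans hri)))
  have hFt : ∀ k, v (co k F + co k t) ≤ r := by
    intro k
    have h1 : co k F + co k t = -co k (u * Y) + co k (w * F) := by
      conv_lhs => rw [hFe]
      rw [co_add, co_neg, co_add]
      ring
    have h2 := co_mul_le v w F (r ^ 2) r⁻¹ k (fun j _ => hwb j) (fun j _ => hFb j)
    have h3 : r ^ 2 * r⁻¹ = r := by rw [sq, mul_assoc, mul_inv_cancel₀ hr0, mul_one]
    rw [h3] at h2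
    rw [h1]
    refine (v.map_add _ _).trans (max_le ?_ h2)
    rw [Valuation.map_neg]
    refine (huY k).trans ?_
    calc r ^ 2 = r * r := sq r
      _ ≤ r * 1 := mul_le_mul_right hr1 _
      _ = r := mul_one r
  have hEF : E = F + g := by rw [hF]; ring
  refine ⟨fun k hk => ?_, ?_⟩
  · have h1 : co k E + co k t = (co k F + co k t) + co k g := by
      rw [hEF, co_add]; ring
    rw [h1]
    exact (v.map_add _ _).trans_lt (max_lt ((hFt k).trans_lt hρ1) (hg k hk))
  · rw [map_mul, ← hr, hEF, co_add]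
    have h1 : v (co 0 F + co 0 g) ≤ r⁻¹ :=
      (v.map_add _ _).trans (max_le (hFb 0) (hg0.trans hri))
    calc r * v (co 0 F + co 0 g) ≤ r * r⁻¹ := mul_le_mul_right h1 _
      _ = 1 := mul_inv_cancel₀ hr0

open Finset HurL EstL in
theorem hen : S_HEN := by
  intro a1 a2 a3 a4 a6 t u hF h2t hrel Γ _ v ρ hρ hρ1 hb ha2 hc ha4 ha6 hco ht0 hu0
  have hρ0 : ρ ≠ 0 := by
    rintro rfl
    norm_num at hρ
  obtain ⟨r, hr⟩ : ∃ r, r = v ρ := ⟨_, rfl⟩
  have hr0 : r ≠ 0 := by rw [hr]; exact (Valuation.ne_zero_iff v).2 hρ0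
  rw [← hr] at hρ1 hu0 hb
  have hr1 : r ≤ 1 := hρ1.le
  have hri : (1 : Γ) ≤ r⁻¹ := by
    rw [one_le_inv₀ (zero_lt_iff.2 hr0)]; exact hr1
  have hr2 : r ^ 2 ≤ 1 := pow_le_one₀ zero_le hr1
  have hr42 : r ^ 4 ≤ r ^ 2 := pow_le_pow_right_of_le_one' hr1 (by norm_num)
  have hr32 : r ^ 3 ≤ r ^ 2 := pow_le_pow_right_of_le_one' hr1 (by norm_num)
  have hv2 : v 2 = r ^ 4 := by rw [hr, ← map_pow, hρ]
  have hv21 : v 2 < 1 := by rw [hv2]; exact pow_lt_one₀ zero_le hρ1 (by norm_num)
  obtain ⟨T, hT⟩ : ∃ T, T = co 0 t := ⟨_, rfl⟩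
  have hvT : v T = r⁻¹ := by
    rw [map_mul, ← hr] at ht0
    rw [hT]
    exact eq_inv_of_mul_eq_one_right ht0
  obtain ⟨b, hbd⟩ : ∃ b, b = co 0 a1 := ⟨_, rfl⟩
  obtain ⟨c, hcd⟩ : ∃ c, c = co 0 a3 := ⟨_, rfl⟩
  rw [← hbd] at hb
  rw [← hcd] at hc
  have hc0 : c ≠ 0 := (Valuation.ne_zero_iff v).1 (by rw [hc]; exact one_ne_zero)
  -- `a3` is constant
  have h3 : ∀ j, j ≠ 0 → co j a3 = 0 := by
    intro j hj
    obtain ⟨k, rfl⟩ : ∃ k, j = k + 1 := ⟨j - 1, by omega⟩
    have h := congrArg (PowerSeries.coeff k) hF.d3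
    have h' : co k (dv a3) = 0 := by rw [← map_zero (PowerSeries.coeff k)]; exact h
    rw [co_dv] at h'
    exact (mul_eq_zero.1 h').resolve_right (by exact_mod_cast Nat.succ_ne_zero k)
  have h3C : a3 = PowerSeries.C c := by
    refine PowerSeries.ext fun j => ?_
    change co j a3 = co j (PowerSeries.C c)
    rw [co_C]
    split_ifs with hj
    · rw [hj, hcd]
    · exact h3 j hj
  have h2C : (2 : Se) = PowerSeries.C (2 : ℂ) := (map_ofNat PowerSeries.C 2).symm
  -- `a1 = b + s1`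
  obtain ⟨s1, hs1⟩ : ∃ s1, s1 = a1 - PowerSeries.C b := ⟨_, rfl⟩
  have hs10 : co 0 s1 = 0 := by rw [hs1, hbd]; exact co_sub_C_zero a1
  have ha1v : ∀ j, j ≠ 0 → v (co j a1) ≤ r ^ 4 := by
    intro j hj
    obtain ⟨k, rfl⟩ : ∃ k, j = k + 1 := ⟨j - 1, by omega⟩
    have h := congrArg (PowerSeries.coeff k) hF.d1
    have h' : co k (dv a1) = co k (2 * a3) := h
    rw [co_dv, h2C, co_Cmul] at h'
    rcases Nat.eq_zero_or_pos k with rfl | hk
    · have h'' : co (0 + 1) a1 = 2 * c := by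
        rw [← hcd] at h'
        simpa using h'
      rw [h'', map_mul, hc, mul_one, hv2]
    · rw [h3 k (by omega), mul_zero] at h'
      rw [(mul_eq_zero.1 h').resolve_right (by exact_mod_cast Nat.succ_ne_zero k), map_zero]
      exact zero_le
  have hs1v : ∀ j, v (co j s1) ≤ r ^ 4 := by
    intro j
    rcases Nat.eq_zero_or_pos j with rfl | hj
    · rw [hs10, map_zero]; exact zero_le
    · rw [hs1, co_sub_C_pos a1 b j (by omega)]; exact ha1v j (by omega)
  -- the equation
  obtain ⟨s, hs⟩ : ∃ s, s = t - PowerSeries.C T := ⟨_, rfl⟩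
  have hs0 : co 0 s = 0 := by rw [hs, hT]; exact co_sub_C_zero t
  have hts : t = PowerSeries.C T + s := by rw [hs]; ring
  have ha1s : a1 = PowerSeries.C b + s1 := by rw [hs1]; ring
  have heq : PowerSeries.C (6 * T ^ 2 - 2 * b * T) * s =
      PowerSeries.C (-(2 * T ^ 3 - b * T ^ 2 + c)) + PowerSeries.C (-(6 * T)) * (s * s) +
      PowerSeries.C (-2) * (s * (s * s)) + PowerSeries.C b * (s * s) + s1 * (t * t) +
      PowerSeries.C (-c) * (a2 * u + a4 * (u * u) + a6 * (u * (u * u))) := by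
    have h1 : 2 * t ^ 3 - a1 * t ^ 2 + a3 * (1 + a2 * u + a4 * u ^ 2 + a6 * u ^ 3) = 0 := by
      linear_combination a3 * hrel + (t ^ 2) * h2t
    have e6 : PowerSeries.C (6 * T ^ 2 - 2 * b * T) =
        6 * PowerSeries.C T ^ 2 - 2 * PowerSeries.C b * PowerSeries.C T := by
      simp only [map_sub, map_mul, map_pow, map_ofNat]
    have e7 : PowerSeries.C (-(2 * T ^ 3 - b * T ^ 2 + c)) =
        -(2 * PowerSeries.C T ^ 3 - PowerSeries.C b * PowerSeries.C T ^ 2 + PowerSeries.C c) := by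
      simp only [map_neg, map_add, map_sub, map_mul, map_pow, map_ofNat]
    have e8 : PowerSeries.C (-(6 * T)) = -(6 * PowerSeries.C T) := by
      simp only [map_neg, map_mul, map_ofNat]
    have e9 : PowerSeries.C (-2 : ℂ) = -2 := by
      simp only [map_neg, map_ofNat]
    have e10 : PowerSeries.C (-c) = -PowerSeries.C c := by
      simp only [map_neg]
    rw [e6, e7, e8, e9, e10]
    have h2 : s1 * (t * t) = s1 * t ^ 2 := by ring
    rw [h2]
    rw [h3C, ha1s] at h1
    have h3 : 2 * t ^ 3 - PowerSeries.C b * t ^ 2 - s1 * t ^ 2 +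
      PowerSeries.C c * (1 + a2 * u + a4 * u ^ 2 + a6 * u ^ 3) = 0 := by
      linear_combination h1
    have h4 : 2 * t ^ 3 - PowerSeries.C b * t ^ 2 = 2 * (PowerSeries.C T + s) ^ 3 -
      PowerSeries.C b * (PowerSeries.C T + s) ^ 2 := by rw [← hts]
    linear_combination h3 - h4
  -- valuations of the coefficients
  have hv3 : v 3 = 1 := by
    have := v_odd v hv21 3 (by decide)
    exact_mod_cast this
  have hlead : v (6 * T ^ 2 - 2 * b * T) = r ^ 2 := by
    have h1 : v (6 * T ^ 2) = r ^ 2 := by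
      rw [show (6 : ℂ) = 2 * 3 by norm_num, map_mul, map_mul, map_pow, hv3, hv2, hvT, mul_one,
        inv_pow]
      rw [show (4 : ℕ) = 2 + 2 from rfl, pow_add, mul_assoc, mul_inv_cancel₀ (pow_ne_zero _ hr0),
        mul_one]
    have h2 : v (2 * b * T) < r ^ 2 := by
      rw [map_mul, map_mul, hv2, hvT]
      calc r ^ 4 * v b * r⁻¹ ≤ r ^ 4 * 1 * r⁻¹ :=
            mul_le_mul_left (mul_le_mul_right (hb.trans hr2) _) _
        _ = r ^ 3 := by
            rw [mul_one, show (4 : ℕ) = 3 + 1 from rfl, pow_succ, mul_assoc,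
              mul_inv_cancel₀ hr0, mul_one]
        _ < r ^ 2 := by
            rw [pow_succ]
            calc r ^ 2 * r < r ^ 2 * 1 :=
                  mul_lt_mul_of_pos_left hρ1 (zero_lt_iff.2 (pow_ne_zero _ hr0))
              _ = r ^ 2 := mul_one _
    rw [Valuation.map_sub_eq_of_lt_left v (by rw [h1]; exact h2), h1]
  intro m
  induction m using Nat.strong_induction_on with
  | _ m ih =>
    intro hm
    -- bounds below `m`
    have hsb : ∀ j < m, v (co j s) ≤ 1 := by
      intro j hj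
      rcases Nat.eq_zero_or_pos j with rfl | hj0
      · rw [hs0, map_zero]; exact zero_le
      · rw [hs, co_sub_C_pos t T j (by omega)]; exact ih j hj hj0
    have htb : ∀ j < m, v (co j t) ≤ r⁻¹ := by
      intro j hj
      rcases Nat.eq_zero_or_pos j with rfl | hj0
      · rw [← hT, hvT]
      · exact (ih j hj hj0).trans hri
    have hub : ∀ j < m, v (co j u) ≤ 1 := by
      intro j hj
      rcases Nat.eq_zero_or_pos j with rfl | hj0
      · exact hu0.trans hr2
      · have h1 : c * co j u = 2 * co j t - co j a1 := by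
          have h2 : PowerSeries.C c * u = PowerSeries.C 2 * t - a1 := by
            rw [← h3C, ← h2C]; linear_combination -h2t
          have h3 := congrArg (co j) h2
          rw [co_sub, co_Cmul, co_Cmul] at h3
          exact h3
        have h4 := congrArg v h1
        rw [map_mul, hc, one_mul] at h4
        rw [h4]
        refine (v.map_sub _ _).trans (max_le ?_ ((ha1v j (by omega)).trans ?_))
        · rw [map_mul]
          exact mul_le_one₀ hv21.le zero_le (ih j hj hj0)
        · exact pow_le_one₀ zero_le hr1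
    have hss : v (co m (s * s)) ≤ 1 := by
      have := co_mul_le2 v s s 1 1 m hs0 hs0 hsb hsb
      rwa [one_mul] at this
    have hss0 : co 0 (s * s) = 0 := by
      have hs0' : PowerSeries.constantCoeff s = 0 := by
        rw [← PowerSeries.coeff_zero_eq_constantCoeff_apply]; exact hs0
      change PowerSeries.coeff 0 (s * s) = 0
      rw [PowerSeries.coeff_zero_eq_constantCoeff_apply, map_mul, hs0', zero_mul]
    have hssb : ∀ j < m, v (co j (s * s)) ≤ 1 := by
      intro j hj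
      have := co_mul_le v s s 1 1 j (fun i hi => hsb i (by omega)) (fun i hi => hsb i (by omega))
      rwa [one_mul] at this
    have hsss : v (co m (s * (s * s))) ≤ 1 := by
      have := co_mul_le2 v s (s * s) 1 1 m hs0 hss0 hsb hssb
      rwa [one_mul] at this
    have htt : v (co m (s1 * (t * t))) ≤ r ^ 2 := by
      have h1 := co_mul_le' v s1 (t * t) (r ^ 4) (r⁻¹ * r⁻¹) m hs10 (fun j _ => hs1v j)
        (fun j hj => co_mul_le v t t r⁻¹ r⁻¹ j (fun i hi => htb i (by omega))
          (fun i hi => htb i (by omega)))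
      refine h1.trans (le_of_eq ?_)
      rw [show (4 : ℕ) = 2 + 1 + 1 from rfl, pow_succ, pow_succ, mul_assoc, mul_assoc,
        mul_inv_cancel_left₀ hr0, mul_inv_cancel₀ hr0, mul_one]
    have huu : ∀ j < m, v (co j (u * u)) ≤ 1 := by
      intro j hj
      have := co_mul_le v u u 1 1 j (fun i hi => hub i (by omega)) (fun i hi => hub i (by omega))
      rwa [one_mul] at this
    have huuu : ∀ j < m, v (co j (u * (u * u))) ≤ 1 := by
      intro j hj
      have := co_mul_le v u (u * u) 1 1 j (fun i hi => hub i (by omega))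
        (fun i hi => huu i (by omega))
      rwa [one_mul] at this
    have hA : ∀ a : Se, a ∈ ([a2, a4, a6] : List Se) → co 0 a = 0 → ∀ j, v (co j a) ≤ r ^ 4 := by
      intro a ha ha0 j
      rcases Nat.eq_zero_or_pos j with rfl | hj0
      · rw [ha0, map_zero]; exact zero_le
      · rw [← hv2]; exact hco a ha j hj0
    have hR : v (co m (a2 * u + a4 * (u * u) + a6 * (u * (u * u)))) ≤ r ^ 4 := by
      rw [co_add, co_add]
      refine (v.map_add _ _).trans (max_le ((v.map_add _ _).trans (max_le ?_ ?_)) ?_)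
      · have := co_mul_le' v a2 u (r ^ 4) 1 m ha2 (fun j _ => hA a2 (by simp) ha2 j) hub
        rwa [mul_one] at this
      · have := co_mul_le' v a4 (u * u) (r ^ 4) 1 m ha4 (fun j _ => hA a4 (by simp) ha4 j) huu
        rwa [mul_one] at this
      · have := co_mul_le' v a6 (u * (u * u)) (r ^ 4) 1 m ha6 (fun j _ => hA a6 (by simp) ha6 j)
          huuu
        rwa [mul_one] at this
    -- the coefficient `m`
    have hm0 : m ≠ 0 := by omega
    have h1 := congrArg (co m) heq
    rw [co_Cmul, co_add, co_add, co_add, co_add, co_add, co_Cmul, co_Cmul, co_Cmul, co_Cmul, co_C,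
      if_neg hm0, zero_add] at h1
    have h2 := congrArg v h1
    rw [map_mul, hlead] at h2
    have h3 : r ^ 2 * v (co m s) ≤ r ^ 2 * 1 := by
      rw [h2, mul_one]
      refine (v.map_add _ _).trans (max_le ((v.map_add _ _).trans (max_le
        ((v.map_add _ _).trans (max_le ((v.map_add _ _).trans (max_le ?_ ?_)) ?_)) ?_)) ?_)
      · rw [map_mul, Valuation.map_neg, map_mul, show (6 : ℂ) = 2 * 3 by norm_num, map_mul, hv3,
          hv2, hvT, mul_one]
        calc r ^ 4 * r⁻¹ * v (co m (s * s)) ≤ r ^ 4 * r⁻¹ * 1 := mul_le_mul_right hss _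
          _ = r ^ 3 := by
            rw [mul_one, show (4 : ℕ) = 3 + 1 from rfl, pow_succ, mul_assoc,
              mul_inv_cancel₀ hr0, mul_one]
          _ ≤ r ^ 2 := hr32
      · rw [map_mul, Valuation.map_neg, hv2]
        calc r ^ 4 * v (co m (s * (s * s))) ≤ r ^ 4 * 1 := mul_le_mul_right hsss _
          _ = r ^ 4 := mul_one _
          _ ≤ r ^ 2 := hr42
      · rw [map_mul]
        calc v b * v (co m (s * s)) ≤ r ^ 2 * 1 := mul_le_mul' hb hss
          _ = r ^ 2 := mul_one _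
      · exact htt
      · rw [map_mul, Valuation.map_neg, hc, one_mul]
        exact hR.trans hr42
    have h4 : v (co m s) ≤ 1 := le_of_mul_le_mul_left h3 (zero_lt_iff.2 (pow_ne_zero _ hr0))
    rw [hs, co_sub_C_pos t T m hm0] at h4
    exact h4

end Pool.Agent.Helper26K9.QA
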