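import Pool.Agent.Helper26K9.QA.Stm

/-!
# Integrality of the points of odd order ([INT])
-/

set_option autoImplicit false
set_option linter.unusedSectionVars false

open scoped PeriodPair

namespace Pool.Agent.Helper26K9.QA

open H667R3 Pool.Agent.TH936.CW Pool.Agent.Y690.NV Pool.Agent.Y690.AW Pool.Agent.W192.HK
open Pool.Agent.Helper26K9.XO Pool.Agent.Helper26K9.QT

namespace IntL

variable {L : PeriodPair} (hL : CM L) (g2 : L.g₂ = -1) {b c X : ℂ} (hb : b ^ 2 = 12 * X)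
  (hbc : b * c = 6 * X ^ 2 + 1 / 2) (hc : c ^ 2 = 4 * X ^ 3 + X)

include hL g2 in
lemma wsq0 {w : ℂ} (hw : w ∉ L.lattice) : ℘'[L] w ^ 2 = 4 * ℘[L] w ^ 3 + ℘[L] w := by
  have h := curve hL g2 hw
  unfold Xi at h
  linear_combination h / 2

include hL g2 hb hbc hc in
lemma wsq {w : ℂ} (hw : w ∉ L.lattice) : ℘'[L] w ^ 2 =
    4 * (℘[L] w - X) ^ 3 + b ^ 2 * (℘[L] w - X) ^ 2 + 2 * (b * c) * (℘[L] w - X) + c ^ 2 := by
  have h := wsq0 hL g2 hw
  linear_combination h - (℘[L] w - X) ^ 2 * hb - 2 * (℘[L] w - X) * hbc - hc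

include hb hbc hc in
lemma div3 : (6 * X ^ 2 + 1 / 2) ^ 2 = 12 * X * (4 * X ^ 3 + X) := by
  linear_combination (-(b * c) - (6 * X ^ 2 + 1 / 2)) * hbc + c ^ 2 * hb + 12 * X * hc

include hL g2 hb hbc hc in
lemma dupx {w : ℂ} (hw : 2 * w ∉ L.lattice) : (℘[L] (2 * w) - X) * ℘'[L] w ^ 2 =
    (℘[L] w - X) ^ 4 - (b * c * (℘[L] w - X) ^ 2 + 2 * c ^ 2 * (℘[L] w - X)) := by
  have hw' := two_mul_notMem_of L hw
  have h1 := wp_two L hw
  have h2 := wsq0 hL g2 hw'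
  have h3 := wp'_ne_zero L hw
  have h5 := div3 hb hbc hc
  rw [g2] at h1
  have h4 : ℘[L] (2 * w) * (4 * ℘'[L] w ^ 2) = -2 * ℘[L] w * (4 * ℘'[L] w ^ 2) +
      (6 * ℘[L] w ^ 2 - -1 / 2) ^ 2 := by
    rw [h1]
    field_simp
  linear_combination h4 / 4 - (2 * ℘[L] w + X) * h2 + h5 / 4 +
    (℘[L] w - X) ^ 2 * hbc + 2 * (℘[L] w - X) * hc

section val

variable {Γ : Type} [LinearOrderedCommGroupWithZero Γ] {v : Valuation ℂ Γ} {ρ : ℂ}
  (hρ : ρ ^ 4 = 2) (hr : v ρ < 1) (vb : v b ≤ 1) (vc : v c ≤ 1)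

include hL g2 hb hbc hc hρ hr vb vc in
lemma big_step {w : ℂ} (hw : OT L w) (h : 1 < v (℘[L] w - X)) :
    v (℘[L] w - X) < v (℘[L] (2 * w) - X) := by
  have h0 := congrArg v (dupx hL g2 hb hbc hc hw.two.1)
  rw [map_mul, map_pow, Et_eq hL g2 hρ hr hw, one_pow, mul_one] at h0
  have h24 : v (℘[L] w - X) ^ 2 < v ((℘[L] w - X) ^ 4) := by
    rw [map_pow]
    exact pow_lt_pow_right₀ h (by norm_num)
  have h12 : v (℘[L] w - X) ≤ v (℘[L] w - X) ^ 2 := le_self_pow₀ h.le two_ne_zero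
  have h2 : v (2 : ℂ) ≤ 1 := by exact_mod_cast v_nat v 2
  have h1 : v (b * c * (℘[L] w - X) ^ 2 + 2 * c ^ 2 * (℘[L] w - X)) < v ((℘[L] w - X) ^ 4) := by
    refine lt_of_le_of_lt ((v.map_add _ _).trans (max_le ?_ ?_)) h24
    · rw [map_mul, map_mul, map_pow]
      exact mul_le_of_le_one_left' (mul_le_one' vb vc)
    · rw [map_mul, map_mul, map_pow]
      refine le_trans ?_ h12
      exact mul_le_of_le_one_left' (mul_le_one' h2 (pow_le_one' vc 2))
  rw [Valuation.map_sub_eq_of_lt_left v h1, map_pow] at h0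
  rw [h0]
  exact lt_self_pow₀ h (by norm_num)

include hL g2 hb hbc hc hρ hr vb vc in
lemma x_le {w : ℂ} (hw : OT L w) : v (℘[L] w - X) ≤ 1 := by
  by_contra hcon
  push Not at hcon
  have h1 : ∀ n : ℕ, v (℘[L] w - X) ≤ v (℘[L] (2 ^ n * w) - X) ∧
      v (℘[L] (2 ^ n * w) - X) < v (℘[L] (2 ^ (n + 1) * w) - X) := by
    intro n
    induction n with
    | zero =>
      rw [pow_zero, one_mul, zero_add, pow_one]
      exact ⟨le_rfl, big_step hL g2 hb hbc hc hρ hr vb vc hw hcon⟩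
    | succ n ih =>
      have h2 : v (℘[L] w - X) ≤ v (℘[L] (2 ^ (n + 1) * w) - X) := ih.1.trans ih.2.le
      refine ⟨h2, ?_⟩
      have h3 := big_step hL g2 hb hbc hc hρ hr vb vc (hw.pow (n + 1)) (hcon.trans_le h2)
      rwa [← mul_assoc, ← pow_succ'] at h3
  obtain ⟨d, hd, hd2⟩ := hw.per
  obtain ⟨k, rfl⟩ : ∃ k, d = k + 1 := ⟨d - 1, by omega⟩
  have h2 := (h1 k).1.trans_lt (h1 k).2
  have h3 := Xi_per hd2
  unfold Xi at h3
  rw [mul_left_cancel₀ two_ne_zero h3] at h2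
  exact lt_irrefl _ h2

/-- a root of a monic quadratic polynomial with integral coefficients -/
lemma quad_le {y s m : ℂ} (h : y ^ 2 + s * y = m) (hs : v s ≤ 1) (hm : v m ≤ 1) : v y ≤ 1 := by
  by_contra hcon
  push Not at hcon
  have h1 : v (s * y) < v (y ^ 2) := by
    rw [map_mul, map_pow]
    calc v s * v y ≤ v y := mul_le_of_le_one_left' hs
      _ < v y ^ 2 := lt_self_pow₀ hcon (by norm_num)
  have h2 := congrArg v h
  rw [Valuation.map_add_eq_of_lt_left v h1, map_pow] at h2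
  have h3 : 1 < v y ^ 2 := one_lt_pow₀ hcon two_ne_zero
  rw [h2] at h3
  exact lt_irrefl _ (h3.trans_le hm)

include hL g2 hb hbc hc in
lemma weq {w y : ℂ} (hw : w ∉ L.lattice) (hy : 2 * y = ℘'[L] w - (b * (℘[L] w - X) + c)) :
    y ^ 2 + b * (℘[L] w - X) * y + c * y = (℘[L] w - X) ^ 3 := by
  have h1 := wsq hL g2 hb hbc hc hw
  have h2 : 4 * (y ^ 2 + b * (℘[L] w - X) * y + c * y) = 4 * (℘[L] w - X) ^ 3 := by
    linear_combination h1 + (2 * y + ℘'[L] w + (b * (℘[L] w - X) + c)) * hy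
  exact mul_left_cancel₀ (by norm_num) h2

include hL g2 hb hbc hc hρ hr vb vc in
lemma y_le {w y : ℂ} (hw : OT L w) (hy : 2 * y = ℘'[L] w - (b * (℘[L] w - X) + c)) :
    v y ≤ 1 := by
  have h1 := weq hL g2 hb hbc hc hw.1 hy
  have h2 := x_le hL g2 hb hbc hc hρ hr vb vc hw
  refine quad_le (s := b * (℘[L] w - X) + c) (m := (℘[L] w - X) ^ 3) ?_ ?_ ?_
  · linear_combination h1
  · refine (v.map_add _ _).trans (max_le ?_ vc)
    rw [map_mul]
    exact mul_le_one' vb h2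
  · rw [map_pow]
    exact pow_le_one' h2 3

include hL g2 hb hbc hc hρ hr vb vc in
lemma g_step {q w : ℂ} (hw : OT L w) : ∃ e : ℂ, v e ≤ 1 ∧
    E1 L 0 q (2 * w) + b / 2 = 2 * (E1 L 0 q w + b / 2) + e := by
  have h1 := E1_dup (q := q) hw.two.1
  have h2 := wp'_ne_zero L hw.two.1
  obtain ⟨y, hy⟩ : ∃ y, y = (℘'[L] w - (b * (℘[L] w - X) + c)) / 2 := ⟨_, rfl⟩
  have hy' : 2 * y = ℘'[L] w - (b * (℘[L] w - X) + c) := by rw [hy]; ring
  have hvy := y_le hL g2 hb hbc hc hρ hr vb vc hw hy'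
  have hvx := x_le hL g2 hb hbc hc hρ hr vb vc hw
  have h3 : v (3 : ℂ) ≤ 1 := by exact_mod_cast v_nat v 3
  refine ⟨(3 * (℘[L] w - X) ^ 2 - b * y) / ℘'[L] w, ?_, ?_⟩
  · rw [map_div₀, Et_eq hL g2 hρ hr hw, div_one]
    refine (v.map_sub _ _).trans (max_le ?_ ?_)
    · rw [map_mul, map_pow]
      exact mul_le_one' h3 (pow_le_one' hvx 2)
    · rw [map_mul]
      exact mul_le_one' vb hvy
  · have h4 : 2 * (3 * (℘[L] w - X) ^ 2 - b * y) = 6 * ℘[L] w ^ 2 + 1 / 2 - b * ℘'[L] w := by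
      linear_combination (-b) * hy' + (℘[L] w - X) * hb + hbc
    have h5 : (3 * (℘[L] w - X) ^ 2 - b * y) / ℘'[L] w =
        (6 * ℘[L] w ^ 2 + 1 / 2) / (2 * ℘'[L] w) - b / 2 := by
      have h6 : 3 * (℘[L] w - X) ^ 2 - b * y = (6 * ℘[L] w ^ 2 + 1 / 2 - b * ℘'[L] w) / 2 := by
        rw [← h4]; ring
      rw [h6]
      field_simp
    rw [h1, g2, h5]
    ring

include hL g2 hb hbc hc hρ hr vb vc in
lemma g_le {q w : ℂ} (hq : ∀ l ∈ L.lattice, eta L l = 0 * l + q * (starRingEnd ℂ) l)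
    (hw : OT L w) : v (E1 L 0 q w + b / 2) ≤ 1 := by
  by_contra hcon
  push Not at hcon
  have h1 : ∀ n : ℕ, v (E1 L 0 q (2 ^ n * w) + b / 2) ≤
      max (v 2 ^ n * v (E1 L 0 q w + b / 2)) 1 := by
    intro n
    induction n with
    | zero => rw [pow_zero, one_mul, pow_zero, one_mul]; exact le_max_left _ _
    | succ n ih =>
      obtain ⟨e, he, he2⟩ := g_step (q := q) hL g2 hb hbc hc hρ hr vb vc (hw.pow n)
      rw [pow_succ' (2 : ℂ) n, mul_assoc, he2]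
      refine (v.map_add _ _).trans (max_le ?_ (he.trans (le_max_right _ _)))
      rw [map_mul]
      calc v 2 * v (E1 L 0 q (2 ^ n * w) + b / 2) ≤
          v 2 * max (v 2 ^ n * v (E1 L 0 q w + b / 2)) 1 := mul_le_mul_right ih _
        _ ≤ max (v 2 ^ (n + 1) * v (E1 L 0 q w + b / 2)) 1 := by
            rcases le_total (v 2 ^ n * v (E1 L 0 q w + b / 2)) 1 with h | h
            · rw [max_eq_right h, mul_one]
              refine le_trans ?_ (le_max_right _ _)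
              exact_mod_cast v_nat v 2
            · rw [max_eq_left h, ← mul_assoc, ← pow_succ']
              exact le_max_left _ _
  obtain ⟨d, hd, hd2⟩ := hw.per
  have h2 := h1 d
  rw [E1_per' hq hw.1 hd2] at h2
  rcases le_total (v 2 ^ d * v (E1 L 0 q w + b / 2)) 1 with h | h
  · rw [max_eq_right h] at h2
    exact lt_irrefl _ (h2.trans_lt hcon)
  · rw [max_eq_left h] at h2
    have h3 : v 2 ^ d * v (E1 L 0 q w + b / 2) < 1 * v (E1 L 0 q w + b / 2) := by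
      refine mul_lt_mul_of_pos_right ?_ (zero_lt_one.trans hcon)
      refine pow_lt_one₀ zero_le ?_ hd.ne'
      rw [v_two hρ]
      exact pow_lt_one' hr (by norm_num)
    rw [one_mul] at h3
    exact lt_irrefl _ (h2.trans_lt h3)

end val

end IntL

theorem int : S_Q3R → S_INT := by
  intro hq3 L q z Q hL g2 hq hz h3z hQ Γ _ v ρ hρ hr b c x₀ y₀ g₀ hb hc hx hy hg
  obtain ⟨h1, h2⟩ := hq3 L q z hL g2 hq hz.1 h3z
  rw [← hb] at h1 h2
  rw [← hc] at h2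
  have h3 : c ^ 2 = 4 * ℘[L] z ^ 3 + ℘[L] z := by
    rw [hc]
    exact IntL.wsq0 hL g2 hz.1
  have vc : v c ≤ 1 := by rw [hc, Et_eq hL g2 hρ hr hz]
  have vb : v b ≤ 1 := by
    by_contra hcon
    push Not at hcon
    have h4 : 1 < v b ^ 2 := one_lt_pow₀ hcon two_ne_zero
    have h5 : b ^ 2 = 6 * Xi L z := by
      unfold Xi
      rw [h1]; ring
    have h6 := congrArg v h5
    rw [map_pow, map_mul, Xi_eq hL g2 hρ hr hz, mul_one] at h6
    have h7 : v (6 : ℂ) ≤ 1 := by exact_mod_cast v_nat v 6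
    rw [h6] at h4
    exact lt_irrefl _ (h4.trans_le h7)
  subst hx
  refine ⟨IntL.weq hL g2 h1 h2 h3 hQ.1 hy, IntL.x_le hL g2 h1 h2 h3 hρ hr vb vc hQ,
    IntL.y_le hL g2 h1 h2 h3 hρ hr vb vc hQ hy, ?_⟩
  rw [hg]
  exact IntL.g_le hL g2 h1 h2 h3 hρ hr vb vc hq hQ

end Pool.Agent.Helper26K9.QA
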