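import Pool.Agent.Helper26K9.QA.Stm

/-!
# Quartic twists, all weights: the isogeny `1 + i`
-/

set_option autoImplicit false
set_option linter.unusedSectionVars false

open scoped PeriodPair

namespace Pool.Agent.Helper26K9.QA

open H667R3 Pool.Agent.TH936.CW Pool.Agent.Y690.NV Pool.Agent.Y690.AW Pool.Agent.W192.HK
open Pool.Agent.TH936.CM (IsLat out_sub)
open Pool.Agent.Helper26K9.XO Pool.Agent.Helper26K9.QT
open Complex (I)

namespace IsoL

variable {R : Subring ℂ} (hR : ∀ z : ℂ, z ∈ R ↔ ∃ x y : ℤ, z = x + y * I)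

lemma mu_coe : ((1 + ii hR : R) : ℂ) = 1 + I := by
  push_cast
  rw [ii_coe]

lemma opI_ne : (1 + I : ℂ) ≠ 0 := by
  intro h
  have := congrArg Complex.re h
  simp at this

lemma mu_ne : (1 + ii hR : R) ≠ 0 := by
  intro h
  apply opI_ne
  rw [← mu_coe hR, h]
  rfl

lemma one_notMem : (1 : R) ∉ sp (1 + ii hR) := by
  intro h
  rw [Ideal.mem_span_singleton'] at h
  obtain ⟨a, ha⟩ := h
  obtain ⟨c, d, rfl⟩ := exists_xy hR a
  have h1 := congrArg Subtype.val ha
  have h2 : ((c - d : ℤ) : ℂ) + ((c + d : ℤ) : ℂ) * I = ((1 : ℤ) : ℂ) + ((0 : ℤ) : ℂ) * I := by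
    rw [Subring.coe_mul, mkz_coe, mu_coe] at h1
    have h3 : ((1 : R) : ℂ) = 1 := rfl
    rw [h3] at h1
    push_cast
    linear_combination h1 - (d : ℂ) * Complex.I_sq
  obtain ⟨h3, h4⟩ := mkz_inj h2
  omega

open Classical in
/-- the two classes modulo `1 + i` -/
lemma sum_cls [Fintype (R ⧸ sp (1 + ii hR))] (f : R ⧸ sp (1 + ii hR) → ℂ) :
    ∑ y, f y = f 0 + f 1 := by
  have h01 : (0 : R ⧸ sp (1 + ii hR)) ≠ 1 := by
    intro h
    apply one_notMem hR
    rw [← Ideal.Quotient.eq_zero_iff_mem, map_one]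
    exact h.symm
  have hu : (Finset.univ : Finset (R ⧸ sp (1 + ii hR))) = {0, 1} := by
    ext y
    simp only [Finset.mem_univ, Finset.mem_insert, Finset.mem_singleton, true_iff]
    obtain ⟨r, rfl⟩ := Ideal.Quotient.mk_surjective y
    rcases even_or hR r with ⟨a, b, hab, rfl⟩ | ⟨z, rfl⟩
    · right
      obtain ⟨z, hz⟩ := even_div hR (a - 1) b (by omega)
      have h1 : mkz hR a b - 1 ∈ sp (1 + ii hR) := by
        have e1 : mkz hR a b - 1 = (1 + ii hR) * z := by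
          rw [← hz, mkz_one hR, mkz_sub, sub_zero]
        rw [e1]
        exact Ideal.mul_mem_right _ _ (Ideal.mem_span_singleton_self _)
      rw [← sub_eq_zero, ← map_one (Ideal.Quotient.mk (sp (1 + ii hR))), ← map_sub]
      exact Ideal.Quotient.eq_zero_iff_mem.mpr h1
    · left
      exact Ideal.Quotient.eq_zero_iff_mem.mpr
        (Ideal.mul_mem_right _ _ (Ideal.mem_span_singleton_self _))
  rw [hu, Finset.sum_pair h01]

lemma gm_opI (e : ℕ) : gm e (1 + I) = (1 + I) * I ^ e := by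
  have hc : (starRingEnd ℂ) (1 + I) = 1 - I := by
    rw [map_add, map_one, Complex.conj_I]
    ring
  have h1 : (1 - I : ℂ) ≠ 0 := by
    intro h
    have := congrArg Complex.re h
    simp at this
  have h2 : (1 + I : ℂ) = I * (1 - I) := by
    linear_combination (1 : ℂ) * Complex.I_sq
  rw [gm_eq, hc, div_eq_iff (pow_ne_zero _ h1), pow_succ]
  have h3 : (1 + I : ℂ) ^ e = I ^ e * (1 - I) ^ e := by rw [← mul_pow, ← h2]
  rw [h3]
  ring

end IsoL

open IsoL in
theorem iso : S_ISO := by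
  intro hbasic R hR L q Ω hL hCM g2 hq hT e Q hQ
  set T : ℂ := Ω / (2 + 2 * I) with hTdef
  have hΩ := hL.ne
  have hopI := opI_ne
  have h22 : (2 + 2 * I : ℂ) ≠ 0 := by
    have : (2 + 2 * I : ℂ) = 2 * (1 + I) := by ring
    rw [this]
    exact mul_ne_zero two_ne_zero hopI
  have hT2 : Ω = T * (2 + 2 * I) := by
    rw [hTdef]
    field_simp
  obtain ⟨hQ1, N, hN, hNQ⟩ := hQ
  have hmul : ∀ z ∈ L.lattice, (1 + I) * z ∈ L.lattice := by
    intro z hz
    have := hL.mul (1 + ii hR) z hz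
    rwa [mu_coe] at this
  have hmul' : ∀ z ∈ L.lattice, (1 - I) * z ∈ L.lattice := by
    intro z hz
    have := hL.mul (1 - ii hR) z hz
    have e1 : ((1 - ii hR : R) : ℂ) = 1 - I := by
      push_cast
      rw [ii_coe]
    rwa [e1] at this
  have hOT : OT L ((1 + I) * Q) := by
    refine ⟨fun h => ?_, N, hN, ?_⟩
    · have h1 := hmul' _ h
      have h2 : (1 - I) * ((1 + I) * Q) = 2 * Q := by
        linear_combination (-Q) * Complex.I_sq
      rw [h2] at h1
      exact (OT.two ⟨hQ1, N, hN, hNQ⟩).1 h1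
    · have h1 := hmul _ hNQ
      have h2 : (1 + I) * ((N : ℂ) * Q) = (N : ℂ) * ((1 + I) * Q) := by ring
      rwa [h2] at h1
  refine ⟨?_, hOT⟩
  have hQ : OT L Q := ⟨hQ1, N, hN, hNQ⟩
  have hμ := mu_ne hR
  have hfin : Finite (R ⧸ sp (1 + ii hR)) := by
    obtain ⟨b1, -⟩ := hbasic R I (qr hR)
    exact b1 _ (by rwa [Ne, Ideal.span_singleton_eq_bot])
  have := Fintype.ofFinite (R ⧸ sp (1 + ii hR))
  have hμz : ((1 + ii hR : R) : ℂ) * (T + Q) = Ω / 2 + (1 + I) * Q := by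
    rw [mu_coe, hT2]
    ring
  have hz : ((1 + ii hR : R) : ℂ) * (T + Q) ∉ L.lattice := by
    rw [hμz]
    intro h
    have h1 := nsmul_mem h N
    rw [nsmul_eq_mul] at h1
    obtain ⟨-, N', -, -⟩ := hOT
    have h2 := hmul _ hNQ
    have h3 := sub_mem h1 h2
    have h4 : (N : ℂ) * (Ω / 2 + (1 + I) * Q) - (1 + I) * ((N : ℂ) * Q) = N * (Ω / 2) := by ring
    rw [h4] at h3
    obtain ⟨r, hr⟩ := (hL.mem _).1 h3
    obtain ⟨x, y, hxy⟩ := (hR r).1 r.2
    have h5 : ((N : ℤ) : ℂ) + ((0 : ℤ) : ℂ) * I = ((2 * x : ℤ) : ℂ) + ((2 * y : ℤ) : ℂ) * I := by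
      have h6 : Ω * ((N : ℂ) - 2 * (x + y * I)) = 0 := by
        rw [hxy] at hr
        linear_combination 2 * hr
      have h7 := (mul_eq_zero.mp h6).resolve_left hΩ
      push_cast
      linear_combination h7
    obtain ⟨h6, -⟩ := mkz_inj h5
    obtain ⟨k, hk⟩ := hN
    omega
  have hNz : ((4 * N : ℕ) : ℂ) * (T + Q) ∈ L.lattice := by
    have h1 := nsmul_mem hT.fo N
    have h2 := nsmul_mem hNQ 4
    rw [nsmul_eq_mul] at h1 h2
    have h3 := add_mem h1 h2
    convert h3 using 1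
    push_cast
    ring
  have key := ek_dist hCM hq hL e (1 + ii hR) hμ hz (N := 4 * N) (by
    have := hN.pos
    omega) hNz
  rw [sum_cls hR, hμz, mu_coe, gm_opI] at key
  rw [← key]
  have h0 : (0 : R ⧸ sp (1 + ii hR)).out ∈ sp (1 + ii hR) := by
    have := out_sub (sp (1 + ii hR)) 0
    rwa [map_zero, sub_zero] at this
  have h1 : (1 : R ⧸ sp (1 + ii hR)).out - 1 ∈ sp (1 + ii hR) := by
    have := out_sub (sp (1 + ii hR)) 1
    rwa [map_one] at this
  have h0' := (lat_dm_iff hL _ hμ _).2 h0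
  have h1' := (lat_dm_iff hL _ hμ _).2 h1
  rw [mu_coe] at h0' h1'
  congr 1
  · symm
    refine ek_per hq e (hT.add hQ) ?_
    rwa [add_sub_cancel_left]
  · symm
    refine ek_per hq e (hT.neg.add hQ) ?_
    have h2 := add_mem hT.fo h1'
    convert h2 using 1
    have e1 : (((1 : R ⧸ sp (1 + ii hR)).out - 1 : R) : ℂ) =
        ((1 : R ⧸ sp (1 + ii hR)).out : ℂ) - 1 := rfl
    rw [e1]
    have e2 : Ω / (1 + I) = 2 * T := by
      rw [hTdef]
      field_simp
    have e3 : Ω * (((1 : R ⧸ sp (1 + ii hR)).out : ℂ) - 1) / (1 + I) =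
        Ω * ((1 : R ⧸ sp (1 + ii hR)).out : ℂ) / (1 + I) - Ω / (1 + I) := by ring
    rw [e3, e2]
    ring

end Pool.Agent.Helper26K9.QA
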