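import Pool.Agent.Helper26K9.QA.Stm
import Pool.Agent.Y690.X.Thm

/-!
# The values at the base point do not vanish
-/

set_option autoImplicit false
set_option linter.unusedVariables false

open scoped PeriodPair

namespace Pool.Agent.Helper26K9.QA

open H667R3 Pool.Agent.TH936.CW Pool.Agent.Y690.NV Pool.Agent.Y690.AW Pool.Agent.W192.HK
open Pool.Agent.TH936.CM (IsLat out_sub)
open Pool.Agent.Helper26K9.XO Pool.Agent.Helper26K9.QT
open Complex (I)

theorem nve : S_NVE := by
  intro R hR L q Ω hL hCM g2 hq hT e he h2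
  obtain ⟨V, hV⟩ := exists_V
  obtain ⟨ρ, hρ⟩ : ∃ ρ : ℂ, ρ ^ 4 = 2 := IsAlgClosed.exists_pow_nat_eq 2 (by norm_num)
  have hv2 : V.valuation ρ ^ 4 = V.valuation 2 := by rw [← map_pow, hρ]
  have hr : V.valuation ρ < 1 := by
    by_contra hcon
    push Not at hcon
    have h3 := one_le_pow_of_one_le' hcon 4
    rw [hv2] at h3
    exact absurd hV (not_lt.mpr h3)
  have hρ0 : ρ ≠ 0 := by
    rintro rfl
    norm_num at hρ
  have hpos : (0 : V.ValueGroup) < V.valuation ρ :=
    zero_lt_iff.mpr ((Valuation.ne_zero_iff _).mpr hρ0)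
  have hm : e = 4 * (e / 4) ∨ e = 4 * (e / 4) + 1 := by omega
  have h3 := est_base (v := V.valuation) hρ hr g2 hT (e / 4) e hm
  rw [h2, mul_zero, mul_zero, map_zero] at h3
  exact (pow_pos hpos _).ne h3

end Pool.Agent.Helper26K9.QA
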