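import Pool.Agent.Helper26K9.QA.Stm

/-!
# The points of order three
-/

set_option autoImplicit false
set_option linter.unusedVariables false

open scoped PeriodPair

namespace Pool.Agent.Helper26K9.QA

open H667R3 Pool.Agent.TH936.CW Pool.Agent.Y690.NV Pool.Agent.Y690.AW Pool.Agent.W192.HK
open Pool.Agent.TH936.CM (IsLat out_sub)
open Pool.Agent.Helper26K9.XO Pool.Agent.Helper26K9.QT
open Complex (I)

theorem q3r : S_Q3R := by
  intro L q z hCM g2 hq hz h3
  have h2z : 2 * z ∉ L.lattice := by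
    intro h
    apply hz
    have := sub_mem h3 h
    convert this using 1
    ring
  have hnz : -z ∉ L.lattice := fun h => hz (by have := neg_mem h; rwa [neg_neg] at this)
  have hE : E1 L 0 q (2 * z) = -E1 L 0 q z := by
    rw [← E1_neg]
    refine E1_per' hq hnz ?_
    convert h3 using 1
    ring
  have hP : ℘[L] (2 * z) = ℘[L] z := by
    have h := L.weierstrassP_add_coe (-z) ⟨3 * z, h3⟩
    rw [L.weierstrassP_neg] at h
    rw [← h]
    congr 1
    show 2 * z = -z + 3 * z
    ring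
  have hy := wp'_ne_zero L h2z
  have e1 := E1_dup (q := q) h2z
  have e2 := wp_two L h2z
  rw [hE, g2] at e1
  rw [hP, g2] at e2
  have e3 : (-6 * E1 L 0 q z) * ℘'[L] z = 6 * ℘[L] z ^ 2 + 1 / 2 := by
    have h4 : -3 * E1 L 0 q z = (6 * ℘[L] z ^ 2 - -1 / 2) / (2 * ℘'[L] z) := by
      linear_combination e1
    rw [eq_div_iff (mul_ne_zero two_ne_zero hy)] at h4
    linear_combination h4
  refine ⟨?_, e3⟩
  have hy2 : ℘'[L] z ^ 2 ≠ 0 := pow_ne_zero 2 hy
  refine mul_left_cancel₀ hy2 ?_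
  have e4 : (-6 * E1 L 0 q z) ^ 2 * ℘'[L] z ^ 2 = (6 * ℘[L] z ^ 2 + 1 / 2) ^ 2 := by
    rw [← e3]; ring
  field_simp at e2
  linear_combination e4 - (1 / 4) * e2

end Pool.Agent.Helper26K9.QA
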