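import Pool.Agent.Helper26K9.QT.Res

/-!
# Quartic twists, all weights: the leaves

Everything is about the formal power series `E, X, Y, G, P` (coordinates `E1, ℘, ℘' / 2, g₂ / 12` and
a gauge `P`) along the Serre–Ramanujan flow `WF`, and about the same flow in the coordinates of an
integral Weierstrass equation `y² + a1 x y + a3 y = x³ + a2 x² + a4 x + a6` (`Fr`, `Pn`).
All the polynomial identities below have been checked by machine.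
-/

set_option autoImplicit false
set_option linter.unusedVariables false

open scoped PeriodPair

namespace Pool.Agent.Helper26K9.QA

open H667R3 Pool.Agent.TH936.CW Pool.Agent.Y690.NV Pool.Agent.Y690.AW Pool.Agent.W192.HK
open Pool.Agent.TH936.CM (IsLat out_sub)
open Pool.Agent.Helper26K9.XO Pool.Agent.Helper26K9.QT
open Complex (I)

/-- formal power series -/
abbrev Se : Type := PowerSeries ℂ

/-- the derivative -/
noncomputable abbrev dv : Derivation ℂ Se Se := PowerSeries.derivative ℂ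

/-- the coefficients -/
noncomputable abbrev co (n : ℕ) (f : Se) : ℂ := PowerSeries.coeff n f

/-- the Weierstrass flow -/
structure WF (E X Y G P : Se) : Prop where
  e : dv E = 2 * (P * E - E * X - Y)
  x : dv X = 2 * (2 * E * Y + 2 * X ^ 2 - 4 * G + 2 * P * X)
  y : dv Y = 2 * (3 * X * Y + E * (3 * X ^ 2 - 3 * G) + 3 * P * Y)
  g : dv G = 2 * (2 * (X ^ 3 - 3 * G * X - Y ^ 2) + 4 * P * G)
  p : dv P = 2 * (P ^ 2 - G)

/-- the flow of the coefficients, and of a point of order two: `u = 1 / x'`, `t = - y' / x'` -/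
structure Fr (a1 a2 a3 a4 a6 t u : Se) : Prop where
  d1 : dv a1 = 2 * a3
  d2 : dv a2 = 2 * a4
  d3 : dv a3 = 0
  d4 : dv a4 = 2 * (a3 ^ 2 + 6 * a6)
  d6 : dv a6 = 2 * (a1 ^ 2 * a6 + 4 * a2 * a6 - a1 * a3 * a4 + a2 * a3 ^ 2 - a4 ^ 2)
  dt : dv t = -(a3 * (1 + 2 * a2 * u + a4 * u ^ 2 + a1 * t * u))
  du : dv u = -(2 * (2 + 2 * a2 * u + a4 * u ^ 2 + a1 * t * u))

/-- the flow of the coordinates of a point, `g = E1 + a1 / 2` -/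
structure Pn (a1 a2 a3 a4 x Y g : Se) : Prop where
  dx : dv x = 2 * (g * (2 * Y + a1 * x + a3) + 2 * x ^ 2 + 2 * a2 * x + a4 - a1 * Y)
  dy : dv Y = 2 * (g * (3 * x ^ 2 + 2 * a2 * x + a4 - a1 * Y) + 3 * x * Y + 2 * a2 * Y +
    a1 ^ 2 * Y - a1 * x ^ 2 + a3 * x - a1 * a2 * x + a2 * a3 - a1 * a4)
  dg : dv g = -(2 * (g * x + Y))

/-- **[ODE]** differential equations with a causal right-hand side have solutions.
Proof: put `s₀ = C a`, `s (m + 1) i = C (a i) + ∫ F (s m) i` (`∫ f` = the series with coefficients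
`0, co 0 f / 1, co 1 f / 2, ...`).  By `hF` and induction `X ^ (m + 1) ∣ s (m + 1) i - s m i`
(integration gains one power of `X`).  Take the series with coefficients `k ↦ co k (s (k + 1) i)`. -/
def S_ODE : Prop := ∀ (n : ℕ) (F : (Fin n → Se) → Fin n → Se),
  (∀ (k : ℕ) (s r : Fin n → Se), (∀ i, (PowerSeries.X : Se) ^ k ∣ s i - r i) →
    ∀ i, (PowerSeries.X : Se) ^ k ∣ F s i - F r i) →
  ∀ a : Fin n → ℂ, ∃ s : Fin n → Se, (∀ i, co 0 (s i) = a i) ∧ ∀ i, dv (s i) = F s i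

/-- **[EXF]** (from ODE with `n = 7`; the divisibility for polynomials: map to the quotient ring
`Se ⧸ span {X ^ k}`, or `sub_dvd` lemmas). -/
def S_EXF : Prop := ∀ b c t₀ u₀ : ℂ, ∃ a1 a2 a3 a4 a6 t u : Se, Fr a1 a2 a3 a4 a6 t u ∧
  co 0 a1 = b ∧ co 0 a2 = 0 ∧ co 0 a3 = c ∧ co 0 a4 = 0 ∧ co 0 a6 = 0 ∧ co 0 t = t₀ ∧ co 0 u = u₀

/-- **[EXP]** (from ODE with `n = 3`, the series `a1, ..., a4` are fixed). -/
def S_EXP : Prop := ∀ (a1 a2 a3 a4 : Se) (x₀ y₀ g₀ : ℂ), ∃ x Y g : Se, Pn a1 a2 a3 a4 x Y g ∧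
  co 0 x = x₀ ∧ co 0 Y = y₀ ∧ co 0 g = g₀

/-- **[LIN]** uniqueness for a linear equation: all the coefficients vanish, by strong induction
(`(k + 1) * co (k + 1) f = co k (dv f) = co k (c * f)`). -/
def S_LIN : Prop := ∀ c f : Se, dv f = c * f → co 0 f = 0 → f = 0

/-- **[REL]** `Z1 = 2 t - a1 - a3 u` has `dv Z1 = 0`; then `Z2 = u t² + 1 + a2 u + a4 u² + a6 u³` has
`dv Z2 = (2 a1² - 6 a1 t - 4 a2 - 6 a4 u) Z2` (substitute `a1 = 2 t - a3 u`).  (from LIN) -/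
def S_REL : Prop := ∀ a1 a2 a3 a4 a6 t u : Se, Fr a1 a2 a3 a4 a6 t u →
  co 0 (2 * t - a1 - a3 * u) = 0 →
  co 0 (u * t ^ 2 + 1 + a2 * u + a4 * u ^ 2 + a6 * u ^ 3) = 0 →
  2 * t = a1 + a3 * u ∧ u * t ^ 2 + 1 + a2 * u + a4 * u ^ 2 + a6 * u ^ 3 = 0

/-- **[REP]** `Δ = a6 - (Y² + a1 x Y + a3 Y - x³ - a2 x² - a4 x)` has
`dv Δ = 2 (a1² + 4 a2 + 6 x) Δ`.  (from LIN) -/
def S_REP : Prop := ∀ a1 a2 a3 a4 a6 t u x Y g : Se, Fr a1 a2 a3 a4 a6 t u →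
  Pn a1 a2 a3 a4 x Y g →
  co 0 (a6 - (Y ^ 2 + a1 * x * Y + a3 * Y - x ^ 3 - a2 * x ^ 2 - a4 * x)) = 0 →
  a6 = Y ^ 2 + a1 * x * Y + a3 * Y - x ^ 3 - a2 * x ^ 2 - a4 * x

/-- **[WFQ]** change of coordinates: take `dv` of the five linear relations, multiply by an integer
and `linear_combination`.  `P = b2 / 12`, `G = c4 / 144`, `b2 = a1² + 4 a2`, `b4 = 2 a4 + a1 a3`,
`c4 = b2² - 24 b4`, `c6 = - b2³ + 36 b2 b4 - 216 b6`, `b6 = a3² + 4 a6`. -/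
def S_WFQ : Prop := ∀ a1 a2 a3 a4 a6 t u x Y g E X W G P : Se, Fr a1 a2 a3 a4 a6 t u →
  Pn a1 a2 a3 a4 x Y g →
  a6 = Y ^ 2 + a1 * x * Y + a3 * Y - x ^ 3 - a2 * x ^ 2 - a4 * x →
  2 * E = 2 * g - a1 → 12 * X = 12 * x + a1 ^ 2 + 4 * a2 → 2 * W = 2 * Y + a1 * x + a3 →
  144 * G = (a1 ^ 2 + 4 * a2) ^ 2 - 24 * (2 * a4 + a1 * a3) → 12 * P = a1 ^ 2 + 4 * a2 →
  WF E X W G P ∧ 864 * (X ^ 3 - 3 * G * X - W ^ 2) = -(a1 ^ 2 + 4 * a2) ^ 3 +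
    36 * (a1 ^ 2 + 4 * a2) * (2 * a4 + a1 * a3) - 216 * (a3 ^ 2 + 4 * a6)

/-- **[WFT]** the point of order two: `X' = 1 / u + b2 / 12`. -/
def S_WFT : Prop := ∀ a1 a2 a3 a4 a6 t u X' G P : Se, Fr a1 a2 a3 a4 a6 t u → u ≠ 0 →
  2 * t = a1 + a3 * u → u * t ^ 2 + 1 + a2 * u + a4 * u ^ 2 + a6 * u ^ 3 = 0 →
  u * (12 * X' - (a1 ^ 2 + 4 * a2)) = 12 →
  144 * G = (a1 ^ 2 + 4 * a2) ^ 2 - 24 * (2 * a4 + a1 * a3) → 12 * P = a1 ^ 2 + 4 * a2 →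
  dv X' = 2 * (2 * X' ^ 2 - 4 * G + 2 * P * X') ∧
  864 * (X' ^ 3 - 3 * G * X') = -(a1 ^ 2 + 4 * a2) ^ 3 +
    36 * (a1 ^ 2 + 4 * a2) * (2 * a4 + a1 * a3) - 216 * (a3 ^ 2 + 4 * a6)

/-- **[ADDW]** the sum with a point of order two (`V` is the slope). -/
def S_ADDW : Prop := ∀ E X Y G P X' V : Se, WF E X Y G P →
  dv X' = 2 * (2 * X' ^ 2 - 4 * G + 2 * P * X') →
  X' ^ 3 - 3 * G * X' = X ^ 3 - 3 * G * X - Y ^ 2 → X - X' ≠ 0 → V * (X - X') = Y →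
  WF (E + V) (V ^ 2 - X - X') (-(Y + V * ((V ^ 2 - X - X') - X))) G P

/-- **[ALGA]** the values of all weights.  Proof: let `φ : U →ₐ[ℂ] Se` be `aeval ![E, X, Y, G]`, let
`Eu : Derivation ℂ U U` be the Euler derivation (`vE ↦ vE, vX ↦ 2 vX, vY ↦ 3 vY, vG ↦ 4 vG`).  Then
`dv (φ f) = 2 (φ (dt f) + P φ (Eu f))` (both sides are derivations, check the generators) and
`Eu (Dn n) = (2 n + 1) Dn n` (from `Dn_rec` and `Eu (dt f) = dt (Eu f) + 2 dt f`).  So `F n = φ (Dn n)`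
satisfies `dv (F (n+1)) = 2 (F (n+2) + (n+1)² G F n + (2n+3) P F (n+1))`, `dv (F 0) = 2 (F 1 + P E)`,
`dv P = 2 (P² - G)`, and by induction
`F n = ∑ k, (-1)^k (n choose k)² k! P^k δ^(n-k) E`, `δ = dv / 2`.
Take constant coefficients: `co 0 (F n) = n! * ek L 0 q n z` (`ek_eq`) and
`co 0 (δ^j E) = j! * co j E / 2^j`. -/
def S_ALGA : Prop := ∀ (L : PeriodPair) (q z : ℂ), z ∉ L.lattice → ∀ E X Y G P : Se,
  WF E X Y G P → co 0 E = E1 L 0 q z → co 0 X = ℘[L] z → co 0 Y = ℘'[L] z / 2 →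
  co 0 G = L.g₂ / 12 → ∀ n : ℕ, 2 ^ n * ek L 0 q n z =
    ∑ j ∈ Finset.range (n + 1), (n.choose j : ℂ) * (-(2 * co 0 P)) ^ (n - j) * co j E

/-- **[HUR]** the bounds of Hurwitz.  Proof: the set `H k` of the series `f` with
`v (co j f) ≤ v (2 ^ j / j!)` for all `j ≤ k` is closed under `+`, `*`, and contains the integers; by
induction on `k` all the eight series are in `H k` (`(k + 1) co (k + 1) s = co k (dv s)`, and `dv s` is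
`2 *` an integral polynomial in the series).  Finally `v (2 ^ k / k!) ≤ v 2` for `k ≥ 1`
(`2 ^ (k - 1) / k!` has odd denominator: Legendre; `v` of an odd integer is `1`). -/
def S_HUR : Prop := ∀ a1 a2 a3 a4 a6 t u x Y g : Se, Fr a1 a2 a3 a4 a6 t u →
  Pn a1 a2 a3 a4 x Y g →
  ∀ (Γ : Type) (_ : LinearOrderedCommGroupWithZero Γ) (v : Valuation ℂ Γ), v 2 < 1 →
  (∀ s ∈ ([a1, a2, a3, a4, a6, x, Y, g] : List Se), v (co 0 s) ≤ 1) →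
  ∀ s ∈ ([a1, a2, a3, a4, a6, x, Y, g] : List Se), ∀ k : ℕ, 1 ≤ k → v (co k s) ≤ v 2

/-- **[HEN]** the slope `t` of the point of order two is integral up to its constant coefficient.
Proof: strong induction on `m`, compare the coefficients of `X ^ m` in
`2 t³ - a1 t² + a3 (1 + a2 u + a4 u² + a6 u³) = 0` (`a3 u = 2 t - a1`): with `t = C t₀ + s` the
coefficient is `(6 t₀² - 2 b t₀) s_m +` terms in the `s_j`, `j < m`, of valuation at most `v ρ ^ 2`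
(`b = co 0 a1`, `co 1 a1 = 2 co 0 a3`, the other coefficients of `a1` vanish, the only terms without
`s_j` are `- 2 a3 t₀²` for `m = 1` and multiples of the coefficients of `a2, a4, a6`), and
`v (6 t₀² - 2 b t₀) = v ρ ^ 2`. -/
def S_HEN : Prop := ∀ a1 a2 a3 a4 a6 t u : Se, Fr a1 a2 a3 a4 a6 t u →
  2 * t = a1 + a3 * u → u * t ^ 2 + 1 + a2 * u + a4 * u ^ 2 + a6 * u ^ 3 = 0 →
  ∀ (Γ : Type) (_ : LinearOrderedCommGroupWithZero Γ) (v : Valuation ℂ Γ) (ρ : ℂ), ρ ^ 4 = 2 →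
  v ρ < 1 → v (co 0 a1) ≤ v ρ ^ 2 → co 0 a2 = 0 → v (co 0 a3) = 1 → co 0 a4 = 0 → co 0 a6 = 0 →
  (∀ s ∈ ([a2, a4, a6] : List Se), ∀ k : ℕ, 1 ≤ k → v (co k s) ≤ v 2) →
  v (ρ * co 0 t) = 1 → v (co 0 u) ≤ v ρ ^ 2 → ∀ m : ℕ, 1 ≤ m → v (co m t) ≤ 1

/-- **[EST]** Proof: `1 - u x` has constant coefficient a unit and the others of valuation at most
`v ρ ^ 2`, so its inverse is `C c + ε` with `c = (1 - co 0 u * co 0 x)⁻¹`, `v (c - 1) ≤ v ρ ^ 2` and all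
the coefficients of `ε` of valuation at most `v ρ ^ 2`; expand. -/
def S_EST : Prop := ∀ (t u x Y g E : Se) (Γ : Type) (_ : LinearOrderedCommGroupWithZero Γ)
  (v : Valuation ℂ Γ) (ρ : ℂ), ρ ^ 4 = 2 → v ρ < 1 → v (ρ * co 0 t) = 1 →
  (∀ k : ℕ, 1 ≤ k → v (co k t) ≤ 1) → (∀ k : ℕ, v (co k u) ≤ v ρ ^ 2) →
  (∀ k : ℕ, v (co k x) ≤ 1) → (∀ k : ℕ, v (co k Y) ≤ 1) → v (co 0 g) ≤ 1 →
  (∀ k : ℕ, 1 ≤ k → v (co k g) < 1) → (E - g) * (1 - u * x) = -(t + u * Y) →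
  (∀ k : ℕ, 1 ≤ k → v (co k E + co k t) < 1) ∧ v (ρ * co 0 E) ≤ 1

/-- **[Q3R]** the flex `z` (a point of order three): with `b = -6 E1 z`, `c = ℘' z` the tangent has slope
`b / 2`.  Proof: `E1_dup` and `2 z = 3 z - z` give `-E1 z = 2 E1 z + (6 ℘² - g₂ / 2) / (2 ℘')`, and `℘ (2 z)
= ℘ z` gives `(b / 2)² = 3 ℘ z`. -/
def S_Q3R : Prop := ∀ (L : PeriodPair) (q z : ℂ), H667R3.CM L → L.g₂ = -1 →
  (∀ l ∈ L.lattice, eta L l = 0 * l + q * (starRingEnd ℂ) l) → z ∉ L.lattice → 3 * z ∈ L.lattice →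
  (-6 * E1 L 0 q z) ^ 2 = 12 * ℘[L] z ∧
  (-6 * E1 L 0 q z) * ℘'[L] z = 6 * ℘[L] z ^ 2 + 1 / 2

/-- **[INT]** the points of odd order are integral on the model with origin in the flex `z`.
Proof: `x₀ = ℘ Q - ℘ z`, `y₀`, `b`, `c` satisfy `y₀² + b x₀ y₀ + c y₀ = x₀³` (Q3R and the equation of
`L`), `b, c` are integral, and `x (2 Q) = (x⁴ - b c x² - 2 c² x) / (4 x³ + b² x² + 2 b c x + c²)`
(`℘ (2 Q)`, `dup`): if `v x > 1` then `v (x (2 Q)) > v x`; but `2 ^ n Q - Q ∈ L` for some `n ≥ 1` (`OT.per`).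
`y₀` is integral over the ring of `v`.  `g (2 Q) = 2 g (Q) + (3 x² - b y) / (2 y + b x + c)` (`E1_dup`; the
denominator is `℘' Q`, a unit by `N1_eta`), so `(1 - 2 ^ n) g` is integral. -/
def S_INT : Prop := ∀ (L : PeriodPair) (q z Q : ℂ), H667R3.CM L → L.g₂ = -1 →
  (∀ l ∈ L.lattice, eta L l = 0 * l + q * (starRingEnd ℂ) l) → OT L z → 3 * z ∈ L.lattice →
  OT L Q → ∀ (Γ : Type) (_ : LinearOrderedCommGroupWithZero Γ) (v : Valuation ℂ Γ) (ρ : ℂ),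
  ρ ^ 4 = 2 → v ρ < 1 → ∀ b c x₀ y₀ g₀ : ℂ, b = -6 * E1 L 0 q z → c = ℘'[L] z →
  x₀ = ℘[L] Q - ℘[L] z → 2 * y₀ = ℘'[L] Q - (b * x₀ + c) → g₀ = E1 L 0 q Q + b / 2 →
  y₀ ^ 2 + b * x₀ * y₀ + c * y₀ = x₀ ^ 3 ∧ v x₀ ≤ 1 ∧ v y₀ ≤ 1 ∧ v g₀ ≤ 1

/-- **[HALF]** the point of order two `Ω / 2`. -/
def S_HALF : Prop := ∀ (R : Subring ℂ), (∀ z : ℂ, z ∈ R ↔ ∃ x y : ℤ, z = x + y * I) →
  ∀ (L : PeriodPair) (q Ω : ℂ), IsLat L R Ω → H667R3.CM L → L.g₂ = -1 →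
  (∀ l ∈ L.lattice, eta L l = 0 * l + q * (starRingEnd ℂ) l) →
  Ω / 2 ∉ L.lattice ∧ Ω / 3 ∉ L.lattice ∧ E1 L 0 q (Ω / 2) = 0 ∧ ℘'[L] (Ω / 2) = 0 ∧
  4 * ℘[L] (Ω / 2) ^ 2 + 1 = 0

/-- **[ISO]** the isogeny `1 + i` (from `ek_dist` with `μ = 1 + i`: the two classes modulo `1 + i` are `0`
and `1`, `T + Ω / (1 + i) = 3 T`, `4 T ∈ L`, `gm e (1 + i) = (1 + i) i ^ e`). -/
def S_ISO : Prop := H_BASIC → ∀ (R : Subring ℂ), (∀ z : ℂ, z ∈ R ↔ ∃ x y : ℤ, z = x + y * I) →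
  ∀ (L : PeriodPair) (q Ω : ℂ), IsLat L R Ω → H667R3.CM L → L.g₂ = -1 →
  (∀ l ∈ L.lattice, eta L l = 0 * l + q * (starRingEnd ℂ) l) → TP L q 1 (Ω / (2 + 2 * I)) →
  ∀ (e : ℕ) (Q : ℂ), OT L Q →
    ek L 0 q e (Ω / (2 + 2 * I) + Q) + ek L 0 q e (-(Ω / (2 + 2 * I)) + Q) =
      (1 + I) * I ^ e * ek L 0 q e (Ω / 2 + (1 + I) * Q) ∧ OT L ((1 + I) * Q)

open Classical in
/-- **[CMP]** comparison of two odd systems of values.  Proof: strong induction on `U`.  For an even `V`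
(`cx x V (-1) = 1`) both sums vanish (pair `r, -r`).  `S_SV` for both systems gives
`∑ V ⊆ U odd, (∏ p ∈ U \ V, (c p - cx x V p)) (T V - T' V) +
 ∑ V ⊆ U odd, (∏ (c p - cx x V p) - ∏ (c' p - cx x V p)) T' V = Ts (G - G') (dd U) (kx x U)`.
By `S_SM`, `S_KB` and `hF` (pairs `r, -r`: `(kx r - kx (-r)) F r`, `F r = n / ρ² + F'`, and
`∑ pairs (kx r + kx (-r)) = ∏ (N p - 1)`, see `rhs4`) the right side is `< v (1 + I) ^ |U|`; the terms with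
`V ≠ U` of the first sum are small by induction, those of the second by `hc` and `hT`. -/
def S_CMP : Prop := S_SV → S_SM → S_KB → H_BASIC →
  ∀ (R : Subring ℂ), (∀ z : ℂ, z ∈ R ↔ ∃ x y : ℤ, z = x + y * I) →
  ∀ (x : R → R → ℂ) (S : Finset R), (∀ p ∈ S, Prime p ∧ XC x p) → Dst S →
  ∀ (G G' : R → R → ℂ) (c c' : R → ℂ), DS G c → DS G' c' →
  (∀ D r : R, Pri D → G D (-r) = -G D r) → (∀ D r : R, Pri D → G' D (-r) = -G' D r) →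
  ∀ (Γ : Type) (_ : LinearOrderedCommGroupWithZero Γ) (v : Valuation ℂ Γ) (ρ : ℂ), ρ ^ 4 = 2 →
  v ρ < 1 → (∀ p ∈ S, v (c p - 1) ≤ v ρ ^ 6 ∧ v (c' p - 1) ≤ v ρ ^ 6) →
  (∃ n : ℂ, v n ≤ 1 ∧ ∀ D r : R, Pri D → r ∉ sp D → v (ρ ^ 2 * (G D r - G' D r) - n) < 1) →
  (∀ V ⊆ S, cx x V (-1) = -1 → v (TX x G' V) ≤ v (1 + I) ^ V.card) →
  ∀ U ⊆ S, cx x U (-1) = -1 → v (TX x G U - TX x G' U) < v (1 + I) ^ U.card

/-- **[NVE]** the value at `T` itself (the case of `L (ψ ^ (2 e + 1))`), see `est_base` and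
`nv0` in `QT/Good4.lean`. -/
def S_NVE : Prop := ∀ (R : Subring ℂ), (∀ z : ℂ, z ∈ R ↔ ∃ x y : ℤ, z = x + y * I) →
  ∀ (L : PeriodPair) (q Ω : ℂ), IsLat L R Ω → H667R3.CM L → L.g₂ = -1 →
  (∀ l ∈ L.lattice, eta L l = 0 * l + q * (starRingEnd ℂ) l) → TP L q 1 (Ω / (2 + 2 * I)) →
  ∀ e : ℕ, (e % 4 = 0 ∨ e % 4 = 1) → ek L 0 q e (Ω / (2 + 2 * I)) ≠ 0

end Pool.Agent.Helper26K9.QA
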