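import Pool.Agent.Helper26K9.QA.Fin
import Pool.Agent.Helper26K9.QA.Flow
import Pool.Agent.Helper26K9.QA.Hur
import Pool.Agent.Helper26K9.QA.Iso
import Pool.Agent.Helper26K9.QA.Nve
import Pool.Agent.Helper26K9.QA.Half
import Pool.Agent.Helper26K9.QA.Q3r
import Pool.Agent.Helper26K9.QA.Cmp
import Pool.Agent.Helper26K9.QA.Int
import Pool.Agent.Helper26K9.QA.Alga
import Pool.Agent.Helper29K9.QA.Ex
import Pool.Agent.Helper26K9.QT.R1
import Pool.Agent.Helper26K9.QT.R2

/-!
# Quartic twists, all weights: everything together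
-/

set_option autoImplicit false

open Finset Filter

namespace Pool.Agent.Helper26K9.QA

open Pool.Agent.Y690.PP Pool.Agent.Y690.PP.Fn Pool.Agent.Helper26K9.DN Pool.Agent.Helper26K9.QT

theorem gg_all : S_GG :=
  gg (Pool.Agent.Helper29K9.QA.exf Pool.Agent.Helper29K9.QA.ode)
    (Pool.Agent.Helper29K9.QA.exp Pool.Agent.Helper29K9.QA.ode) (rel lin) (rep lin) wfq wft addw
    alga hur hen est q3r (int q3r) half

/-- **the density theorem for all weights** -/
theorem all4 (ε : ℝ) (hε : 0 < ε) : ∃ X₀ : ℝ, ∀ X : ℝ, X₀ ≤ X →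
      (al - ε) * ((TwP X).ncard : ℝ) ≤ ({D ∈ TwP X | GoodE D}.ncard : ℝ) :=
  lastE gg_all iso cmp nve r1 r2 ε hε

end Pool.Agent.Helper26K9.QA
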