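import Pool.Agent.Helper26K9.QA.Sum
import Pool.Agent.Helper26K9.QT.Last4

/-!
# Quartic twists, all weights: the nonvanishing and the density
-/

set_option autoImplicit false
set_option linter.unusedSectionVars false
set_option linter.unusedVariables false

open Finset IsDedekindDomain

namespace Pool.Agent.Helper26K9.QA

open H667R3 Pool.Agent.TH936.CW Pool.Agent.Y690.NV Pool.Agent.Y690.AW Pool.Agent.W192.HK
open Pool.Agent.TH936.CM (IsLat out_sub)
open Pool.Agent.Helper26K9.XO Pool.Agent.Helper26K9.QT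
open Complex (I)

section abs

variable {R : Subring ℂ} (hR : ∀ z : ℂ, z ∈ R ↔ ∃ x y : ℤ, z = x + y * I) {x : R → R → ℂ}

include hR in
lemma cx_neg_one {S : Finset R} (hX : ∀ p ∈ S, XC x p) (hu2 : cx x S (ii hR) ^ 2 = -1) :
    cx x S (-1) = -1 := by
  have h : (-1 : R) = ii hR * ii hR := (ii_sq hR).symm
  rw [h, cx_mul hX, ← pow_two, hu2]

include hR in
open Classical in
theorem nvE (hgg : S_GG) (iso : S_ISO) (cmp : S_CMP)
    (hbasic : H_BASIC) (hfp : H_FP) (hcnt : H_CNT) (hdec : H_DEC) (hafe : H_AFE) (e : ℕ)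
    {S : Finset R} (hS : ∀ p ∈ S, Prime p ∧ XC x p) (hd : Dst S) (hne : S.Nonempty)
    (htz : tz aa zn S = 1) (hu2 : cx x S (ii hR) ^ 2 = -1) : NVan e (tx hR (2 * e + 1) x S) := by
  obtain ⟨L, Ω, q, hL, hCM, g2, hq, hT⟩ := exists_base (qr hR)
  have hX : ∀ p ∈ S, XC x p := fun p hp => (hS p hp).2
  have hX' : ∀ p ∈ S, XC (xb x) p := fun p hp => (hX p hp).conj
  have hodd : cx (xb x) S (-1) = -1 := by
    rw [cx_xb, cx_neg_one hR hX hu2, map_neg, map_one]
  have hsum := sumE (x := xb x) hR hL hCM g2 hq hT hgg iso cmp sv sm kb val hbasic e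
    (fun p hp => ⟨(hS p hp).1, (hX p hp).conj⟩) hd hodd htz
  have hod := dd_od' hR hX
  have hD := hod.ne hR
  rcases unit_cases hR hu2 e with hu | hu
  · refine drop hR hbasic hX hu ?_
    refine nvg hbasic hfp hcnt hdec hafe R hR L Ω q hL hCM hq (dd S) e _ hD ?_
      (hc_ty hR hbasic hS hd hu) (relA hR hL hCM hq hbasic hS hne hu hsum)
    intro h
    obtain ⟨p, hp⟩ := hne
    have h1 : (1 : R) ∈ sp (dd S) := by
      rw [h]
      exact Submodule.mem_top
    exact (hX p hp).max.ne_top ((Ideal.eq_top_iff_one _).mpr (mem_dd hp h1))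
  · have h20 : (2 : R) ≠ 0 := by
      intro h
      have := congrArg Subtype.val h
      have h3 : ((2 : R) : ℂ) = 2 := rfl
      rw [h3] at this
      norm_num at this
    refine nvg hbasic hfp hcnt hdec hafe R hR L Ω q hL hCM hq (2 * dd S) e _
      (mul_ne_zero h20 hD) ?_ (hc_tx hR hbasic hS hd hu) (relB hR hL hCM hq hbasic hfp hS hd hu hsum)
    intro h
    have h1 : (1 : R) ∈ sp (2 * dd S) := by
      rw [h]
      exact Submodule.mem_top
    obtain ⟨p, hp⟩ := hne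
    exact (hX p hp).max.ne_top ((Ideal.eq_top_iff_one _).mpr (mem_dd hp (mem_sp_mul_right h1)))

include hR in
open Classical in
/-- the trivial character -/
theorem nv0E (nve : S_NVE) (hbasic : H_BASIC) (hfp : H_FP) (hcnt : H_CNT) (hdec : H_DEC)
    (hafe : H_AFE) {e : ℕ} (he : e % 4 = 0 ∨ e % 4 = 1) : NVan e (tw0 hR (2 * e + 1) ∅) := by
  obtain ⟨L, Ω, q, hL, hCM, g2, hq, hT⟩ := exists_base (qr hR)
  have hd : Dst (∅ : Finset R) := fun p hp => absurd hp (Finset.notMem_empty p)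
  have hQ : ∀ p ∈ (∅ : Finset R), QC p := fun p hp => absurd hp (Finset.notMem_empty p)
  have hHC := hc_tw0 hR hbasic (n := 2 * e + 1) ⟨e, rfl⟩ ∅
    (fun p hp => absurd hp (Finset.notMem_empty p)) hd
  have hod := dd_od hR hQ
  obtain ⟨b1, -⟩ := hbasic R I (qr hR)
  have := b1 (sp (dd (∅ : Finset R))) (by rw [Ne, Ideal.span_singleton_eq_bot]; exact hod.ne hR)
  have := Fintype.ofFinite (R ⧸ sp (dd (∅ : Finset R)))
  refine nonvan hR hbasic hfp hcnt hdec hafe hL hCM hq (hod.ne hR) (hod.ff hR) hHC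
    (χ := fun r => ((ch (∅ : Finset R) r : ℤ) : ℂ)) (fun r hr => by rw [tw0_gen hR _ ∅ hr, mul_comm])
    (fun r => map_intCast _ _) ?_
  have h1 : sp (dd (∅ : Finset R)) = ⊤ := by
    unfold dd
    rw [Finset.prod_empty]
    exact Ideal.span_singleton_one
  have hsub : ∀ w : R ⧸ sp (dd (∅ : Finset R)), w = 0 := by
    intro w
    refine eq_of_out ?_
    generalize w.out - (0 : R ⧸ sp (dd (∅ : Finset R))).out = x
    rw [h1]
    exact Submodule.mem_top
  rw [Fintype.sum_eq_single (0 : R ⧸ sp (dd (∅ : Finset R))) (fun w hw => absurd (hsub w) hw)]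
  have hone : ∀ r : R, ((ch (∅ : Finset R) r : ℤ) : ℂ) = 1 := by
    intro r
    unfold ch
    rw [Finset.prod_empty, Int.cast_one]
  rw [hone, one_mul]
  have hv := nve R hR L q Ω hL hCM g2 hq hT e he
  have hTL : Ω / (2 + 2 * I) ∉ L.lattice := two_mul_notMem_of L hT.nm
  have h5 := (lat_dm_iff hL (dd (∅ : Finset R)) (hod.ne hR)
    (0 : R ⧸ sp (dd (∅ : Finset R))).out).2 zero_out
  intro h0
  unfold Qw at h0
  rw [ek_per hq e hTL (by rwa [add_sub_cancel_left])] at h0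
  exact hv h0

/-- from the two characters to the value -/
theorem pairE (hbasic : H_BASIC) {ψ ψ' : R → ℂ} (h1 : ∀ r, (starRingEnd ℂ) (ψ r) = ψ' r)
    {e : ℕ} (n1 : NVan e (gj hR ψ (2 * e + 1) 0)) (n2 : NVan e (gj hR ψ' (2 * e + 1) 0))
    {k a b : ℕ} (hk : 1 ≤ k) (hab : a + b = 2 * k - 1) (hc : ((a : ℤ) - b).natAbs = 2 * e + 1) :
    Gd hR ψ k a b := by
  rcases lt_or_ge b a with h2 | h2
  · exact gd_of hR hbasic n1 hab (by omega)
  · refine Gd.conj hR ?_
    have h3 : (fun r => (starRingEnd ℂ) (ψ r)) = ψ' := funext h1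
    rw [h3]
    exact gd_of hR hbasic n2 (by omega) (by omega)

open Classical in
/-- all the powers of the quartic character -/
theorem powersE (hgg : S_GG) (iso : S_ISO) (cmp : S_CMP) (nve : S_NVE)
    (hbasic : H_BASIC) (hfp : H_FP) (hcnt : H_CNT) (hdec : H_DEC) (hafe : H_AFE)
    {S : Finset R} (hA : Adm0 S) (hS : ∀ p ∈ S, Prime p ∧ XC x p)
    (hu2 : cx x S (ii hR) ^ 2 = -1) {j : ℕ} (hj : j < 4) {k a b : ℕ} (hk : 1 ≤ k)
    (hab : a + b = 2 * k - 1)
    (hc : j = 0 → ((a : ℤ) - b).natAbs % 8 = 1 ∨ ((a : ℤ) - b).natAbs % 8 = 3) :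
    Gd hR (fun r => cx x S r ^ j) k a b := by
  obtain ⟨e, he⟩ : ∃ e, ((a : ℤ) - b).natAbs = 2 * e + 1 :=
    ⟨(((a : ℤ) - b).natAbs - 1) / 2, by omega⟩
  have hX : ∀ p ∈ S, XC x p := fun p hp => (hS p hp).2
  have hd : Dst S := dst_of hR hA.1
  have hS' : ∀ p ∈ S, Prime p ∧ XC (xb x) p := fun p hp => ⟨(hS p hp).1, (hX p hp).conj⟩
  have hu2' : cx (xb x) S (ii hR) ^ 2 = -1 := by
    rw [cx_xb, ← map_pow, hu2, map_neg, map_one]
  have n1 : NVan e (gj hR (cx x S) (2 * e + 1) 0) := by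
    rw [gj_tx]
    exact nvE hR hgg iso cmp hbasic hfp hcnt hdec hafe e hS hd hA.2.1 hA.2.2 hu2
  have n3 : NVan e (gj hR (cx (xb x) S) (2 * e + 1) 0) := by
    rw [gj_tx]
    exact nvE hR hgg iso cmp hbasic hfp hcnt hdec hafe e hS' hd hA.2.1 hA.2.2 hu2'
  have n2 : NVan e (gj hR (fun r => ((ch S r : ℤ) : ℂ)) (2 * e + 1) 0) := by
    rw [gj_tw]
    exact (tw0_main hR hbasic hfp hcnt hdec hafe hA hd e).2
  interval_cases j
  · have h1 : (fun r => cx x S r ^ 0) = fun r : R => ((ch (∅ : Finset R) r : ℤ) : ℂ) := by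
      funext r
      unfold ch
      rw [Finset.prod_empty, Int.cast_one, pow_zero]
    have n0 : NVan e (gj hR (fun r => ((ch (∅ : Finset R) r : ℤ) : ℂ)) (2 * e + 1) 0) := by
      rw [gj_tw]
      have := hc rfl
      exact nv0E hR nve hbasic hfp hcnt hdec hafe (by omega)
    rw [h1]
    exact pairE hR hbasic (fun r => map_intCast _ _) n0 n0 hk hab he
  · have h1 : (fun r => cx x S r ^ 1) = cx x S := by
      funext r
      rw [pow_one]
    rw [h1]
    exact pairE hR hbasic (fun r => (cx_xb S r).symm) n1 n3 hk hab he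
  · have h1 : (fun r => cx x S r ^ 2) = fun r : R => ((ch S r : ℤ) : ℂ) :=
      funext fun r => cx_sq hX r
    rw [h1]
    exact pairE hR hbasic (fun r => map_intCast _ _) n2 n2 hk hab he
  · have h1 : (fun r => cx x S r ^ 3) = cx (xb x) S := by
      funext r
      rw [cx_cube hX, cx_xb]
    rw [h1]
    refine pairE hR hbasic (ψ' := cx x S) (fun r => ?_) n3 n1 hk hab he
    rw [cx_xb, Complex.conj_conj]

end abs

section sym

open Pool.Agent.Y690.PP Pool.Agent.Y690.PP.Fn Pool.Agent.Helper26K9.DN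

open Classical in
/-- **the nonvanishing for the good sets** -/
theorem goodE (hgg : S_GG) (iso : S_ISO) (cmp : S_CMP) (nve : S_NVE)
    {A : Finset Pr} (hX : XX gs (fun _ => (1 : ℝ)) A = 2)
    (hch : Pool.Agent.Helper26K9.DN.ch A = -1) {j : ℕ} (hj : j < 4)
    {k a b : ℕ} (hk : 1 ≤ k) (hab : a + b = 2 * k - 1)
    (hc : j = 0 → ((a : ℤ) - b).natAbs % 8 = 1 ∨ ((a : ℤ) - b).natAbs % 8 = 3) :
    ∃ L : ℂ → ℂ, IsLF (PA A) j a b L ∧ L k ≠ 0 := by
  have hbasic := Pool.Agent.W287.HK.h_basic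
  have hcls := Pool.Agent.W571.HK.h_cls hbasic
  have hfp := Pool.Agent.W53.HK.h_fp hbasic hcls
  have hfpr := Pool.Agent.W366.HK.h_fpr hbasic hcls
  have hlat := Pool.Agent.W585.HK.h_lat hbasic
  have hker := Pool.Agent.W692.HK.h_ker hbasic hcls hfpr
  have hcnt := Pool.Agent.W584.HK.h_cnt hbasic hcls hfpr hlat hker
  have hdec := Pool.Agent.W856.HK.h_dec hbasic
  have hgauss := Pool.Agent.W636.HK.h_gauss hbasic hfp
  have hpois := Pool.Agent.W348.HK.h_pois hbasic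
  have htheta := Pool.Agent.TH936.HK.h_theta hbasic hfp hdec hgauss hpois hcnt
  have hafe := Pool.Agent.TH936.HK.h_afe hbasic hfp hcnt hgauss htheta
  set S := A.map (em hRR) with hSd
  have hadm : Adm0 S := adm0_of_XX hRR hbasic hX hch
  have hS : ∀ p ∈ S, Prime p ∧ XC x4 p := fun p hp =>
    ⟨(hadm.1 p hp).1, q4 RR hRR hbasic p (hadm.1 p hp).1 (hadm.1 p hp).2⟩
  have hXC : ∀ p ∈ S, XC x4 p := fun p hp => (hS p hp).2
  have hu2 : cx x4 S (Pool.Agent.Y690.NV.ii hRR) ^ 2 = -1 := by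
    have h1 : Pool.Agent.Y690.NV.ii hRR = phi hRR Pool.Agent.Helper26K9.DN.ii := by
      refine Subtype.ext ?_
      rw [Pool.Agent.Y690.NV.ii_coe, phi_coe]
      unfold Pool.Agent.Helper26K9.DN.ii
      push_cast
      ring
    have h5 : Pool.Agent.Y690.AW.ch (A.map (em hRR)) (phi hRR Pool.Agent.Helper26K9.DN.ii) =
        ∏ q ∈ A, qs q.1 Pool.Agent.Helper26K9.DN.ii := by
      unfold Pool.Agent.Y690.AW.ch
      rw [Finset.prod_map]
      exact Finset.prod_congr rfl fun q _ => phi_qs hRR q.1 _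
    rw [cx_sq hXC, h1, hSd, h5]
    have h2 : ∀ q : Pr, qs q.1 Pool.Agent.Helper26K9.DN.ii = gi q.1 := fun q => qs_ii q
    have h3 : ((∏ q ∈ A, qs q.1 Pool.Agent.Helper26K9.DN.ii : ℤ) : ℝ) = -1 := by
      rw [← hch]
      unfold Pool.Agent.Helper26K9.DN.ch gz
      push_cast
      exact Finset.prod_congr rfl fun q _ => by rw [h2]
    have h4 : (∏ q ∈ A, qs q.1 Pool.Agent.Helper26K9.DN.ii : ℤ) = -1 := by exact_mod_cast h3
    rw [h4]
    norm_num
  have hg := powersE hRR hgg iso cmp nve hbasic hfp hcnt hdec hafe hadm hS hu2 hj hk hab hc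
  obtain ⟨L, l1, l2, l3⟩ := Gd.prod hRR hbasic (by rw [cx_one hXC, one_pow])
    (fun r s => by rw [cx_mul hXC, mul_pow]) hg
  refine ⟨L, ⟨l1, fun s hs => ?_⟩, l3⟩
  have hab' : (a : ℝ) + b = 2 * k - 1 := by
    have h1 : a + b + 1 = 2 * k := by omega
    have h2 : ((a + b + 1 : ℕ) : ℝ) = ((2 * k : ℕ) : ℝ) := by rw [h1]
    push_cast at h2
    linarith
  refine prod_pr hRR hbasic (fun J hJ => gj_zero hRR _ a b hJ) (fun p => ?_)
    (l2 s (by rw [hab'] at hs; linarith))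
  have hpri : phi hRR p.1 - 1 ∈ sp (ff hRR) := by
    rw [Pool.Agent.Y690.AW.pri_iff hRR, phi_pri]
    exact p.2.2
  rw [gj_gen hRR _ a b hpri, cx_phi hRR hbasic, phi_cc]

/-- the points, and the central values of all weights -/
def GoodE (D : G) : Prop := (∀ j : ℕ, 0 < j → j < 4 → FinP D j) ∧
  ∀ j : ℕ, j < 4 → ∀ m a b : ℕ, 1 ≤ m → a + b = 2 * m - 1 →
    (j = 0 → ((a : ℤ) - b).natAbs % 8 = 1 ∨ ((a : ℤ) - b).natAbs % 8 = 3) →
    ∃ L : ℂ → ℂ, IsLF D j a b L ∧ L m ≠ 0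

/-- **the density theorem** -/
theorem lastE (hgg : S_GG) (iso : S_ISO) (cmp : S_CMP) (nve : S_NVE) (r1 : S_R1) (r2 : S_R2)
    (ε : ℝ) (hε : 0 < ε) : ∃ X₀ : ℝ, ∀ X : ℝ, X₀ ≤ X →
      (al - ε) * ((TwP X).ncard : ℝ) ≤ ({D ∈ TwP X | GoodE D}.ncard : ℝ) := by
  obtain ⟨X₀, h⟩ := cnt.2.2 (fun D => GoodE (-D)) (fun A hX hch =>
    ⟨fun j h0 hj => finP_good r1 r2 hX hch h0 hj, fun j hj m a b hm hab hc => by
      obtain ⟨L, hL, h0⟩ := goodE hgg iso cmp nve hX hch hj hm hab hc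
      exact ⟨L, isLF_neg hL, h0⟩⟩) ε hε
  refine ⟨X₀, fun X hX => ?_⟩
  rw [TwP_card, TwP_sep, Set.ncard_image_of_injective _ neg_injective]
  exact h X hX

end sym

end Pool.Agent.Helper26K9.QA
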