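import Pool.Agent.Helper26K9.QA.Stm
import Pool.Agent.Helper26K9.QT.Val

/-!
# Quartic twists, all weights: the values at the points `Ω / 2 + Q`
-/

set_option autoImplicit false
set_option linter.unusedSectionVars false
set_option linter.unusedVariables false

open scoped PeriodPair

namespace Pool.Agent.Helper26K9.QA

open H667R3 Pool.Agent.TH936.CW Pool.Agent.Y690.NV Pool.Agent.Y690.AW Pool.Agent.W192.HK
open Pool.Agent.TH936.CM (IsLat out_sub)
open Pool.Agent.Helper26K9.XO Pool.Agent.Helper26K9.QT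
open Complex (I)

/-- **(G)** the values of weight `e` at the points `Ω / 2 + Q` -/
def S_GG : Prop := ∀ (R : Subring ℂ), (∀ z : ℂ, z ∈ R ↔ ∃ x y : ℤ, z = x + y * I) →
  ∀ (L : PeriodPair) (q Ω : ℂ), IsLat L R Ω → H667R3.CM L → L.g₂ = -1 →
  (∀ l ∈ L.lattice, eta L l = 0 * l + q * (starRingEnd ℂ) l) →
  ∀ (Γ : Type) (_ : LinearOrderedCommGroupWithZero Γ) (v : Valuation ℂ Γ) (ρ : ℂ), ρ ^ 4 = 2 →
  v ρ < 1 → ∀ e : ℕ, ∃ n : ℂ, v n ≤ 1 ∧ ∀ Q : ℂ, OT L Q →
    v (2 ^ e * ek L 0 q e (Ω / 2 + Q) - ek L 0 q 0 (Ω / 2 + Q) - n) < 1 ∧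
    v (ρ * ek L 0 q 0 (Ω / 2 + Q)) ≤ 1

namespace GGL

/-! ### the numbers -/

/-- the base numbers -/
structure Nb (L : PeriodPair) (q z w b c P x' u₀ t₀ : ℂ) : Prop where
  hb : b = -6 * E1 L 0 q z
  hc : c = ℘'[L] z
  hP : P = ℘[L] z
  hx : x' = ℘[L] w - P
  hu : u₀ * x' = 1
  ht : 2 * t₀ = b + c * u₀
  ut : u₀ * t₀ ^ 2 + 1 = 0
  bb : b ^ 2 = 12 * P
  bc : b * c = 6 * P ^ 2 + 1 / 2

section numbers

variable {L : PeriodPair} {q : ℂ} {Γ : Type} [LinearOrderedCommGroupWithZero Γ]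
  {v : Valuation ℂ Γ} {ρ : ℂ}

lemma v_half_pt (hρ : ρ ^ 4 = 2) (hr : v ρ < 1) {f : ℂ} (hf : 4 * f ^ 2 + 1 = 0) :
    v (2 * f - 1) = v ρ ^ 2 := by
  have h1 : v (2 * f) = 1 := by
    have h2 : (2 * f) ^ 2 = -1 := by linear_combination hf
    have h3 : v (2 * f) ^ 2 = 1 := by rw [← map_pow, h2, Valuation.map_neg, map_one]
    exact (pow_eq_one_iff.mp h3).resolve_right two_ne_zero
  have h4 : (2 * f - 1) ^ 2 = -(2 * (2 * f)) := by linear_combination hf
  have h5 : v (2 * f - 1) ^ 2 = (v ρ ^ 2) ^ 2 := by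
    rw [← map_pow, h4, Valuation.map_neg, map_mul, h1, mul_one, v_two hρ, ← pow_mul]
  exact (pow_left_inj₀ zero_le zero_le two_ne_zero).mp h5

/-- the base numbers exist and have the right size -/
theorem numbers (q3r : S_Q3R) (hL : H667R3.CM L) (g2 : L.g₂ = -1)
    (hq : ∀ l ∈ L.lattice, eta L l = 0 * l + q * (starRingEnd ℂ) l) {z w : ℂ} (hz : OT L z)
    (h3 : 3 * z ∈ L.lattice) (hw : w ∉ L.lattice) (hwP : 4 * ℘[L] w ^ 2 + 1 = 0)
    (hρ : ρ ^ 4 = 2) (hr : v ρ < 1) : ∃ b c P x' u₀ t₀ : ℂ, Nb L q z w b c P x' u₀ t₀ ∧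
      v b ≤ v ρ ^ 2 ∧ v c = 1 ∧ v (ρ * t₀) = 1 ∧ v u₀ ≤ v ρ ^ 2 ∧ v (2 * P - 1) = v ρ ^ 3 := by
  have hp := rho_pos (v := v) hρ
  have hρ0 := rho_ne hρ
  have h2 := two_lt hρ hr
  obtain ⟨k1, k2⟩ := q3r L q z hL g2 hq hz.1 h3
  set b : ℂ := -6 * E1 L 0 q z with hb
  set c : ℂ := ℘'[L] z with hc
  set P : ℂ := ℘[L] z with hP
  set f : ℂ := ℘[L] w with hf
  have hN := (ValL.keyE hL g2 hq hz hρ hr).val
  have hc1 : v c = 1 := (N1_eta hL g2 hρ hr hz).val
  have hX := Xi_sub (v := v) hL g2 hρ hr hz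
  have hXP : Xi L z = 2 * P := rfl
  rw [hXP] at hX
  have hvb : v b ≤ v ρ ^ 2 := by
    have e1 : b = -(3 * (ρ ^ 2 * (ρ ^ 2 * E1 L 0 q z))) := by
      rw [hb]
      linear_combination (3 * E1 L 0 q z) * hρ
    rw [e1, Valuation.map_neg, map_mul, map_mul, hN, mul_one, (ValL.three hρ hr).val, one_mul,
      map_pow]
  have hff : v (2 * f - 1) = v ρ ^ 2 := v_half_pt hρ hr hwP
  set x' : ℂ := f - P with hx'
  have h2x : v (2 * x') = v ρ ^ 2 := by
    have e1 : 2 * x' = (2 * f - 1) - (2 * P - 1) := by rw [hx']; ring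
    rw [e1, sub_eq_add_neg, Valuation.map_add_eq_of_lt_left v, hff]
    rw [Valuation.map_neg, hX, hff]
    exact lt_pow hρ hr (by norm_num)
  have hx0 : x' ≠ 0 := by
    intro h
    rw [h, mul_zero, map_zero] at h2x
    exact (pow_pos hp 2).ne h2x
  have hvx : v x' * v ρ ^ 2 = 1 := by
    have h5 : v ρ ^ 4 * v x' = v ρ ^ 2 := by rw [← v_two (v := v) hρ, ← map_mul, h2x]
    have h6 : v ρ ^ 2 * (v x' * v ρ ^ 2) = v ρ ^ 2 * 1 := by
      rw [mul_one]
      calc v ρ ^ 2 * (v x' * v ρ ^ 2) = v ρ ^ 4 * v x' := by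
            rw [mul_comm (v x'), ← mul_assoc, ← pow_add]
        _ = _ := h5
    exact mul_left_cancel₀ (pow_pos hp 2).ne' h6
  have hvu : v x'⁻¹ = v ρ ^ 2 := by
    rw [map_inv₀]
    exact inv_eq_of_mul_eq_one_right hvx
  set u₀ : ℂ := x'⁻¹ with hu₀
  have hux : u₀ * x' = 1 := inv_mul_cancel₀ hx0
  set t₀ : ℂ := (b + c * u₀) / 2 with ht₀
  have ht : 2 * t₀ = b + c * u₀ := by rw [ht₀]; ring
  have hcc : c ^ 2 = 4 * P ^ 3 + P := by
    have h := L.derivWeierstrassP_sq z hz.1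
    rw [g2, g₃_eq_zero hL] at h
    rw [hc, hP]
    linear_combination h
  have hPf : P = f - x' := by rw [hx']; ring
  have ht2 : t₀ ^ 2 = -x' := by
    have h5 : 4 * (t₀ ^ 2 * x' ^ 2) = 4 * (-x' * x' ^ 2) := by
      have h6 : 2 * t₀ * x' = b * x' + c := by rw [ht]; linear_combination c * hux
      have h7 : 4 * (t₀ ^ 2 * x' ^ 2) = (b * x' + c) ^ 2 := by rw [← h6]; ring
      rw [h7]
      have h8 : (b * x' + c) ^ 2 = b ^ 2 * x' ^ 2 + 2 * (b * c) * x' + c ^ 2 := by ring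
      rw [h8, k1, k2, hcc, hPf]
      linear_combination f * hwP
    have h9 := mul_left_cancel₀ (by norm_num : (4 : ℂ) ≠ 0) h5
    exact mul_right_cancel₀ (pow_ne_zero 2 hx0) h9
  have hut : u₀ * t₀ ^ 2 + 1 = 0 := by rw [ht2]; linear_combination -hux
  have hvt : v (ρ * t₀) = 1 := by
    have h5 : v (ρ * t₀) ^ 2 = 1 := by
      rw [← map_pow, mul_pow, ht2, map_mul, Valuation.map_neg, map_pow, mul_comm]
      exact hvx
    exact (pow_eq_one_iff.mp h5).resolve_right two_ne_zero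
  exact ⟨b, c, P, x', u₀, t₀, ⟨rfl, rfl, rfl, rfl, hux, ht, hut, k1, k2⟩, hvb, hc1, hvt, hvu.le, hX⟩

end numbers

/-! ### the series of a point -/

section series

lemma co_cc (f : Se) : co 0 f = PowerSeries.constantCoeff f :=
  PowerSeries.coeff_zero_eq_constantCoeff_apply f

lemma ofNat_cc (n : ℕ) [n.AtLeastTwo] : PowerSeries.constantCoeff (OfNat.ofNat n : Se) =
    (OfNat.ofNat n : ℂ) := map_ofNat _ n

lemma two_half (f : Se) : 2 * (PowerSeries.C (1 / 2 : ℂ) * f) = f := by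
  rw [← mul_assoc]
  have h : (2 : Se) * PowerSeries.C (1 / 2 : ℂ) = 1 := by
    rw [← map_ofNat (PowerSeries.C (R := ℂ)) 2, ← map_mul]
    norm_num
  rw [h, one_mul]

lemma twelve (f : Se) : 12 * (PowerSeries.C (1 / 12 : ℂ) * f) = f := by
  rw [← mul_assoc]
  have h : (12 : Se) * PowerSeries.C (1 / 12 : ℂ) = 1 := by
    rw [← map_ofNat (PowerSeries.C (R := ℂ)) 12, ← map_mul]
    norm_num
  rw [h, one_mul]

lemma gross (f : Se) : 144 * (PowerSeries.C (1 / 144 : ℂ) * f) = f := by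
  rw [← mul_assoc]
  have h : (144 : Se) * PowerSeries.C (1 / 144 : ℂ) = 1 := by
    rw [← map_ofNat (PowerSeries.C (R := ℂ)) 144, ← map_mul]
    norm_num
  rw [h, one_mul]

variable {L : PeriodPair} {q : ℂ}

/-- the values of all weights at `w + Q`, in terms of one series -/
theorem point (expp : S_EXP) (rep : S_REP) (wfq : S_WFQ) (wft : S_WFT) (addw : S_ADDW)
    (alga : S_ALGA) (hL : H667R3.CM L) (g2 : L.g₂ = -1) {z w b c P x' u₀ t₀ : ℂ}
    (nb : Nb L q z w b c P x' u₀ t₀) {a1 a2 a3 a4 a6 t u : Se} (hF : Fr a1 a2 a3 a4 a6 t u)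
    (i1 : co 0 a1 = b) (i2 : co 0 a2 = 0) (i3 : co 0 a3 = c) (i4 : co 0 a4 = 0)
    (i6 : co 0 a6 = 0) (it : co 0 t = t₀) (iu : co 0 u = u₀)
    (r1 : 2 * t = a1 + a3 * u) (r2 : u * t ^ 2 + 1 + a2 * u + a4 * u ^ 2 + a6 * u ^ 3 = 0)
    (hw : w ∉ L.lattice) (hwE : E1 L 0 q w = 0) (hwY : ℘'[L] w = 0) (hwP : 4 * ℘[L] w ^ 2 + 1 = 0)
    {Q : ℂ} (hQ : OT L Q) (h1 : w + Q ∉ L.lattice) (h2 : Q - w ∉ L.lattice) {x₀ y₀ g₀ : ℂ}
    (hx₀ : x₀ = ℘[L] Q - ℘[L] z) (hy₀ : 2 * y₀ = ℘'[L] Q - (b * x₀ + c))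
    (hg₀ : g₀ = E1 L 0 q Q + b / 2) (hcu : y₀ ^ 2 + b * x₀ * y₀ + c * y₀ = x₀ ^ 3) :
    ∃ x Y g E : Se, Pn a1 a2 a3 a4 x Y g ∧ co 0 x = x₀ ∧ co 0 Y = y₀ ∧ co 0 g = g₀ ∧
      (E - g) * (1 - u * x) = -(t + u * Y) ∧ co 0 E = ek L 0 q 0 (w + Q) ∧
      ∀ n : ℕ, 2 ^ n * ek L 0 q n (w + Q) =
        ∑ j ∈ Finset.range (n + 1), (n.choose j : ℂ) * (-(2 * P)) ^ (n - j) * co j E := by
  obtain ⟨x, Y, g, hPn, hx, hY, hg⟩ := expp a1 a2 a3 a4 x₀ y₀ g₀
  have hrep := rep a1 a2 a3 a4 a6 t u x Y g hF hPn (by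
    have j1 : PowerSeries.constantCoeff a1 = b := by rw [← co_cc, i1]
    have j2 : PowerSeries.constantCoeff a2 = 0 := by rw [← co_cc, i2]
    have j3 : PowerSeries.constantCoeff a3 = c := by rw [← co_cc, i3]
    have j4 : PowerSeries.constantCoeff a4 = 0 := by rw [← co_cc, i4]
    have j6 : PowerSeries.constantCoeff a6 = 0 := by rw [← co_cc, i6]
    have jx : PowerSeries.constantCoeff x = x₀ := by rw [← co_cc, hx]
    have jY : PowerSeries.constantCoeff Y = y₀ := by rw [← co_cc, hY]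
    rw [co_cc]
    simp only [map_sub, map_add, map_mul, map_pow, j1, j2, j3, j4, j6, jx, jY]
    linear_combination -hcu)
  -- the coordinates
  set Ps : Se := PowerSeries.C (1 / 12 : ℂ) * (a1 ^ 2 + 4 * a2) with hPs
  set Es : Se := g - PowerSeries.C (1 / 2 : ℂ) * a1 with hEs
  set Xs : Se := x + Ps with hXs
  set Ws : Se := Y + PowerSeries.C (1 / 2 : ℂ) * (a1 * x + a3) with hWs
  set Gs : Se := PowerSeries.C (1 / 144 : ℂ) * ((a1 ^ 2 + 4 * a2) ^ 2 - 24 * (2 * a4 + a1 * a3))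
    with hGs
  have e12 : 12 * Ps = a1 ^ 2 + 4 * a2 := twelve _
  have eE : 2 * Es = 2 * g - a1 := by rw [hEs, mul_sub, two_half]
  have eX : 12 * Xs = 12 * x + a1 ^ 2 + 4 * a2 := by rw [hXs, mul_add, e12]; ring
  have eW : 2 * Ws = 2 * Y + a1 * x + a3 := by rw [hWs, mul_add, two_half]; ring
  have eG : 144 * Gs = (a1 ^ 2 + 4 * a2) ^ 2 - 24 * (2 * a4 + a1 * a3) := gross _
  obtain ⟨hWF, hK⟩ := wfq a1 a2 a3 a4 a6 t u x Y g Es Xs Ws Gs Ps hF hPn hrep eE eX eW eG e12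
  have hu0 : u₀ ≠ 0 := fun h => by
    have := nb.hu
    rw [h, zero_mul] at this
    exact zero_ne_one this
  have hucc : PowerSeries.constantCoeff u ≠ 0 := by rw [← co_cc, iu]; exact hu0
  have hune : u ≠ 0 := fun h => hucc (by rw [h, map_zero])
  set Xt : Se := u⁻¹ + Ps with hXt
  have huu : u * u⁻¹ = 1 := PowerSeries.mul_inv_cancel u hucc
  have eXt : u * (12 * Xt - (a1 ^ 2 + 4 * a2)) = 12 := by
    rw [← e12, hXt]
    linear_combination 12 * huu
  obtain ⟨hdXt, hKt⟩ := wft a1 a2 a3 a4 a6 t u Xt Gs Ps hF hune r1 r2 eXt eG e12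
  have hKK : Xt ^ 3 - 3 * Gs * Xt = Xs ^ 3 - 3 * Gs * Xs - Ws ^ 2 := by
    have h : (864 : Se) * (Xt ^ 3 - 3 * Gs * Xt) = 864 * (Xs ^ 3 - 3 * Gs * Xs - Ws ^ 2) := by
      rw [hK, hKt]
    have h864 : (864 : Se) ≠ 0 := by
      intro h0
      have := congrArg (PowerSeries.constantCoeff (R := ℂ)) h0
      rw [map_zero, map_ofNat] at this
      norm_num at this
    exact mul_left_cancel₀ h864 h
  -- constant coefficients
  have j1 : PowerSeries.constantCoeff a1 = b := by rw [← co_cc, i1]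
  have j2 : PowerSeries.constantCoeff a2 = 0 := by rw [← co_cc, i2]
  have j3 : PowerSeries.constantCoeff a3 = c := by rw [← co_cc, i3]
  have j4 : PowerSeries.constantCoeff a4 = 0 := by rw [← co_cc, i4]
  have jx : PowerSeries.constantCoeff x = x₀ := by rw [← co_cc, hx]
  have jY : PowerSeries.constantCoeff Y = y₀ := by rw [← co_cc, hY]
  have jg : PowerSeries.constantCoeff g = g₀ := by rw [← co_cc, hg]
  have cP : PowerSeries.constantCoeff Ps = P := by
    rw [hPs]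
    simp only [map_mul, PowerSeries.constantCoeff_C, map_add, map_pow, map_ofNat, j1, j2]
    linear_combination (1 / 12) * nb.bb
  have cX : PowerSeries.constantCoeff Xs = ℘[L] Q := by
    rw [hXs, map_add, jx, cP, hx₀, nb.hP]
    ring
  have cW : PowerSeries.constantCoeff Ws = ℘'[L] Q / 2 := by
    rw [hWs]
    simp only [map_mul, PowerSeries.constantCoeff_C, map_add, jY, j1, jx, j3]
    linear_combination (1 / 2) * hy₀
  have cE : PowerSeries.constantCoeff Es = E1 L 0 q Q := by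
    rw [hEs, map_sub, map_mul, PowerSeries.constantCoeff_C, jg, j1, hg₀]
    ring
  have cG : PowerSeries.constantCoeff Gs = L.g₂ / 12 := by
    have h5 : (b ^ 2) ^ 2 - 24 * (b * c) = -12 := by rw [nb.bb, nb.bc]; ring
    rw [hGs, g2]
    simp only [map_sub, map_add, map_mul, map_pow, map_ofNat, PowerSeries.constantCoeff_C, j1, j2,
      j3, j4]
    linear_combination (1 / 144) * h5
  have cXt : PowerSeries.constantCoeff Xt = ℘[L] w := by
    have h5 : PowerSeries.constantCoeff u⁻¹ = x' := by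
      rw [PowerSeries.constantCoeff_inv, ← co_cc, iu]
      exact inv_eq_of_mul_eq_one_right nb.hu
    rw [hXt, map_add, h5, cP, nb.hx]
    ring
  have hne : ℘[L] Q - ℘[L] w ≠ 0 := by
    rw [sub_ne_zero, Ne, wp_eq_iff L hQ.1 hw]
    rw [add_comm] at h1
    tauto
  have cD : PowerSeries.constantCoeff (Xs - Xt) ≠ 0 := by
    rw [map_sub, cX, cXt]
    exact hne
  have hDne : Xs - Xt ≠ 0 := fun h => cD (by rw [h, map_zero])
  set V : Se := Ws * (Xs - Xt)⁻¹ with hV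
  have hVV : V * (Xs - Xt) = Ws := by
    rw [hV, mul_assoc, PowerSeries.inv_mul_cancel _ cD, mul_one]
  have hsum := addw Es Xs Ws Gs Ps Xt V hWF hdXt hKK hDne hVV
  have cV : PowerSeries.constantCoeff V * (℘[L] Q - ℘[L] w) = ℘'[L] Q / 2 := by
    rw [← cX, ← cXt, ← map_sub, ← map_mul, hVV, cW]
  have cV' : PowerSeries.constantCoeff V = (℘'[L] Q - ℘'[L] w) / (2 * (℘[L] Q - ℘[L] w)) := by
    rw [hwY, sub_zero, eq_div_iff (mul_ne_zero two_ne_zero hne)]
    linear_combination 2 * cV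
  have hwQ : w + Q = Q + w := add_comm w Q
  have h1' : Q + w ∉ L.lattice := by rwa [← hwQ]
  have hQ2 : 2 * Q ∉ L.lattice := hQ.two.1
  have hcur := L.derivWeierstrassP_sq Q hQ.1
  rw [g2, g₃_eq_zero hL] at hcur
  have cE3 : PowerSeries.constantCoeff (Es + V) = E1 L 0 q (Q + w) := by
    rw [map_add, cE, cV', E1_add hQ.1 hw h1' h2, hwE, add_zero]
  set d : ℂ := ℘[L] Q - ℘[L] w with hd
  set η : ℂ := ℘'[L] Q with hη
  set ξ : ℂ := ℘[L] Q with hξ
  set f : ℂ := ℘[L] w with hf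
  have hfx : f = ξ - d := by rw [hd]; ring
  have cX3 : PowerSeries.constantCoeff (V ^ 2 - Xs - Xt) = ℘[L] (Q + w) := by
    rw [map_sub, map_sub, map_pow, cX, cXt, cV', wp_add L hQ2 hw h1' h2, hwY, g2, ← hd, ← hη,
      ← hξ]
    field_simp
    linear_combination -hcur - f * hwP
  have cY3 : PowerSeries.constantCoeff (-(Ws + V * ((V ^ 2 - Xs - Xt) - Xs))) =
      ℘'[L] (Q + w) / 2 := by
    rw [map_neg, map_add, map_mul, map_sub, cX3, cW, cX, cV', wp'_add L hQ2 hw h1' h2,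
      wp_add L hQ2 hw h1' h2, hwY, g2, ← hd, ← hη, ← hξ]
    have hwP' : 4 * (ξ - d) ^ 2 + 1 = 0 := by rw [← hfx]; exact hwP
    field_simp
    linear_combination 2 * η * hcur + 2 * η * (ξ - d) * hwP'
  have key := alga L q (Q + w) h1' _ _ _ Gs Ps hsum (by rw [co_cc]; exact cE3)
    (by rw [co_cc]; exact cX3) (by rw [co_cc]; exact cY3) (by rw [co_cc]; exact cG)
  refine ⟨x, Y, g, Es + V, hPn, hx, hY, hg, ?_, ?_, fun n => ?_⟩
  · -- the formula for the slope
    have e1 : V * (1 - u * x) = -(u * Ws) := by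
      have h5 : u * (Xs - Xt) = u * x - 1 := by
        rw [hXs, hXt]
        linear_combination -huu
      linear_combination -u * hVV + V * h5
    have h6 : (2 : Se) * ((Es + V - g) * (1 - u * x)) = 2 * (-(t + u * Y)) := by
      linear_combination (1 - u * x) * eE + 2 * e1 - u * eW + r1
    have h22 : (2 : Se) ≠ 0 := by
      intro h0
      have := congrArg (PowerSeries.constantCoeff (R := ℂ)) h0
      rw [map_zero, map_ofNat] at this
      norm_num at this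
    exact mul_left_cancel₀ h22 h6
  · have h5 := key 0
    rw [Finset.sum_range_one, Nat.choose_self, pow_zero, Nat.cast_one, one_mul, Nat.sub_zero,
      pow_zero, one_mul, one_mul] at h5
    rw [hwQ, h5]
  · have h5 := key n
    rw [co_cc Ps, cP] at h5
    rw [hwQ]
    exact h5

end series

end GGL

open GGL

theorem gg (exf : S_EXF) (expp : S_EXP) (rel : S_REL) (rep : S_REP) (wfq : S_WFQ) (wft : S_WFT)
    (addw : S_ADDW) (alga : S_ALGA) (hur : S_HUR) (hen : S_HEN) (est : S_EST) (q3r : S_Q3R)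
    (int : S_INT) (half : S_HALF) : S_GG := by
  intro R hR L q Ω hL hCM g2 hq Γ _ v ρ hρ hr e
  have h2 := two_lt hρ hr
  have hp := rho_pos (v := v) hρ
  obtain ⟨hw, hz0, hwE, hwY, hwP⟩ := half R hR L q Ω hL hCM g2 hq
  have hΩ : Ω ∈ L.lattice := by
    have h := hL.mem_mul (1 : R)
    have h1 : ((1 : R) : ℂ) = 1 := rfl
    rwa [h1, mul_one] at h
  have h3z : 3 * (Ω / 3) ∈ L.lattice := by
    have : 3 * (Ω / 3) = Ω := by ring
    rwa [this]
  have hz : OT L (Ω / 3) := ⟨hz0, 3, ⟨1, rfl⟩, by push_cast; exact h3z⟩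
  obtain ⟨b, c, P, x', u₀, t₀, nb, vb, vc, vt, vu, vP⟩ :=
    numbers (v := v) q3r hCM g2 hq hz h3z hw hwP hρ hr
  obtain ⟨a1, a2, a3, a4, a6, t, u, hF, i1, i2, i3, i4, i6, it, iu⟩ := exf b c t₀ u₀
  have j1 : PowerSeries.constantCoeff a1 = b := by rw [← co_cc, i1]
  have j2 : PowerSeries.constantCoeff a2 = 0 := by rw [← co_cc, i2]
  have j3 : PowerSeries.constantCoeff a3 = c := by rw [← co_cc, i3]
  have j4 : PowerSeries.constantCoeff a4 = 0 := by rw [← co_cc, i4]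
  have j6 : PowerSeries.constantCoeff a6 = 0 := by rw [← co_cc, i6]
  have jt : PowerSeries.constantCoeff t = t₀ := by rw [← co_cc, it]
  have ju : PowerSeries.constantCoeff u = u₀ := by rw [← co_cc, iu]
  obtain ⟨r1, r2⟩ := rel a1 a2 a3 a4 a6 t u hF (by
    rw [co_cc]
    simp only [map_sub, map_add, map_mul, map_ofNat, j1, j3, jt, ju]
    linear_combination nb.ht) (by
    rw [co_cc]
    simp only [map_add, map_mul, map_pow, map_one, j2, j4, j6, jt, ju]
    linear_combination nb.ut)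
  have hρ2 : v ρ ^ 2 ≤ 1 := pow_le_one' hr.le 2
  have vb1 : v b ≤ 1 := vb.trans hρ2
  -- the bounds for the coefficients of the curve
  have hB0 : ∀ x Y g : Se, v (co 0 x) ≤ 1 → v (co 0 Y) ≤ 1 → v (co 0 g) ≤ 1 →
      ∀ s ∈ ([a1, a2, a3, a4, a6, x, Y, g] : List Se), v (co 0 s) ≤ 1 := by
    intro x Y g hx hY hg s hs
    simp only [List.mem_cons, List.not_mem_nil, or_false] at hs
    rcases hs with rfl | rfl | rfl | rfl | rfl | rfl | rfl | rfl
    · rw [i1]; exact vb1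
    · rw [i2, map_zero]; exact zero_le
    · rw [i3, vc]
    · rw [i4, map_zero]; exact zero_le
    · rw [i6, map_zero]; exact zero_le
    · exact hx
    · exact hY
    · exact hg
  obtain ⟨xf, Yf, gf, hPf, hxf, hYf, hgf⟩ := expp a1 a2 a3 a4 0 0 0
  have hBf := hur a1 a2 a3 a4 a6 t u xf Yf gf hF hPf Γ _ v h2
    (hB0 xf Yf gf (by rw [hxf, map_zero]; exact zero_le) (by rw [hYf, map_zero]; exact zero_le)
      (by rw [hgf, map_zero]; exact zero_le))
  have hT := hen a1 a2 a3 a4 a6 t u hF r1 r2 Γ _ v ρ hρ hr (by rw [i1]; exact vb) i2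
    (by rw [i3]; exact vc) i4 i6 (fun s hs k hk => hBf s (by
      simp only [List.mem_cons, List.not_mem_nil, or_false] at hs ⊢
      tauto) k hk) (by rw [it]; exact vt) (by rw [iu]; exact vu)
  -- the bounds for `u`
  have ha3 : a3 = PowerSeries.C c := by
    refine PowerSeries.derivative.ext ?_ ?_
    · rw [PowerSeries.derivative_C]; exact hF.d3
    · rw [j3, PowerSeries.constantCoeff_C]
  have hU : ∀ k : ℕ, v (co k u) ≤ v ρ ^ 2 := by
    intro k
    rcases Nat.eq_zero_or_pos k with rfl | hk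
    · rw [iu]; exact vu
    · have h5 := congrArg (co k) r1
      have h6 : co k (2 * t) = 2 * co k t := by
        have : (2 : Se) = PowerSeries.C (2 : ℂ) := (map_ofNat _ 2).symm
        rw [this]
        exact PowerSeries.coeff_C_mul _ _ _
      have h7 : co k (a1 + a3 * u) = co k a1 + c * co k u := by
        rw [ha3]
        exact ((PowerSeries.coeff k).map_add _ _).trans
          (congrArg _ (PowerSeries.coeff_C_mul _ _ _))
      rw [h6, h7] at h5
      have h8 : v (c * co k u) ≤ v 2 := by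
        have h9 : c * co k u = 2 * co k t - co k a1 := by linear_combination -h5
        rw [h9]
        refine (v.map_sub _ _).trans (max_le ?_ (hBf a1 (by simp) k hk))
        rw [map_mul]
        exact mul_le_of_le_one_right' (hT k hk)
      rw [map_mul, vc, one_mul] at h8
      refine h8.trans ?_
      rw [v_two hρ]
      exact (lt_pow hρ hr (by norm_num)).le
  have hPn1 : v (-(2 * P) - 1) ≤ v ρ ^ 3 := by
    have h5 : -(2 * P) - 1 = -((2 * P - 1) + 2) := by ring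
    rw [h5, Valuation.map_neg]
    refine (v.map_add _ _).trans (max_le vP.le ?_)
    rw [v_two hρ]
    exact (lt_pow hρ hr (by norm_num)).le
  have hP1 : v (-(2 * P)) ≤ 1 := by
    have h5 : -(2 * P) = (-(2 * P) - 1) + 1 := by ring
    rw [h5]
    refine (v.map_add _ _).trans (max_le (hPn1.trans (pow_le_one' hr.le 3)) ?_)
    rw [map_one]
  have hPe : ∀ k : ℕ, v ((-(2 * P)) ^ k - 1) ≤ v ρ ^ 3 := by
    intro k
    induction k with
    | zero => rw [pow_zero, sub_self, map_zero]; exact zero_le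
    | succ k ih =>
      have h5 : (-(2 * P)) ^ (k + 1) - 1 = ((-(2 * P)) ^ k - 1) * (-(2 * P)) + (-(2 * P) - 1) := by
        ring
      rw [h5]
      refine (v.map_add _ _).trans (max_le ?_ hPn1)
      rw [map_mul]
      exact (mul_le_of_le_one_right' hP1).trans ih
  have hnat : ∀ n : ℕ, v (n : ℂ) ≤ 1 := fun n => v_nat v n
  refine ⟨-∑ j ∈ Finset.Ico 1 (e + 1), (e.choose j : ℂ) * (-(2 * P)) ^ (e - j) * co j t, ?_,
    fun Q hQ => ?_⟩
  · rw [Valuation.map_neg]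
    refine v.map_sum_le fun j hj => ?_
    rw [map_mul, map_mul, map_pow]
    exact mul_le_one' (mul_le_one' (hnat _) (pow_le_one' hP1 _))
      (hT j (Finset.mem_Ico.mp hj).1)
  · have hQ2 := hQ.two.1
    have h1 : Ω / 2 + Q ∉ L.lattice := by
      intro h
      have h5 := sub_mem (add_mem h h) hΩ
      apply hQ2
      convert h5 using 1
      ring
    have h1' : Q - Ω / 2 ∉ L.lattice := by
      intro h
      have h5 := add_mem (add_mem h h) hΩ
      apply hQ2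
      convert h5 using 1
      ring
    set x₀ : ℂ := ℘[L] Q - ℘[L] (Ω / 3) with hx₀
    set y₀ : ℂ := (℘'[L] Q - (b * x₀ + c)) / 2 with hy₀
    have hy₀' : 2 * y₀ = ℘'[L] Q - (b * x₀ + c) := by rw [hy₀]; ring
    set g₀ : ℂ := E1 L 0 q Q + b / 2 with hg₀
    obtain ⟨hcu, vx, vy, vg⟩ := int L q (Ω / 3) Q hCM g2 hq hz h3z hQ Γ _ v ρ hρ hr b c x₀ y₀ g₀
      nb.hb nb.hc rfl hy₀' rfl
    obtain ⟨x, Y, g, E, hPn, hx, hY, hg, hE, hE0, hval⟩ := point expp rep wfq wft addw alga hCM g2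
      nb hF i1 i2 i3 i4 i6 it iu r1 r2 hw hwE hwY hwP hQ h1 h1' hx₀ hy₀' hg₀ hcu
    have hB := hur a1 a2 a3 a4 a6 t u x Y g hF hPn Γ _ v h2
      (hB0 x Y g (by rw [hx]; exact vx) (by rw [hY]; exact vy) (by rw [hg]; exact vg))
    have hall : ∀ s ∈ ([a1, a2, a3, a4, a6, x, Y, g] : List Se), v (co 0 s) ≤ 1 →
        ∀ k : ℕ, v (co k s) ≤ 1 := by
      intro s hs h0 k
      rcases Nat.eq_zero_or_pos k with rfl | hk
      · exact h0
      · exact (hB s hs k hk).trans h2.le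
    obtain ⟨k1, k2⟩ := est t u x Y g E Γ _ v ρ hρ hr (by rw [it]; exact vt) hT hU
      (hall x (by simp) (by rw [hx]; exact vx)) (hall Y (by simp) (by rw [hY]; exact vy))
      (by rw [hg]; exact vg) (fun k hk => (hB g (by simp) k hk).trans_lt h2) hE
    refine ⟨?_, by rw [← hE0]; exact k2⟩
    rw [hval e, ← hE0, Finset.range_eq_Ico, Finset.sum_eq_sum_Ico_succ_bot (Nat.succ_pos e)]
    have e1 : (e.choose 0 : ℂ) * (-(2 * P)) ^ (e - 0) * co 0 E +
        ∑ j ∈ Finset.Ico (0 + 1) (e + 1), (e.choose j : ℂ) * (-(2 * P)) ^ (e - j) * co j E -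
        co 0 E - -∑ j ∈ Finset.Ico 1 (e + 1), (e.choose j : ℂ) * (-(2 * P)) ^ (e - j) * co j t =
        ((-(2 * P)) ^ e - 1) * co 0 E +
        ∑ j ∈ Finset.Ico 1 (e + 1), (e.choose j : ℂ) * (-(2 * P)) ^ (e - j) *
          (co j E + co j t) := by
      have h5 : ∀ j ∈ Finset.Ico 1 (e + 1), (e.choose j : ℂ) * (-(2 * P)) ^ (e - j) *
          (co j E + co j t) = (e.choose j : ℂ) * (-(2 * P)) ^ (e - j) * co j E +
          (e.choose j : ℂ) * (-(2 * P)) ^ (e - j) * co j t := fun j _ => by ring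
      rw [Finset.sum_congr rfl h5, Finset.sum_add_distrib, Nat.choose_zero_right, Nat.cast_one,
        Nat.sub_zero, zero_add]
      ring
    rw [e1]
    refine (v.map_add _ _).trans_lt (max_lt ?_ ?_)
    · rw [map_mul]
      calc v ((-(2 * P)) ^ e - 1) * v (co 0 E) ≤ v ρ ^ 3 * v (co 0 E) := mul_le_mul_left (hPe e) _
        _ = v ρ ^ 2 * v (ρ * co 0 E) := by rw [map_mul, pow_succ, mul_assoc]
        _ ≤ v ρ ^ 2 * 1 := mul_le_mul_right k2 _
        _ < 1 := by rw [mul_one]; exact pow_lt_one' hr two_ne_zero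
    · refine v.map_sum_lt one_ne_zero fun j hj => ?_
      rw [map_mul, map_mul, map_pow]
      exact (mul_le_of_le_one_left' (mul_le_one' (hnat _) (pow_le_one' hP1 _))).trans_lt
        (k1 j (Finset.mem_Ico.mp hj).1)

end Pool.Agent.Helper26K9.QA
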