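import Pool.Agent.Helper26K9.QA.GG
import Pool.Agent.Helper26K9.QT.Sv
import Pool.Agent.Helper26K9.QT.Kb

/-!
# Quartic twists, all weights: the twisted sums do not vanish
-/

set_option autoImplicit false
set_option linter.unusedSectionVars false
set_option linter.unusedVariables false

open scoped PeriodPair

namespace Pool.Agent.Helper26K9.QA

open H667R3 Pool.Agent.TH936.CW Pool.Agent.Y690.NV Pool.Agent.Y690.AW Pool.Agent.W192.HK
open Pool.Agent.TH936.CM (IsLat out_sub)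
open Pool.Agent.Helper26K9.XO Pool.Agent.Helper26K9.QT
open Complex (I)

variable {R : Subring ℂ} {Γ : Type} [hΓ : LinearOrderedCommGroupWithZero Γ] {v : Valuation ℂ Γ}
  {x : R → R → ℂ} (hR : ∀ z : ℂ, z ∈ R ↔ ∃ x y : ℤ, z = x + y * I)

/-- the odd part of the values -/
noncomputable def Ho (L : PeriodPair) (q Ω : ℂ) (e : ℕ) (D r : R) : ℂ :=
  2 ^ e / 2 * ek L 0 q e (Ω / (2 + 2 * I) + Ω * r / D) +
    2 ^ e / 2 * ek L 0 q e (-(Ω / (2 + 2 * I)) + Ω * r / D)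

variable {L : PeriodPair} {q Ω : ℂ} (hL : IsLat L R Ω) (hCM : H667R3.CM L) (g2 : L.g₂ = -1)
  (hq : ∀ l ∈ L.lattice, eta L l = 0 * l + q * (starRingEnd ℂ) l)
  (hT : TP L q 1 (Ω / (2 + 2 * I)))

include hR hL hCM hq hT in
theorem ds_Ho (hbasic : H_BASIC) (e : ℕ) :
    DS (fun D r : R => Ho L q Ω e D r) (fun p => gm e (p : ℂ)) :=
  DS_lin (ds_ek hR hL hCM hq hbasic e hT (fix_T hR hL))
    (ds_ek hR hL hCM hq hbasic e hT.neg (fix_T hR hL).neg) _ _

include hR hL hCM hT in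
lemma Ho_neg (e : ℕ) {D : R} (hD : Pri D) (r : R) : Ho L q Ω e D (-r) = -Ho L q Ω e D r := by
  have h1 := ek_neg (q := q) hCM e (TD_notMem hR hL hD hT r)
  have h2 := ek_neg (q := q) hCM e (TD_notMem hR hL hD hT.neg r)
  have e1 : -(Ω / (2 + 2 * I) + Ω * r / D) = -(Ω / (2 + 2 * I)) + Ω * ((-r : R) : ℂ) / D := by
    push_cast; ring
  have e2 : -(-(Ω / (2 + 2 * I)) + Ω * r / D) = Ω / (2 + 2 * I) + Ω * ((-r : R) : ℂ) / D := by
    push_cast; ring
  rw [e1] at h1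
  rw [e2] at h2
  unfold Ho
  rw [h1, h2]
  ring

include hR hL hCM hq hT in
/-- the odd twisted sums -/
theorem TX_Ho (hbasic : H_BASIC) (e : ℕ) {V : Finset R} (hX : ∀ p ∈ V, XC x p)
    (hodd : cx x V (-1) = -1) : TX x (fun D r : R => Ho L q Ω e D r) V =
      2 ^ e * rs (dd V) (fun r => cx x V r * ek L 0 q e (Ω / (2 + 2 * I) + Ω * r / dd V)) := by
  have hod := dd_od' hR hX
  obtain ⟨b1, -⟩ := hbasic R I (qr hR)
  have := b1 (sp (dd V)) (by rw [Ne, Ideal.span_singleton_eq_bot]; exact hod.ne hR)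
  have := Fintype.ofFinite (R ⧸ sp (dd V))
  have hDS := ds_ek hR hL hCM hq hbasic e hT (fix_T hR hL)
  have hDS' := ds_ek hR hL hCM hq hbasic e hT.neg (fix_T hR hL).neg
  have hcn : ∀ r : R, cx x V (-r) = -cx x V r := by
    intro r
    have h : -r = -1 * r := by ring
    rw [h, cx_mul hX, hodd]
    ring
  have key : rs (dd V) (fun r => cx x V r * ek L 0 q e (-(Ω / (2 + 2 * I)) + Ω * r / dd V)) =
      rs (dd V) (fun r => cx x V r * ek L 0 q e (Ω / (2 + 2 * I) + Ω * r / dd V)) := by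
    rw [rs_eq, rs_eq]
    rw [← Equiv.sum_comp (Equiv.neg (R ⧸ sp (dd V)))]
    refine Finset.sum_congr rfl fun w _ => ?_
    show cx x V (-w).out * ek L 0 q e (-(Ω / (2 + 2 * I)) + Ω * (-w).out / dd V) = _
    have h1 : cx x V (-w).out = cx x V (-w.out) := Sv.cx_per hX (neg_out w)
    have h2 : ek L 0 q e (-(Ω / (2 + 2 * I)) + Ω * (-w).out / dd V) =
        ek L 0 q e (-(Ω / (2 + 2 * I)) + Ω * ((-w.out : R) : ℂ) / dd V) :=
      hDS'.per _ _ _ hod (neg_out w)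
    have h3 := ek_neg (q := q) hCM e (TD_notMem hR hL hod hT w.out)
    have e1 : -(Ω / (2 + 2 * I) + Ω * w.out / dd V) =
        -(Ω / (2 + 2 * I)) + Ω * ((-w.out : R) : ℂ) / dd V := by
      push_cast; ring
    rw [e1] at h3
    rw [h1, h2, h3, hcn]
    ring
  have e2 : TX x (fun D r : R => Ho L q Ω e D r) V =
      2 ^ e / 2 * rs (dd V) (fun r => cx x V r *
        ek L 0 q e (Ω / (2 + 2 * I) + Ω * r / dd V)) +
      2 ^ e / 2 * rs (dd V) (fun r => cx x V r *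
        ek L 0 q e (-(Ω / (2 + 2 * I)) + Ω * r / dd V)) := by
    unfold TX Ts
    rw [rs_eq, rs_eq, rs_eq, Finset.mul_sum, Finset.mul_sum, ← Finset.sum_add_distrib]
    refine Finset.sum_congr rfl fun w _ => ?_
    unfold Ho
    ring
  rw [e2, key]
  ring

lemma v_I_pow (e : ℕ) : v (I ^ e) = 1 := by
  rw [map_pow, KbL.v_I, one_pow]

/-- `I ^ e - 1` -/
lemma v_I_sub (h2 : v 2 < 1) (e : ℕ) : v (I ^ e - 1) ≤ v (1 + I) := by
  have h1 : v (I - 1) = v (1 + I) := by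
    rw [Valuation.map_sub_swap v]
    exact KbL.v_sub (v := v)
  induction e with
  | zero => rw [pow_zero, sub_self, map_zero]; exact zero_le
  | succ e ih =>
    have e1 : I ^ (e + 1) - 1 = I ^ e * (I - 1) + (I ^ e - 1) := by ring
    rw [e1]
    refine (v.map_add _ _).trans (max_le ?_ ih)
    rw [map_mul, v_I_pow, one_mul, h1]

include hR hL hCM g2 hq hT in
/-- the difference of the values -/
theorem Ho_sub (hgg : S_GG) (iso : S_ISO) (hbasic : H_BASIC) {ρ : ℂ} (hρ : ρ ^ 4 = 2)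
    (hr : v ρ < 1) (e : ℕ) : ∃ n : ℂ, v n ≤ 1 ∧ ∀ D r : R, Pri D → r ∉ sp D →
      v (ρ ^ 2 * (Ho L q Ω e D r - Ho L q Ω 0 D r) - n) < 1 := by
  obtain ⟨n, hn, h⟩ := hgg R hR L q Ω hL hCM g2 hq Γ hΓ v ρ hρ hr e
  have h2 := two_lt hρ hr
  have hp := rho_pos (v := v) hρ
  have hla := v_rho_sq (v := v) hρ hr
  set κ : ℂ := ρ ^ 2 * (1 + I) / 2 with hκ
  have vκ : v κ = 1 := by
    rw [hκ, map_div₀, map_mul, map_pow, ← hla, ← pow_add, v_two hρ]
    exact div_self (pow_pos hp _).ne'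
  refine ⟨κ * I ^ e * n, ?_, fun D r hD hr' => ?_⟩
  · rw [map_mul, map_mul, vκ, v_I_pow, one_mul, one_mul]
    exact hn
  · have hQ := OT_Q hR hL hD hr'
    obtain ⟨i1, i2⟩ := iso hbasic R hR L q Ω hL hCM g2 hq hT e _ hQ
    obtain ⟨i3, -⟩ := iso hbasic R hR L q Ω hL hCM g2 hq hT 0 _ hQ
    obtain ⟨k1, k2⟩ := h _ i2
    set A : ℂ := ek L 0 q e (Ω / 2 + (1 + I) * (Ω * r / D)) with hA
    set B : ℂ := ek L 0 q 0 (Ω / 2 + (1 + I) * (Ω * r / D)) with hB
    have e1 : Ho L q Ω e D r = 2 ^ e / 2 * ((1 + I) * I ^ e * A) := by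
      rw [← i1]
      unfold Ho
      ring
    have e2 : Ho L q Ω 0 D r = 1 / 2 * ((1 + I) * B) := by
      have : (1 + I) * B = (1 + I) * I ^ 0 * B := by ring
      rw [this, ← i3]
      unfold Ho
      ring
    have e3 : ρ ^ 2 * (Ho L q Ω e D r - Ho L q Ω 0 D r) - κ * I ^ e * n =
        κ * (I ^ e * (2 ^ e * A - B - n) + (I ^ e - 1) * B) := by
      rw [e1, e2, hκ]
      ring
    rw [e3, map_mul, vκ, one_mul]
    refine (v.map_add _ _).trans_lt (max_lt ?_ ?_)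
    · rw [map_mul, v_I_pow, one_mul]
      exact k1
    · rw [map_mul]
      calc v (I ^ e - 1) * v B ≤ v (1 + I) * v B := mul_le_mul_left (v_I_sub h2 e) _
        _ = v ρ * v (ρ * B) := by rw [← hla, map_mul, pow_two, mul_assoc]
        _ ≤ v ρ * 1 := mul_le_mul_right k2 _
        _ < 1 := by rw [mul_one]; exact hr

include hR hL hCM g2 hq hT in
open Classical in
/-- the character sum is not zero -/
theorem sumE (hgg : S_GG) (iso : S_ISO) (cmp : S_CMP) (sv : S_SV) (sm : S_SM) (kb : S_KB)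
    (val : S_VAL) (hbasic : H_BASIC) (e : ℕ) {S : Finset R} (hS : ∀ p ∈ S, Prime p ∧ XC x p)
    (hd : Dst S) (hodd : cx x S (-1) = -1) (htz : tz aa zn S = 1) :
    rs (dd S) (fun r => cx x S r * ek L 0 q e (Ω / (2 + 2 * I) + Ω * r / dd S)) ≠ 0 := by
  obtain ⟨V, hV⟩ := exists_V
  obtain ⟨ρ, hρ, hr⟩ := exists_rho hV
  have h2 := two_lt hρ hr
  have hX : ∀ p ∈ S, XC x p := fun p hp => (hS p hp).2
  have hne : ∀ W ⊆ S, cx x W (-1) = -1 → W.Nonempty := by
    intro W _ h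
    by_contra h1
    rw [Finset.not_nonempty_iff_eq_empty] at h1
    rw [h1, cx_empty] at h
    norm_num at h
  have hres := res4 (x := x) hR hL hCM g2 hq hT hρ hr sv sm kb val hbasic (e := 0) (by norm_num)
    hS hd
  have hTX0 : ∀ W ⊆ S, cx x W (-1) = -1 → TX x (fun D r : R => Ho L q Ω 0 D r) W =
      TX x (fun D r : R => G4 L q Ω 0 D r) W := by
    intro W hW h
    have hXW : ∀ p ∈ W, XC x p := fun p hp => hX p (hW hp)
    rw [TX_Ho hR hL hCM hq hT hbasic 0 hXW h, pow_zero, one_mul]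
    unfold TX Ts
    congr 1
    funext r
    unfold G4
    simp
  have hgm : ∀ (k : ℕ), ∀ p ∈ S, V.valuation (gm k (p : ℂ) - 1) ≤ V.valuation ρ ^ 6 := by
    intro k p hp
    have h3 := (gm_par (v := V.valuation) hR hρ hr hbasic (hS p hp).2.od k).le
    rwa [map_mul, v_two hρ, map_pow, ← pow_add] at h3
  have hcmp := cmp sv sm kb hbasic R hR x S hS hd (fun D r : R => Ho L q Ω e D r)
    (fun D r : R => Ho L q Ω 0 D r) (fun p => gm e (p : ℂ)) (fun p => gm 0 (p : ℂ))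
    (ds_Ho hR hL hCM hq hT hbasic e) (ds_Ho hR hL hCM hq hT hbasic 0)
    (fun D r hD => Ho_neg hR hL hCM hT e hD r) (fun D r hD => Ho_neg hR hL hCM hT 0 hD r)
    _ _ _ ρ hρ hr (fun p hp => ⟨hgm e p hp, hgm 0 p hp⟩)
    (Ho_sub hR hL hCM g2 hq hT hgg iso hbasic hρ hr e) (fun W hW h => by
      rw [hTX0 W hW h, ← map_pow]
      exact (hres W hW (hne W hW h)).le) S (Finset.Subset.refl S) hodd
  intro h0
  rw [TX_Ho hR hL hCM hq hT hbasic e hX hodd, h0, mul_zero, zero_sub, Valuation.map_neg,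
    hTX0 S (Finset.Subset.refl S) hodd] at hcmp
  have h1 := hres S (Finset.Subset.refl S) (hne S (Finset.Subset.refl S) hodd)
  rw [htz] at h1
  have h3 : Pq V.valuation ((1 + I) ^ S.card) (TX x (fun D r : R => G4 L q Ω 0 D r) S) 0 :=
    Pq.zero (by rw [map_pow V.valuation]; exact hcmp)
  have h4 := (h1.sub h3)
  rw [sub_self, add_zero] at h4
  exact (h4.ne_zero hV) rfl

end Pool.Agent.Helper26K9.QA
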